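import Pool.Agent.T2H04.LC.Stm

/-! # Package ADM: admissible functions -/

open MeasureTheory Set Filter Topology

namespace Pool.Agent.T2H04.LC

theorem pADM : S_ADM := by
  intro u hu hs
  have hd : ∀ e : ℝ × ℝ, Continuous fun z => fderiv ℝ u z e := fun e =>
    (hu.continuous_fderiv one_ne_zero).clm_apply continuous_const
  refine ⟨?_, ?_⟩
  · intro A hA
    refine ⟨hu, hs, fun e => ?_⟩
    have hAc := hA.continuous
    have huc := hu.continuous
    unfold DD
    refine (hd e).sub (Continuous.mul (Continuous.mul continuous_const ?_) huc)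
    refine Complex.continuous_ofReal.comp ?_
    exact ((continuous_fst.comp hAc).mul continuous_const).add
      ((continuous_snd.comp hAc).mul continuous_const)
  · intro Φ p hp
    refine ⟨hu, hs, fun e => ?_⟩
    rw [continuous_iff_continuousAt]
    intro z
    by_cases hz : z ∈ tsupport u
    · have hzp : z ≠ p := fun h => hp (h ▸ hz)
      have hden : (z.1 - p.1) ^ 2 + (z.2 - p.2) ^ 2 ≠ 0 := by
        intro h0
        apply hzp
        have h1 : (z.1 - p.1) ^ 2 = 0 := by nlinarith [sq_nonneg (z.1 - p.1), sq_nonneg (z.2 - p.2)]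
        have h2 : (z.2 - p.2) ^ 2 = 0 := by nlinarith [sq_nonneg (z.1 - p.1), sq_nonneg (z.2 - p.2)]
        have h3 := pow_eq_zero_iff (two_ne_zero) |>.1 h1
        have h4 := pow_eq_zero_iff (two_ne_zero) |>.1 h2
        exact Prod.ext (by linarith) (by linarith)
      have hA1 : ContinuousAt (fun z : ℝ × ℝ => (AB Φ p z).1) z := by
        unfold AB
        exact ContinuousAt.div (by fun_prop) (by fun_prop) hden
      have hA2 : ContinuousAt (fun z : ℝ × ℝ => (AB Φ p z).2) z := by
        unfold AB
        exact ContinuousAt.div (by fun_prop) (by fun_prop) hden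
      unfold DD
      refine (hd e).continuousAt.sub (ContinuousAt.mul (ContinuousAt.mul continuousAt_const ?_)
        hu.continuous.continuousAt)
      refine Complex.continuous_ofReal.continuousAt.comp ?_
      exact (hA1.mul continuousAt_const).add (hA2.mul continuousAt_const)
    · have h1 : u =ᶠ[𝓝 z] 0 := notMem_tsupport_iff_eventuallyEq.1 hz
      have h2 : DD (AB Φ p) u e =ᶠ[𝓝 z] fun _ => 0 := by
        have h3 : ∀ᶠ w in 𝓝 z, u =ᶠ[𝓝 w] 0 := eventually_eventually_nhds.2 h1
        filter_upwards [h3] with w hw
        unfold DD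
        have h4 : fderiv ℝ u w = fderiv ℝ (0 : ℝ × ℝ → ℂ) w := hw.fderiv_eq
        have h5 : u w = 0 := hw.eq_of_nhds
        rw [h4, h5]
        simp
      exact (continuousAt_const).congr h2.symm

end Pool.Agent.T2H04.LC
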