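import Pool.Agent.T2H04.LC.Stm

/-!
# Package CO: the two local errors are controlled by the kept energy
-/

open MeasureTheory Set Filter Topology

namespace Pool.Agent.T2H04.LC

noncomputable section

namespace PkgCO

theorem null_line (x : ℝ) : volume {z : ℝ × ℝ | z.1 = x} = 0 := by
  have h1 : {z : ℝ × ℝ | z.1 = x} = ({x} : Set ℝ) ×ˢ (univ : Set ℝ) := by
    ext z
    simp
  rw [h1, Measure.volume_eq_prod, Measure.prod_prod]
  simp

theorem ae_line (x : ℝ) : ({z : ℝ × ℝ | z.1 ≤ x} : Set (ℝ × ℝ)) =ᵐ[volume] {z : ℝ × ℝ | z.1 < x} := by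
  have h1 : ∀ᵐ z : ℝ × ℝ, z.1 ≠ x := by
    rw [ae_iff]
    simpa using null_line x
  filter_upwards [h1] with z hz
  apply propext
  constructor
  · intro h
    exact lt_of_le_of_ne h hz
  · intro h
    exact le_of_lt h

theorem int_line (x : ℝ) (f : ℝ × ℝ → ℝ) :
    ∫ z in {z : ℝ × ℝ | z.1 ≤ x}, f z = ∫ z in {z : ℝ × ℝ | z.1 < x}, f z :=
  setIntegral_congr_set (ae_line x)

theorem DD_compact {A : ℝ × ℝ → ℝ × ℝ} {u : ℝ × ℝ → ℂ} (hu : Adm A u) (e : ℝ × ℝ) :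
    HasCompactSupport (DD A u e) := by
  refine HasCompactSupport.of_support_subset_isCompact hu.supp.isCompact fun z hz => ?_
  by_contra hc
  apply hz
  have h1 : u z = 0 := image_eq_zero_of_notMem_tsupport hc
  have h2 : fderiv ℝ u z = 0 := by
    by_contra h3
    exact hc (support_fderiv_subset ℝ h3)
  unfold DD
  rw [h1, h2]
  simp

theorem sq_int {A : ℝ × ℝ → ℝ × ℝ} {u : ℝ × ℝ → ℂ} (hu : Adm A u) (e : ℝ × ℝ) :
    Integrable fun z => ‖DD A u e z‖ ^ 2 := by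
  apply Continuous.integrable_of_hasCompactSupport
  · exact ((hu.cont e).norm).pow 2
  · have := (DD_compact hu e).norm
    refine this.comp_left (g := fun t : ℝ => t ^ 2) ?_
    norm_num

theorem E1_ge {A : ℝ × ℝ → ℝ × ℝ} {u : ℝ × ℝ → ℂ} {α : ℝ} {θ X Y : ℝ → ℝ}
    (hcos : ∀ s, 1 / 2 ≤ Real.cos (θ s)) (hYY : ∀ x h, 0 ≤ YY A u α x h) (S : ℝ) :
    (∫ z in {z : ℝ × ℝ | z.1 < X S}, ‖DD A u (1, 0) z‖ ^ 2) ≤ E1 A u α θ X Y S := by
  unfold E1
  have : 0 ≤ ∫ s in Iic S, Real.cos (θ s) * YY A u α (X s) (Y s) :=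
    integral_nonneg fun s => mul_nonneg (by linarith [hcos s]) (hYY _ _)
  linarith

theorem E1_nonneg {A : ℝ × ℝ → ℝ × ℝ} {u : ℝ × ℝ → ℂ} {α : ℝ} {θ X Y : ℝ → ℝ}
    (hcos : ∀ s, 1 / 2 ≤ Real.cos (θ s)) (hYY : ∀ x h, 0 ≤ YY A u α x h) (S : ℝ) :
    0 ≤ E1 A u α θ X Y S := by
  refine le_trans ?_ (E1_ge hcos hYY S)
  exact integral_nonneg fun z => by positivity

theorem box_le {A : ℝ × ℝ → ℝ × ℝ} {u : ℝ × ℝ → ℂ} (hu : Adm A u) (x x' c d : ℝ) (e : ℝ × ℝ) :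
    (∫ z in Icc x' x ×ˢ Icc c d, ‖DD A u e z‖ ^ 2) ≤
      ∫ z in {z : ℝ × ℝ | z.1 < x}, ‖DD A u e z‖ ^ 2 := by
  rw [← int_line]
  refine setIntegral_mono_set (sq_int hu e).integrableOn
    (Filter.Eventually.of_forall fun z => by positivity) ?_
  exact Filter.Eventually.of_forall fun z hz => hz.1.2

end PkgCO

open PkgCO in
theorem pCO (hCO1 : S_CO1) (hCO2 : S_CO2) (hSPD : S_SPD) (hGEO : S_GEO2) (hYYC : S_YYC) : S_CO := by
  intro α A x1 x2 y1 y2 l1 l2 c hα hHol hor a b ℓ hab hℓ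
  obtain ⟨S, hSdef⟩ : ∃ S : ℝ, S = max b (a + 2 * |x2 + l1 - a| + 4) := ⟨_, rfl⟩
  have hbS : b ≤ S := by rw [hSdef]; exact le_max_left _ _
  have hS2 : a + 2 * |x2 + l1 - a| + 4 ≤ S := by rw [hSdef]; exact le_max_right _ _
  have h1 := le_abs_self (x2 + l1 - a)
  have h1' := abs_nonneg (x2 + l1 - a)
  have hx : x2 + l1 ≤ a + (S - a) / 2 := by linarith
  have hl1 := hHol.hl1
  obtain ⟨R, hRdef⟩ : ∃ R : ℝ, R = |y1| + |y2| + (S - a) + 2 * ℓ := ⟨_, rfl⟩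
  have hy1 := neg_abs_le y1
  have hy2 := le_abs_self y2
  have hy1' := abs_nonneg y1
  have hy2' := abs_nonneg y2
  obtain ⟨δ1, C1, hδ1, hC1, hK⟩ := hCO1 α A x1 x2 y1 y2 l1 l2 c hα hHol hor a b S hab hbS hx
  obtain ⟨C2, hC2, hL⟩ := hCO2 α a b S x1 x2 y1 y2 R hα hab hbS (by linarith) hHol.hx (by linarith)
    hHol.hy (by linarith) (by linarith) (by linarith)
  refine ⟨S, δ1, 2 * (C2 * (C1 + 1)) + 2, hbS, hδ1, by positivity, ?_⟩
  intro δ θ X Y hG hδ u hu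
  obtain ⟨hcos, -, -, hmono, -, -, -, -, hY, -⟩ := hGEO a b δ θ X Y hG
  obtain ⟨-, hYY, -⟩ := hYYC α A u hu
  have hE0 : 0 ≤ E1 A u α θ X Y S := E1_nonneg hcos hYY S
  have hE1 := E1_ge (X := X) (Y := Y) hcos hYY S
  have hK' := hK δ θ X Y hG hδ u hu
  obtain ⟨hL1, hL2⟩ := hL δ θ X Y hG A u hu
  have hsum : C2 * ((∫ z in Icc x1 x2 ×ˢ Icc y1 y2, ‖u z‖ ^ 2) + E1 A u α θ X Y S) ≤
      C2 * (C1 + 1) * E1 A u α θ X Y S := by
    have : (∫ z in Icc x1 x2 ×ˢ Icc y1 y2, ‖u z‖ ^ 2) + E1 A u α θ X Y S ≤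
        (C1 + 1) * E1 A u α θ X Y S := by linarith
    calc _ ≤ C2 * ((C1 + 1) * E1 A u α θ X Y S) := mul_le_mul_of_nonneg_left this hC2.le
      _ = _ := by ring
  have hP : 0 ≤ C2 * (C1 + 1) * E1 A u α θ X Y S := by positivity
  constructor
  · refine (hL1.trans hsum).trans ?_
    nlinarith [hP, hE0]
  · have hYS : |Y S| ≤ (S - a) / 2 := by
      refine (hY S (by linarith)).trans ?_
      have := hG.small
      have h3 : 0 ≤ S - a := by linarith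
      nlinarith
    obtain ⟨hY1, hY2⟩ := abs_le.1 hYS
    have hR1 : -R ≤ Y S - 2 * ℓ := by linarith
    have hR2 : Y S + 2 * ℓ ≤ R := by linarith
    have h4 : (∫ y in (Y S - 2 * ℓ)..(Y S + 2 * ℓ), ‖u (X S, y)‖ ^ 2) ≤
        ∫ y in (-R)..R, ‖u (X S, y)‖ ^ 2 := by
      have hcont : Continuous fun y => ‖u (X S, y)‖ ^ 2 := by
        have := hu.smooth.continuous
        fun_prop
      refine intervalIntegral.integral_mono_interval hR1 (by linarith) hR2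
        (Filter.Eventually.of_forall fun y => by positivity) (hcont.intervalIntegrable _ _)
    have h5 := hSPD A u hu (X S) (-R) R (by linarith)
    have h6 := box_le hu (X S) (X S - 1) (-R) R (1, 0)
    have h7 := hL2.trans hsum
    nlinarith [h4, h5, h6, h7, hE1]

end

end Pool.Agent.T2H04.LC
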