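import Pool.Agent.T2H04.LC.Stm

/-! # Package CO1: the mass near the magnetic field is controlled by `E1` -/

set_option autoImplicit false

open MeasureTheory Set Filter Topology

namespace Pool.Agent.T2H04.LC

noncomputable section

namespace CO1

lemma null_line (c : ℝ) : (volume : Measure (ℝ × ℝ)) {z : ℝ × ℝ | z.1 = c} = 0 := by
  have h : {z : ℝ × ℝ | z.1 = c} = ({c} : Set ℝ) ×ˢ (univ : Set ℝ) := by
    ext z
    simp
  rw [h, Measure.volume_eq_prod, Measure.prod_prod]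
  simp

lemma box_le {F : ℝ × ℝ → ℝ} (hF : Continuous F) (hc : HasCompactSupport F) (h0 : ∀ z, 0 ≤ F z)
    {x1 x2 y1 y2 c : ℝ} (hx : x2 ≤ c) :
    (∫ z in Icc x1 x2 ×ˢ Icc y1 y2, F z) ≤ ∫ z in {z : ℝ × ℝ | z.1 < c}, F z := by
  have hI : Integrable F := hF.integrable_of_hasCompactSupport hc
  have hae : ({z : ℝ × ℝ | z.1 < c} : Set (ℝ × ℝ)) =ᵐ[volume] {z : ℝ × ℝ | z.1 ≤ c} := by
    rw [ae_eq_set]
    constructor
    · refine measure_mono_null (fun z hz => ?_) (null_line c)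
      have h1 : z.1 < c := hz.1
      exact absurd (show z ∈ {z : ℝ × ℝ | z.1 ≤ c} from h1.le) hz.2
    · refine measure_mono_null ?_ (null_line c)
      rintro z ⟨hz1, hz2⟩
      exact le_antisymm hz1 (not_lt.mp hz2)
  rw [setIntegral_congr_set hae]
  refine setIntegral_mono_set hI.integrableOn (ae_of_all _ h0) (HasSubset.Subset.eventuallyLE ?_)
  rintro z ⟨hz, _⟩
  exact hz.2.trans hx

lemma emb (x : ℝ) : IsClosedEmbedding (fun y : ℝ => (x, y)) := by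
  refine IsClosedEmbedding.of_continuous_injective_isClosedMap (by fun_prop)
    (fun a b h => (Prod.ext_iff.mp h).2) ?_
  intro s hs
  have : (fun y : ℝ => (x, y)) '' s = ({x} : Set ℝ) ×ˢ s := by
    ext z
    constructor
    · rintro ⟨y, hy, rfl⟩
      exact ⟨rfl, hy⟩
    · rintro ⟨h1, h2⟩
      exact ⟨z.2, h2, Prod.ext h1.symm rfl⟩
  rw [this]
  exact isClosed_singleton.prod hs

/-- the integrand -/
def G (A : ℝ × ℝ → ℝ × ℝ) (u : ℝ × ℝ → ℂ) (k : ℝ) (z : ℝ × ℝ) : ℝ :=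
  ‖DD A u (0, 1) z + (k : ℂ) * u z‖ ^ 2

lemma G_cont {A : ℝ × ℝ → ℝ × ℝ} {u : ℝ × ℝ → ℂ} (hu : Adm A u) (k : ℝ) :
    Continuous (G A u k) := by
  have h1 := hu.cont (0, 1)
  have h2 := hu.smooth.continuous
  unfold G
  fun_prop

lemma G_supp {A : ℝ × ℝ → ℝ × ℝ} {u : ℝ × ℝ → ℂ} (hLIN : S_LIN) (hu : Adm A u) (k : ℝ) :
    HasCompactSupport (G A u k) := by
  have h1 := (hLIN A u hu).2.2.1 (0, 1)
  have h2 : HasCompactSupport fun z => (k : ℂ) * u z := hu.supp.mul_left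
  have h3 : HasCompactSupport fun z => DD A u (0, 1) z + (k : ℂ) * u z := h1.add h2
  exact h3.comp_left (g := fun w : ℂ => ‖w‖ ^ 2) (by simp)

lemma G_int {A : ℝ × ℝ → ℝ × ℝ} {u : ℝ × ℝ → ℂ} (hLIN : S_LIN) (hu : Adm A u) (k x : ℝ) :
    Integrable (fun y : ℝ => G A u k (x, y)) :=
  ((G_cont hu k).comp (by fun_prop)).integrable_of_hasCompactSupport
    ((G_supp hLIN hu k).comp_isClosedEmbedding (emb x))

lemma G_nonneg (A : ℝ × ℝ → ℝ × ℝ) (u : ℝ × ℝ → ℂ) (k : ℝ) (z : ℝ × ℝ) : 0 ≤ G A u k z := by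
  unfold G
  positivity

lemma YY_eq (A : ℝ × ℝ → ℝ × ℝ) (u : ℝ × ℝ → ℂ) (α x h : ℝ) :
    YY A u α x h = (∫ y in Iic h, G A u (-(α / 2)) (x, y)) + ∫ y in Ici h, G A u (α / 2) (x, y) := by
  unfold YY G
  congr 2
  funext y
  congr 2
  push_cast
  ring

lemma vert {A : ℝ × ℝ → ℝ × ℝ} {u : ℝ × ℝ → ℂ} (hLIN : S_LIN) (hu : Adm A u)
    {α k h y1 y2 x : ℝ} (hyy : y1 ≤ y2)
    (hcase : (k = α / 2 ∧ h ≤ y1) ∨ (k = -(α / 2) ∧ y2 ≤ h)) :
    (∫ y in y1..y2, G A u k (x, y)) ≤ YY A u α x h := by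
  rw [intervalIntegral.integral_of_le hyy, YY_eq]
  have h1 : 0 ≤ ∫ y in Iic h, G A u (-(α / 2)) (x, y) :=
    integral_nonneg fun y => G_nonneg _ _ _ _
  have h2 : 0 ≤ ∫ y in Ici h, G A u (α / 2) (x, y) :=
    integral_nonneg fun y => G_nonneg _ _ _ _
  rcases hcase with ⟨rfl, hh⟩ | ⟨rfl, hh⟩
  · have h3 : (∫ y in Ioc y1 y2, G A u (α / 2) (x, y)) ≤ ∫ y in Ici h, G A u (α / 2) (x, y) := by
      refine setIntegral_mono_set (G_int hLIN hu _ x).integrableOn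
        (ae_of_all _ fun y => G_nonneg _ _ _ _) (HasSubset.Subset.eventuallyLE ?_)
      intro y hy
      exact hh.trans hy.1.le
    linarith
  · have h3 : (∫ y in Ioc y1 y2, G A u (-(α / 2)) (x, y)) ≤
        ∫ y in Iic h, G A u (-(α / 2)) (x, y) := by
      refine setIntegral_mono_set (G_int hLIN hu _ x).integrableOn
        (ae_of_all _ fun y => G_nonneg _ _ _ _) (HasSubset.Subset.eventuallyLE ?_)
      intro y hy
      exact hy.2.trans hh
    linarith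

lemma YY_int {a b δ : ℝ} {θ X Y : ℝ → ℝ} (hGEO2 : S_GEO2) (hYYC : S_YYC) (hG : Geo a b δ θ X Y)
    (α : ℝ) {A : ℝ × ℝ → ℝ × ℝ} {u : ℝ × ℝ → ℂ} (hu : Adm A u) :
    Integrable (fun s => Real.cos (θ s) * YY A u α (X s) (Y s)) := by
  obtain ⟨-, -, -, hmono, hsurj, hXc, hYc, hbd, -, -⟩ := hGEO2 a b δ θ X Y hG
  obtain ⟨hc, -, R, hR⟩ := hYYC α A u hu
  have hcont : Continuous fun s => Real.cos (θ s) * YY A u α (X s) (Y s) := by
    have h1 : Continuous fun s => YY A u α (X s) (Y s) :=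
      hc.comp (hXc.prodMk hYc)
    exact (Real.continuous_cos.comp hG.cont).mul h1
  refine hcont.integrable_of_hasCompactSupport ?_
  obtain ⟨s1, hs1⟩ := hsurj (-(|R| + 1))
  obtain ⟨s2, hs2⟩ := hsurj (|R| + 1)
  refine HasCompactSupport.intro (K := Icc s1 s2) isCompact_Icc fun s hs => ?_
  have h1 : R < |X s| := by
    by_contra hcon
    apply hs
    have h2 : |X s| ≤ |R| := (not_lt.mp hcon).trans (le_abs_self R)
    obtain ⟨h3, h4⟩ := abs_le.mp h2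
    constructor
    · by_contra h5
      have := hmono (not_le.mp h5)
      linarith
    · by_contra h5
      have := hmono (not_le.mp h5)
      linarith
  rw [hR _ _ h1, mul_zero]

lemma main {a b δ : ℝ} {θ X Y : ℝ → ℝ} (hGEO2 : S_GEO2) (hCV : S_CV) (hYYC : S_YYC)
    (hLIN : S_LIN) (hG : Geo a b δ θ X Y) {α k S x1 x2 y1 y2 : ℝ} {A : ℝ × ℝ → ℝ × ℝ}
    {u : ℝ × ℝ → ℂ} (hu : Adm A u) (hx : x1 ≤ x2) (hy : y1 ≤ y2) (hS : x2 ≤ X S)
    (hcase : ∀ s ≤ S, (k = α / 2 ∧ Y s ≤ y1) ∨ (k = -(α / 2) ∧ y2 ≤ Y s)) :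
    (∫ z in Icc x1 x2 ×ˢ Icc y1 y2,
      (‖DD A u (1, 0) z‖ ^ 2 + ‖DD A u (0, 1) z + (k : ℂ) * u z‖ ^ 2)) ≤ E1 A u α θ X Y S := by
  have hI1 : Continuous fun z => ‖DD A u (1, 0) z‖ ^ 2 := by
    have := hu.cont (1, 0)
    fun_prop
  have hI1s : HasCompactSupport fun z => ‖DD A u (1, 0) z‖ ^ 2 :=
    ((hLIN A u hu).2.2.1 (1, 0)).comp_left (g := fun w : ℂ => ‖w‖ ^ 2) (by simp)
  have hsplit : (∫ z in Icc x1 x2 ×ˢ Icc y1 y2,
      (‖DD A u (1, 0) z‖ ^ 2 + ‖DD A u (0, 1) z + (k : ℂ) * u z‖ ^ 2)) =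
      (∫ z in Icc x1 x2 ×ˢ Icc y1 y2, ‖DD A u (1, 0) z‖ ^ 2) +
        ∫ z in Icc x1 x2 ×ˢ Icc y1 y2, G A u k z :=
    integral_add (hI1.integrable_of_hasCompactSupport hI1s).integrableOn
      ((G_cont hu k).integrable_of_hasCompactSupport (G_supp hLIN hu k)).integrableOn
  rw [hsplit]
  unfold E1
  refine add_le_add (box_le hI1 hI1s (fun z => by positivity) hS) ?_
  obtain ⟨hcos, -, -, hmono, hsurj, hXc, hYc, -, -, -⟩ := hGEO2 a b δ θ X Y hG
  obtain ⟨S1, hS1⟩ := hsurj x1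
  obtain ⟨S2, hS2⟩ := hsurj x2
  have h12 : S1 ≤ S2 := hmono.le_iff_le.mp (by rw [hS1, hS2]; exact hx)
  have h2S : S2 ≤ S := hmono.le_iff_le.mp (by rw [hS2]; exact hS)
  have hcv := (hCV a b δ θ X Y hG).2 S1 S2 y1 y2 (G A u k) (G_cont hu k) h12 hy
  rw [hS1, hS2] at hcv
  rw [hcv]
  have hYI := YY_int hGEO2 hYYC hG α hu
  have hYn := (hYYC α A u hu).2.1
  have hcont : Continuous fun s => Real.cos (θ s) * ∫ y in y1..y2, G A u k (X s, y) := by
    have h1 : Continuous fun s => ∫ y in y1..y2, G A u k (X s, y) := by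
      refine intervalIntegral.continuous_parametric_intervalIntegral_of_continuous'
        (f := fun s y => G A u k (X s, y)) ?_ y1 y2
      exact (G_cont hu k).comp (by fun_prop)
    exact (Real.continuous_cos.comp hG.cont).mul h1
  calc (∫ s in S1..S2, Real.cos (θ s) * ∫ y in y1..y2, G A u k (X s, y))
      ≤ ∫ s in S1..S2, Real.cos (θ s) * YY A u α (X s) (Y s) := by
        refine intervalIntegral.integral_mono_on h12 (hcont.intervalIntegrable _ _)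
          hYI.intervalIntegrable fun s hs => ?_
        refine mul_le_mul_of_nonneg_left ?_ (by linarith [hcos s])
        exact vert hLIN hu hy (hcase s (hs.2.trans h2S))
    _ ≤ ∫ s in Iic S, Real.cos (θ s) * YY A u α (X s) (Y s) := by
        rw [intervalIntegral.integral_of_le h12]
        refine setIntegral_mono_set hYI.integrableOn
          (ae_of_all _ fun s => mul_nonneg (by linarith [hcos s]) (hYn _ _))
          (HasSubset.Subset.eventuallyLE ?_)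
        intro s hs
        exact hs.2.trans h2S

end CO1

theorem pCO1 (hHOL : S_HOL) (hGEO2 : S_GEO2) (hCV : S_CV) (hYYC : S_YYC) (hLIN : S_LIN) :
    S_CO1 := by
  intro α A x1 x2 y1 y2 l1 l2 c hα hH hpos a b S hab hbS hxS
  have hl1 := hH.hl1
  have hl2 := hH.hl2
  have hy := hH.hy
  have hx := hH.hx
  have haS : a < S := hab.trans_le hbS
  have key : ∀ (k d : ℝ), 0 < d → (∀ v : ℝ, |v| ≤ d →
      (k = α / 2 ∧ v ≤ y1) ∨ (k = -(α / 2) ∧ y2 + l2 ≤ v)) → ∃ δ1 C : ℝ, 0 < δ1 ∧ 0 < C ∧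
      ∀ (δ : ℝ) (θ X Y : ℝ → ℝ), Geo a b δ θ X Y → δ ≤ δ1 → ∀ u : ℝ × ℝ → ℂ, Adm A u →
        (∫ z in Icc x1 x2 ×ˢ Icc y1 y2, ‖u z‖ ^ 2) ≤ C * E1 A u α θ X Y S := by
    intro k d hd hk
    obtain ⟨C, hC, hHC⟩ := hHOL k A x1 x2 y1 y2 l1 l2 c hH
    refine ⟨d / (S - a), C, div_pos hd (by linarith), hC, ?_⟩
    intro δ θ X Y hG hδ u hu
    refine (hHC u hu).trans (mul_le_mul_of_nonneg_left ?_ hC.le)
    obtain ⟨-, -, -, -, -, -, -, hbd, hYbd, -⟩ := hGEO2 a b δ θ X Y hG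
    refine CO1.main hGEO2 hCV hYYC hLIN hG hu (by linarith) (by linarith) ?_ ?_
    · have h1 := (hbd a S haS.le).1
      rw [hG.X0 a le_rfl] at h1
      linarith
    · intro s hs
      apply hk
      rcases le_total s a with h | h
      · rw [hG.Y0 s h]
        simpa using hd.le
      · refine (hYbd s h).trans ?_
        have h2 : δ * (s - a) ≤ δ * (S - a) :=
          mul_le_mul_of_nonneg_left (by linarith) hG.pos.le
        have h3 : δ * (S - a) ≤ d / (S - a) * (S - a) :=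
          mul_le_mul_of_nonneg_right hδ (by linarith)
        rw [div_mul_cancel₀ _ (by linarith : S - a ≠ 0)] at h3
        linarith
  rcases hpos with h | h
  · exact key (α / 2) y1 h fun v hv => Or.inl ⟨rfl, (abs_le.mp hv).2⟩
  · exact key (-(α / 2)) (-(y2 + l2)) (by linarith) fun v hv =>
      Or.inr ⟨rfl, by linarith [(abs_le.mp hv).1]⟩

end

end Pool.Agent.T2H04.LC
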