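import Pool.Agent.T2H04.LC.Stm

/-! # Package CO2 -/

open MeasureTheory Set Filter Topology

namespace Pool.Agent.T2H04.LC

noncomputable section

namespace CO2

/-- restriction to a vertical line -/
theorem vline {A : ℝ × ℝ → ℝ × ℝ} {u : ℝ × ℝ → ℂ} (hLIN : S_LIN) (hu : Adm A u) (x : ℝ) :
    Lin (fun t => u (x, t)) (fun t => DD A u (0, 1) (x, t))
      (fun t => (A (x, t)).1 * (0 : ℝ) + (A (x, t)).2 * (1 : ℝ)) ∧ HasCompactSupport (fun t : ℝ => u (x, t)) := by
  obtain ⟨h1, h2, _⟩ := hLIN A u hu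
  have e : ∀ t : ℝ, (x, (0 : ℝ)) + t • ((0 : ℝ), (1 : ℝ)) = (x, t) := by
    intro t
    ext <;> simp
  have h3 := h1 (x, 0) (0, 1)
  have h4 := h2 (x, 0) (0, 1) (by simp)
  simp only [e] at h3 h4
  exact ⟨h3, h4⟩

theorem ae_fst_ne (c : ℝ) : ∀ᵐ z : ℝ × ℝ, z.1 ≠ c := by
  have h : ∀ᵐ x : ℝ, x ≠ c := compl_mem_ae_iff.2 (measure_singleton c)
  exact MeasureTheory.Measure.quasiMeasurePreserving_fst.ae h

end CO2

open CO2

theorem pCO2 (hSPB : S_SPB) (hV1 : S_V1) (hGEO2 : S_GEO2) (hCV : S_CV) (hYYC : S_YYC) (hLIN : S_LIN) :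
    S_CO2 := by
  intro α a b S x1 x2 y1 y2 R hα hab hbS haS hx12 hx2 hy12 hRy1 hy2R hSR
  obtain ⟨C1, hC1, hV⟩ := hV1 α R y1 y2 hα hRy1 hy12 hy2R
  set lo := min a x1 with hlo
  set W := S - lo with hW
  have hloa : lo ≤ a := min_le_left _ _
  have hlox : lo ≤ x1 := min_le_right _ _
  have hW0 : 0 ≤ W := by rw [hW]; linarith
  have hx120 : 0 < x2 - x1 := by linarith
  set M := 2 * W / (x2 - x1) + 2 * W ^ 2 + 1 with hM
  have hM0 : 0 < M := by positivity
  have hR0 : 0 < R := by linarith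
  refine ⟨2 * C1 * (1 + R) * M, by positivity, ?_⟩
  intro δ θ X Y hG A u hu
  obtain ⟨g1, g2, g3, g4, g5, g6, g7, g8, g9, g10⟩ := hGEO2 a b δ θ X Y hG
  obtain ⟨cv1, cv2⟩ := hCV a b δ θ X Y hG
  obtain ⟨yc1, yc2, R', yc3⟩ := hYYC α A u hu
  obtain ⟨_, _, hDsupp, _, _⟩ := hLIN A u hu
  have huc : Continuous u := hu.smooth.continuous
  have hucs : HasCompactSupport u := hu.supp
  have hXa : X a = a := hG.X0 a le_rfl
  have hXS1 : a + (S - a) / 2 ≤ X S := by
    have := (g8 a S (by linarith)).1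
    rw [hXa] at this
    linarith
  have hXS2 : X S ≤ S := by
    have := (g8 a S (by linarith)).2
    rw [hXa] at this
    linarith
  have hx2X : x2 ≤ X S := hx2.trans hXS1
  -- integrability
  have hu2c : Continuous (fun z : ℝ × ℝ => ‖u z‖ ^ 2) := huc.norm.pow 2
  have hu2s : HasCompactSupport (fun z : ℝ × ℝ => ‖u z‖ ^ 2) := by
    have h1 : (fun z : ℝ × ℝ => ‖u z‖ ^ 2) = (fun w : ℂ => ‖w‖ ^ 2) ∘ u := rfl
    rw [h1]
    exact hucs.comp_left (by simp)
  have hu2i : Integrable (fun z : ℝ × ℝ => ‖u z‖ ^ 2) := hu2c.integrable_of_hasCompactSupport hu2s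
  have hDc : Continuous (fun z : ℝ × ℝ => ‖DD A u (1, 0) z‖ ^ 2) := (hu.cont (1, 0)).norm.pow 2
  have hDs : HasCompactSupport (fun z : ℝ × ℝ => ‖DD A u (1, 0) z‖ ^ 2) := by
    have h1 : (fun z : ℝ × ℝ => ‖DD A u (1, 0) z‖ ^ 2) = (fun w : ℂ => ‖w‖ ^ 2) ∘ (DD A u (1, 0)) := rfl
    rw [h1]
    exact (hDsupp (1, 0)).comp_left (by simp)
  have hDi : Integrable (fun z : ℝ × ℝ => ‖DD A u (1, 0) z‖ ^ 2) := hDc.integrable_of_hasCompactSupport hDs
  -- the excess along the curve
  have hcos : ∀ s, 0 ≤ Real.cos (θ s) := fun s => by have := g1 s; linarith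
  have hYc : Continuous (fun s => Real.cos (θ s) * YY A u α (X s) (Y s)) :=
    (Real.continuous_cos.comp hG.cont).mul (yc1.comp (g6.prodMk g7))
  have hY0 : ∀ s, 0 ≤ Real.cos (θ s) * YY A u α (X s) (Y s) := fun s => mul_nonneg (hcos s) (yc2 _ _)
  have hYi : IntegrableOn (fun s => Real.cos (θ s) * YY A u α (X s) (Y s)) (Iic S) := by
    set m := min a (-(|R'| + 1)) with hm
    have h1 : Iic S = Iio m ∪ Icc m S := by
      ext s
      simp only [mem_Iic, mem_union, mem_Iio, mem_Icc]
      have : m ≤ S := (min_le_left _ _).trans (by linarith)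
      constructor
      · intro h
        rcases lt_or_ge s m with h2 | h2
        · exact Or.inl h2
        · exact Or.inr ⟨h2, h⟩
      · rintro (h | h)
        · linarith
        · exact h.2
    rw [h1, integrableOn_union]
    refine ⟨?_, (hYc.continuousOn).integrableOn_compact isCompact_Icc⟩
    have h2 : IntegrableOn (fun _ : ℝ => (0 : ℝ)) (Iio m) := integrableOn_zero
    refine h2.congr_fun ?_ measurableSet_Iio
    intro s hs
    have hsa : s ≤ a := (le_of_lt hs).trans (min_le_left _ _)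
    have hs2 : s < -(|R'| + 1) := lt_of_lt_of_le hs (min_le_right _ _)
    have h3 : X s = s := hG.X0 s hsa
    have h4 : R' < |X s| := by
      rw [h3]
      have h5 := neg_le_abs s
      have h6 := le_abs_self R'
      linarith
    simp only
    rw [yc3 _ _ h4, mul_zero]
  set K := ∫ z in Icc x1 x2 ×ˢ Icc y1 y2, ‖u z‖ ^ 2 with hK
  have hK0 : 0 ≤ K := integral_nonneg fun z => by positivity
  set D := ∫ z in {z : ℝ × ℝ | z.1 < X S}, ‖DD A u (1, 0) z‖ ^ 2 with hD
  have hD0 : 0 ≤ D := integral_nonneg fun z => by positivity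
  set V := ∫ s in Iic S, Real.cos (θ s) * YY A u α (X s) (Y s) with hVdef
  have hV0 : 0 ≤ V := integral_nonneg hY0
  have hE1 : E1 A u α θ X Y S = D + V := rfl
  -- the box
  have hbox : (∫ z in Icc (X a) (X S) ×ˢ Icc y1 y2, ‖u z‖ ^ 2) ≤ 2 * W / (x2 - x1) * K + 2 * W ^ 2 * D := by
    have h1 := hSPB A u hu lo x1 x2 (X S) y1 y2 hlox hx12 hx2X hy12.le
    have h2 : (∫ z in Icc (X a) (X S) ×ˢ Icc y1 y2, ‖u z‖ ^ 2) ≤
        ∫ z in Icc lo (X S) ×ˢ Icc y1 y2, ‖u z‖ ^ 2 := by
      apply setIntegral_mono_set hu2i.integrableOn (Eventually.of_forall fun z => by positivity)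
      apply LE.le.eventuallyLE
      intro z hz
      rw [mem_prod] at hz ⊢
      rw [hXa] at hz
      exact ⟨⟨hloa.trans hz.1.1, hz.1.2⟩, hz.2⟩
    have h3 : (∫ z in Icc lo (X S) ×ˢ Icc y1 y2, ‖DD A u (1, 0) z‖ ^ 2) ≤ D := by
      apply setIntegral_mono_set hDi.integrableOn (Eventually.of_forall fun z => by positivity)
      filter_upwards [ae_fst_ne (X S)] with z hz hz2
      exact lt_of_le_of_ne hz2.1.2 hz
    have hw1 : X S - lo ≤ W := by rw [hW]; linarith
    have hw0 : 0 ≤ X S - lo := by linarith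
    have h4 : 2 * (X S - lo) / (x2 - x1) * K ≤ 2 * W / (x2 - x1) * K := by gcongr
    have h5 : 2 * (X S - lo) ^ 2 * (∫ z in Icc lo (X S) ×ˢ Icc y1 y2, ‖DD A u (1, 0) z‖ ^ 2) ≤ 2 * W ^ 2 * D := by
      have h6 : 0 ≤ ∫ z in Icc lo (X S) ×ˢ Icc y1 y2, ‖DD A u (1, 0) z‖ ^ 2 :=
        integral_nonneg fun z => by positivity
      gcongr
    linarith
  have hcv := cv2 a S y1 y2 (fun z => ‖u z‖ ^ 2) hu2c (by linarith) hy12.le
  rw [hcv] at hbox
  -- the vertical estimate
  have hvert : ∀ s ∈ Icc a S, ∀ y ∈ Icc (-R) R, ‖u (X s, y)‖ ^ 2 ≤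
      C1 * ((∫ t in y1..y2, ‖u (X s, t)‖ ^ 2) + YY A u α (X s) (Y s)) := by
    intro s hs y hy
    obtain ⟨l1, l2⟩ := vline hLIN hu (X s)
    have hYs : Y s ∈ Icc (-R) R := by
      have h1 := g9 s hs.1
      have h2 : δ * (s - a) ≤ R := by
        have h3 := hG.small
        have h4 := hG.pos
        have h5 : s - a ≤ R := by linarith [hs.2]
        nlinarith [hs.1]
      rw [mem_Icc]
      exact abs_le.1 (h1.trans h2)
    exact hV _ _ _ l1 l2 (Y s) hYs y hy
  set G : ℝ → ℝ := fun s => ∫ t in y1..y2, ‖u (X s, t)‖ ^ 2 with hGdef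
  have hGc : Continuous G := by
    apply intervalIntegral.continuous_parametric_intervalIntegral_of_continuous'
    exact hu2c.comp ((g6.comp continuous_fst).prodMk continuous_snd)
  have hcG : Continuous (fun s => Real.cos (θ s) * G s) := (Real.continuous_cos.comp hG.cont).mul hGc
  have haS' : a ≤ S := by linarith
  have hVle : (∫ s in a..S, Real.cos (θ s) * YY A u α (X s) (Y s)) ≤ V := by
    rw [intervalIntegral.integral_of_le haS']
    apply setIntegral_mono_set hYi (Eventually.of_forall fun s => hY0 s)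
    exact LE.le.eventuallyLE Ioc_subset_Iic_self
  have hsum : (∫ s in a..S, Real.cos (θ s) * G s) + (∫ s in a..S, Real.cos (θ s) * YY A u α (X s) (Y s)) ≤
      M * (K + E1 A u α θ X Y S) := by
    rw [hE1]
    have h1 : 0 ≤ 2 * W / (x2 - x1) := by positivity
    have h2 : 0 ≤ 2 * W ^ 2 := by positivity
    calc _ ≤ (2 * W / (x2 - x1) * K + 2 * W ^ 2 * D) + V := add_le_add hbox hVle
      _ ≤ _ := by
        rw [hM]
        have h3 : 0 ≤ 2 * W / (x2 - x1) * (D + V) := by positivity
        have h4 : 0 ≤ 2 * W ^ 2 * (K + V) := by positivity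
        nlinarith
  have hsum2 : (∫ s in a..S, Real.cos (θ s) * (G s + YY A u α (X s) (Y s))) ≤ M * (K + E1 A u α θ X Y S) := by
    rw [← intervalIntegral.integral_add (hcG.intervalIntegrable _ _) (hYc.intervalIntegrable _ _)] at hsum
    refine le_trans (le_of_eq ?_) hsum
    congr 1
    funext s
    ring
  have hGYc : Continuous (fun s => Real.cos (θ s) * (G s + YY A u α (X s) (Y s))) := by
    have := hcG.add hYc
    refine this.congr fun s => ?_
    rw [mul_add]
    rfl
  have hKE : 0 ≤ K + E1 A u α θ X Y S := by rw [hE1]; linarith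
  constructor
  · have h1 : (∫ s in a..S, ‖u (X s, Y s)‖ ^ 2) ≤
        ∫ s in a..S, 2 * C1 * (Real.cos (θ s) * (G s + YY A u α (X s) (Y s))) := by
      apply intervalIntegral.integral_mono_on haS'
      · exact (hu2c.comp (g6.prodMk g7)).intervalIntegrable _ _
      · exact (hGYc.const_mul _).intervalIntegrable _ _
      · intro s hs
        have hYs : Y s ∈ Icc (-R) R := by
          have h1 := g9 s hs.1
          have h2 : δ * (s - a) ≤ R := by
            have h3 := hG.small
            have h4 := hG.pos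
            have h5 : s - a ≤ R := by linarith [hs.2]
            nlinarith [hs.1]
          rw [mem_Icc]
          exact abs_le.1 (h1.trans h2)
        have h2 := hvert s hs (Y s) hYs
        have h3 : 0 ≤ G s + YY A u α (X s) (Y s) :=
          add_nonneg (intervalIntegral.integral_nonneg hy12.le fun t _ => by positivity) (yc2 _ _)
        have h4 := g1 s
        refine h2.trans ?_
        have h5 : 0 ≤ C1 * (G s + YY A u α (X s) (Y s)) := mul_nonneg hC1.le h3
        show C1 * (G s + YY A u α (X s) (Y s)) ≤ _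
        nlinarith
    rw [intervalIntegral.integral_const_mul] at h1
    calc _ ≤ _ := h1
      _ ≤ 2 * C1 * (M * (K + E1 A u α θ X Y S)) := by gcongr
      _ ≤ 2 * C1 * (1 + R) * M * (K + E1 A u α θ X Y S) := by
        have h2 : 0 ≤ 2 * C1 * R * (M * (K + E1 A u α θ X Y S)) := by positivity
        nlinarith
  · have h1 : (∫ z in Icc (X S - 1) (X S) ×ˢ Icc (-R) R, ‖u z‖ ^ 2) ≤
        ∫ z in Icc (X a) (X S) ×ˢ Icc (-R) R, ‖u z‖ ^ 2 := by
      apply setIntegral_mono_set hu2i.integrableOn (Eventually.of_forall fun z => by positivity)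
      apply LE.le.eventuallyLE
      intro z hz
      rw [mem_prod] at hz ⊢
      refine ⟨⟨?_, hz.1.2⟩, hz.2⟩
      rw [hXa]
      have := hz.1.1
      linarith
    have h2 := cv2 a S (-R) R (fun z => ‖u z‖ ^ 2) hu2c haS' (by linarith)
    rw [h2] at h1
    have h3 : (∫ s in a..S, Real.cos (θ s) * ∫ y in (-R)..R, ‖u (X s, y)‖ ^ 2) ≤
        ∫ s in a..S, 2 * R * C1 * (Real.cos (θ s) * (G s + YY A u α (X s) (Y s))) := by
      apply intervalIntegral.integral_mono_on haS'
      · have hc : Continuous (fun s => ∫ y in (-R)..R, ‖u (X s, y)‖ ^ 2) := by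
          apply intervalIntegral.continuous_parametric_intervalIntegral_of_continuous'
          exact hu2c.comp ((g6.comp continuous_fst).prodMk continuous_snd)
        exact ((Real.continuous_cos.comp hG.cont).mul hc).intervalIntegrable _ _
      · exact (hGYc.const_mul _).intervalIntegrable _ _
      · intro s hs
        have h4 : (∫ y in (-R)..R, ‖u (X s, y)‖ ^ 2) ≤ ∫ _y in (-R)..R, C1 * (G s + YY A u α (X s) (Y s)) := by
          apply intervalIntegral.integral_mono_on (by linarith)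
          · exact (hu2c.comp (continuous_const.prodMk continuous_id)).intervalIntegrable _ _
          · exact intervalIntegrable_const
          · intro y hy
            exact hvert s hs y hy
        rw [intervalIntegral.integral_const, smul_eq_mul] at h4
        have h5 := mul_le_mul_of_nonneg_left h4 (hcos s)
        refine h5.trans (le_of_eq ?_)
        ring
    rw [intervalIntegral.integral_const_mul] at h3
    calc _ ≤ _ := h1
      _ ≤ _ := h3
      _ ≤ 2 * R * C1 * (M * (K + E1 A u α θ X Y S)) := by gcongr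
      _ ≤ 2 * C1 * (1 + R) * M * (K + E1 A u α θ X Y S) := by
        have h2 : 0 ≤ 2 * C1 * (M * (K + E1 A u α θ X Y S)) := by positivity
        nlinarith

end

end Pool.Agent.T2H04.LC
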