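import Pool.Agent.T2H04.LC.Stm
import Pool.Agent.T2H04.LC.CO

/-!
# Package CORE: the quantitative core
-/

open MeasureTheory Set Filter Topology

namespace Pool.Agent.T2H04.LC

noncomputable section

namespace PkgCORE

theorem QQ_int {A : ℝ × ℝ → ℝ × ℝ} {u : ℝ × ℝ → ℂ} (hu : Adm A u) (α : ℝ) :
    Integrable fun z => QQ A u α z := by
  have h1 := PkgCO.sq_int hu (1, 0)
  have h2 := PkgCO.sq_int hu (0, 1)
  have h3 : Integrable fun z => ‖u z‖ ^ 2 := by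
    apply Continuous.integrable_of_hasCompactSupport
    · exact (hu.smooth.continuous.norm).pow 2
    · refine hu.supp.norm.comp_left (g := fun t : ℝ => t ^ 2) ?_
      norm_num
  exact (h1.add h2).add (h3.const_mul (α ^ 2 / 4))

theorem comp_supp {X Y : ℝ → ℝ} {u : ℝ × ℝ → ℂ} (hmono : StrictMono X)
    (hsurj : Function.Surjective X) (hu : HasCompactSupport u) :
    HasCompactSupport fun s => ‖u (X s, Y s)‖ ^ 2 := by
  obtain ⟨R, hR⟩ := hu.isCompact.isBounded.subset_closedBall ((0 : ℝ), (0 : ℝ))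
  obtain ⟨s1, hs1⟩ := hsurj (-R)
  obtain ⟨s2, hs2⟩ := hsurj R
  refine HasCompactSupport.of_support_subset_isCompact (isCompact_Icc (a := s1) (b := s2))
    fun s hs => ?_
  have h1 : u (X s, Y s) ≠ 0 := by
    intro h
    apply hs
    simp [h]
  have h2 := hR (subset_tsupport _ h1)
  rw [Metric.mem_closedBall, Prod.dist_eq, max_le_iff] at h2
  have h3 := h2.1
  simp only [Real.dist_eq, sub_zero] at h3
  obtain ⟨h4, h5⟩ := abs_le.1 h3
  constructor
  · apply hmono.le_iff_le.1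
    rw [hs1]
    exact h4
  · apply hmono.le_iff_le.1
    rw [hs2]
    exact h5

end PkgCORE

open PkgCORE in
theorem pCORE (hSLI : S_SLI) (hR1 : S_R1) (hR2 : S_R2) (hTI : S_TI) (hCO : S_CO) (hGEO : S_GEO2)
    (hYYC : S_YYC) (_hLIN : S_LIN) : S_CORE := by
  intro α A x1 x2 y1 y2 l1 l2 c hα hHol hor a b hab
  obtain ⟨ℓ, C, hℓ, hC, hsli⟩ := hSLI α hα
  obtain ⟨S, δ1, C0, hbS, hδ1, hC0, hco⟩ := hCO α A x1 x2 y1 y2 l1 l2 c hα hHol hor a b ℓ hab hℓ
  obtain ⟨C1, hC1, hti⟩ := hTI α ℓ hα hℓ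
  obtain ⟨M, hMdef⟩ : ∃ M : ℝ, M = α * C0 / 2 + C * C1 * C0 + C * C1 := ⟨_, rfl⟩
  have hM : 0 < M := by rw [hMdef]; positivity
  obtain ⟨δ0, hδ0def⟩ : ∃ δ0 : ℝ, δ0 = min (min δ1 (1 / 2)) (1 / M) := ⟨_, rfl⟩
  have hδ0 : 0 < δ0 := by
    rw [hδ0def]
    exact lt_min (lt_min hδ1 (by norm_num)) (by positivity)
  have hd1 : δ0 ≤ δ1 := by
    rw [hδ0def]
    exact (min_le_left _ _).trans (min_le_left _ _)
  have hd2 : δ0 ≤ 1 / 2 := by
    rw [hδ0def]
    exact (min_le_left _ _).trans (min_le_right _ _)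
  have hd3 : δ0 * M ≤ 1 := by
    have : δ0 ≤ 1 / M := by
      rw [hδ0def]
      exact min_le_right _ _
    rwa [le_div_iff₀ hM] at this
  refine ⟨δ0, hδ0, hd2, ?_⟩
  intro θ X Y hG u hu
  obtain ⟨hcos, hcos2, -, hmono, hsurj, hXc, hYc, -⟩ := hGEO a b δ0 θ X Y hG
  obtain ⟨-, hYY, -⟩ := hYYC α A u hu
  have hE0 : 0 ≤ E1 A u α θ X Y S := PkgCO.E1_nonneg hcos hYY S
  obtain ⟨φ, hφ⟩ : ∃ φ : ℝ → ℝ, ∀ s, φ s = ‖u (X s, Y s)‖ ^ 2 := ⟨_, fun _ => rfl⟩
  have hφ' : (fun s => ‖u (X s, Y s)‖ ^ 2) = φ := (funext hφ).symm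
  have hφc : Continuous φ := by
    rw [← hφ']
    exact ((hu.smooth.continuous.comp (hXc.prodMk hYc)).norm).pow 2
  have hφi : Integrable φ := by
    apply hφc.integrable_of_hasCompactSupport
    rw [← hφ']
    exact comp_supp hmono hsurj hu.supp
  have hφ0 : ∀ s, 0 ≤ φ s := fun s => by rw [hφ]; positivity
  obtain ⟨hco1, hco2⟩ := hco δ0 θ X Y hG hd1 u hu
  have hr1 := hR1 α a b δ0 θ X Y hG A u hu S
  obtain ⟨σ, hσ1, hσ2, hr2⟩ := hR2 α ℓ C hα hℓ hC hsli a b δ0 θ X Y hG A u hu S hbS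
  have ht := hti a b δ0 θ X Y hG A u hu S hbS σ hσ1 hσ2
  simp only [← hφ] at hco1 hr1 hr2 ⊢
  -- splitting of the two integrals
  have s1 : (∫ z, QQ A u α z) = (∫ z in {z : ℝ × ℝ | z.1 < X S}, QQ A u α z) +
      ∫ z in {z : ℝ × ℝ | X S < z.1}, QQ A u α z := by
    have hm : MeasurableSet {z : ℝ × ℝ | z.1 ≤ X S} :=
      measurableSet_le measurable_fst measurable_const
    have hcompl : {z : ℝ × ℝ | z.1 ≤ X S}ᶜ = {z : ℝ × ℝ | X S < z.1} := by
      ext z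
      simp only [mem_compl_iff, mem_ofPred_eq, not_le]
    rw [← integral_add_compl hm (QQ_int hu α), PkgCO.int_line, hcompl]
  have s2 : (∫ s, φ s) = (∫ s in Iic S, φ s) + ∫ s in Ioi S, φ s := by
    rw [← integral_add_compl measurableSet_Iic hφi, compl_Iic]
  -- the error of the left part
  have hθc := hG.cont
  have hci : Integrable fun s => Real.cos (θ s) * φ s := by
    refine hφi.mono ((by fun_prop : Continuous fun s => Real.cos (θ s) * φ s).aestronglyMeasurable)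
      (Filter.Eventually.of_forall fun s => ?_)
    rw [norm_mul]
    refine mul_le_of_le_one_left (norm_nonneg _) ?_
    rw [Real.norm_eq_abs]
    exact Real.abs_cos_le_one _
  have s3 : (∫ s in Iic S, φ s) - (∫ s in Iic S, Real.cos (θ s) * φ s) ≤
      δ0 ^ 2 / 2 * ∫ s in a..S, φ s := by
    rw [← integral_sub hφi.integrableOn hci.integrableOn]
    have haS : a ≤ S := by linarith
    have hsub : Integrable fun s => φ s - Real.cos (θ s) * φ s := hφi.sub hci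
    have h1 : (∫ s in Iic S, (φ s - Real.cos (θ s) * φ s)) =
        (∫ s in Iic a, (φ s - Real.cos (θ s) * φ s)) +
          ∫ s in Ioc a S, (φ s - Real.cos (θ s) * φ s) := by
      rw [← setIntegral_union (Set.Iic_disjoint_Ioc le_rfl) measurableSet_Ioc
        hsub.integrableOn hsub.integrableOn, Iic_union_Ioc_eq_Iic haS]
    have h2 : (∫ s in Iic a, (φ s - Real.cos (θ s) * φ s)) = 0 := by
      refine setIntegral_eq_zero_of_forall_eq_zero fun s hs => ?_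
      rw [hG.left s hs, Real.cos_zero]
      ring
    rw [h1, h2, zero_add, intervalIntegral.integral_of_le haS, ← integral_const_mul]
    refine setIntegral_mono hsub.integrableOn (hφi.const_mul _).integrableOn fun s => ?_
    have := hcos2 s
    have h3 := hφ0 s
    have h4 : φ s - Real.cos (θ s) * φ s = (1 - Real.cos (θ s)) * φ s := by ring
    show φ s - Real.cos (θ s) * φ s ≤ δ0 ^ 2 / 2 * φ s
    rw [h4]
    exact mul_le_mul_of_nonneg_right this h3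
  -- abbreviations
  obtain ⟨e1, he1⟩ : ∃ e, e = E1 A u α θ X Y S := ⟨_, rfl⟩
  obtain ⟨e2, he2⟩ : ∃ e, e = ∫ z in {z : ℝ × ℝ | X S < z.1}, ‖DD A u (TT (θ b)) z‖ ^ 2 := ⟨_, rfl⟩
  have he20 : 0 ≤ e2 := by
    rw [he2]
    exact integral_nonneg fun z => by positivity
  obtain ⟨J, hJ⟩ : ∃ J, J = ∫ s in Ioi (0 : ℝ), Real.exp (-(α * (s / (2 * δ0)))) *
            ∫ t in (-ℓ)..0, ‖u ((X S, Y S) + s • TT (θ b) + t • (σ • NN (θ b)))‖ ^ 2 := ⟨_, rfl⟩
  obtain ⟨V, hV⟩ : ∃ V, V = ∫ y in (Y S - 2 * ℓ)..(Y S + 2 * ℓ), ‖u (X S, y)‖ ^ 2 := ⟨_, rfl⟩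
  obtain ⟨W, hW⟩ : ∃ W, W = ∫ s in a..S, φ s := ⟨_, rfl⟩
  rw [← he1] at hE0 hco1 hco2 hr1
  rw [← he2, ← hJ] at hr2 ht
  rw [← hV] at hco2 ht
  rw [← hW] at hco1 s3
  rw [s1, s2, hr1]
  -- final arithmetic
  have f1 : C * J ≤ C * (C1 * δ0 * (C0 * e1 + e2)) := by
    refine mul_le_mul_of_nonneg_left (ht.trans ?_) hC.le
    refine mul_le_mul_of_nonneg_left ?_ (by positivity)
    linarith
  have f2 : α * (δ0 ^ 2 / 2 * W) ≤ α * (δ0 / 2 * (C0 * e1)) := by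
    refine mul_le_mul_of_nonneg_left ?_ hα.le
    have h1 : δ0 ^ 2 / 2 ≤ δ0 / 2 := by nlinarith
    calc δ0 ^ 2 / 2 * W ≤ δ0 ^ 2 / 2 * (C0 * e1) :=
          mul_le_mul_of_nonneg_left hco1 (by positivity)
      _ ≤ δ0 / 2 * (C0 * e1) := mul_le_mul_of_nonneg_right h1 (by positivity)
  have f3 : α * (δ0 / 2 * (C0 * e1)) + C * (C1 * δ0 * (C0 * e1 + e2)) ≤ e1 + e2 := by
    have h1 : δ0 * (α * C0 / 2 + C * C1 * C0) ≤ 1 := by
      refine le_trans ?_ hd3
      refine mul_le_mul_of_nonneg_left ?_ hδ0.le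
      rw [hMdef]
      have : 0 ≤ C * C1 := by positivity
      linarith
    have h2 : δ0 * (C * C1) ≤ 1 := by
      refine le_trans ?_ hd3
      refine mul_le_mul_of_nonneg_left ?_ hδ0.le
      rw [hMdef]
      have : 0 ≤ α * C0 / 2 + C * C1 * C0 := by positivity
      linarith
    have h3 := mul_le_mul_of_nonneg_right h1 hE0
    have h4 := mul_le_mul_of_nonneg_right h2 he20
    calc _ = δ0 * (α * C0 / 2 + C * C1 * C0) * e1 + δ0 * (C * C1) * e2 := by ring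
      _ ≤ 1 * e1 + 1 * e2 := add_le_add h3 h4
      _ = e1 + e2 := by ring
  have f4 : α * ((∫ s in Iic S, φ s) - (∫ s in Iic S, Real.cos (θ s) * φ s)) ≤
      α * (δ0 ^ 2 / 2 * W) := mul_le_mul_of_nonneg_left s3 hα.le
  rw [mul_sub] at f4
  rw [mul_add]
  linarith

end

end Pool.Agent.T2H04.LC
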