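import Pool.Agent.T2H04.LC.Stm

/-!
# Package CV: change of variables `x = X s`
-/

open MeasureTheory Set Filter Topology

namespace Pool.Agent.T2H04.LC

noncomputable section

namespace PkgCV

theorem subst {a b δ : ℝ} {θ X Y : ℝ → ℝ} (hG : Geo a b δ θ X Y) (hmono : StrictMono X)
    (hcos : ∀ s, 1 / 2 ≤ Real.cos (θ s)) (s : Set ℝ) (hs : MeasurableSet s) (g : ℝ → ℝ) :
    ∫ x in X '' s, g x = ∫ t in s, Real.cos (θ t) * g (X t) := by
  rw [integral_image_eq_integral_abs_deriv_smul hs (fun x _ => (hG.dX x).hasDerivWithinAt)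
    hmono.injective.injOn]
  refine setIntegral_congr_fun hs fun t _ => ?_
  have h1 : |Real.cos (θ t)| = Real.cos (θ t) := abs_of_nonneg (by linarith [hcos t])
  simp only [h1, smul_eq_mul]

end PkgCV

open PkgCV in
theorem pCV (hGEO : S_GEO2) : S_CV := by
  intro a b δ θ X Y hG
  obtain ⟨hcos, -, -, hmono, hsurj, -⟩ := hGEO a b δ θ X Y hG
  constructor
  · intro S F hF hF2
    have h1 : {z : ℝ × ℝ | z.1 < X S} = Iio (X S) ×ˢ (univ : Set ℝ) := by
      ext z
      simp
    have hint : Integrable F := hF.integrable_of_hasCompactSupport hF2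
    have h2 : X '' Iic S = Iic (X S) := by
      ext x
      constructor
      · rintro ⟨t, ht, rfl⟩
        exact hmono.monotone ht
      · intro hx
        obtain ⟨t, rfl⟩ := hsurj x
        exact ⟨t, hmono.le_iff_le.1 hx, rfl⟩
    rw [h1, Measure.volume_eq_prod, setIntegral_prod _ hint.integrableOn,
      ← integral_Iic_eq_integral_Iio, ← h2, subst hG hmono hcos _ measurableSet_Iic]
    simp
  · intro S' S y1 y2 F hF hS hy
    have h2 : X '' Icc S' S = Icc (X S') (X S) := by
      ext x
      constructor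
      · rintro ⟨t, ht, rfl⟩
        exact ⟨hmono.monotone ht.1, hmono.monotone ht.2⟩
      · intro hx
        obtain ⟨t, rfl⟩ := hsurj x
        exact ⟨t, ⟨hmono.le_iff_le.1 hx.1, hmono.le_iff_le.1 hx.2⟩, rfl⟩
    have hint : IntegrableOn F (Icc (X S') (X S) ×ˢ Icc y1 y2) :=
      hF.continuousOn.integrableOn_compact (isCompact_Icc.prod isCompact_Icc)
    rw [Measure.volume_eq_prod] at hint
    rw [Measure.volume_eq_prod, setIntegral_prod _ hint, ← h2,
      subst hG hmono hcos _ measurableSet_Icc, integral_Icc_eq_integral_Ioc,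
      intervalIntegral.integral_of_le hS]
    refine setIntegral_congr_fun measurableSet_Ioc fun t _ => ?_
    rw [integral_Icc_eq_integral_Ioc, intervalIntegral.integral_of_le hy]

end

end Pool.Agent.T2H04.LC
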