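import Pool.Agent.T2H04.LC.Stm

/-!
# Package GE: the geometry of the curve
-/

open MeasureTheory Set Filter Topology

namespace Pool.Agent.T2H04.LC

noncomputable section

namespace PkgGE

theorem intOn {f : ℝ → ℝ} {a : ℝ} (hf : Continuous f) (h0 : ∀ r ≤ a, f r = 0) (s : ℝ) :
    IntegrableOn f (Iic s) := by
  have h1 : IntegrableOn f (Iic a) := by
    have : IntegrableOn (fun _ : ℝ => (0 : ℝ)) (Iic a) := integrableOn_zero
    exact this.congr_fun (fun r hr => (h0 r hr).symm) measurableSet_Iic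
  have h2 : IntegrableOn f (Icc a s) := hf.continuousOn.integrableOn_Icc
  refine (h1.union h2).mono_set fun r hr => ?_
  rcases le_total r a with h | h
  · exact Or.inl h
  · exact Or.inr ⟨h, hr⟩

theorem eq_int {f : ℝ → ℝ} {a : ℝ} (hf : Continuous f) (h0 : ∀ r ≤ a, f r = 0) (s : ℝ) :
    ∫ r in Iic s, f r = ∫ r in a..s, f r := by
  have h1 := intervalIntegral.integral_Iic_sub_Iic (intOn hf h0 a) (intOn hf h0 s)
  have h2 : ∫ r in Iic a, f r = 0 := setIntegral_eq_zero_of_forall_eq_zero fun r hr => h0 r hr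
  rw [h2, sub_zero] at h1
  exact h1

theorem der {f : ℝ → ℝ} {a : ℝ} (hf : Continuous f) (h0 : ∀ r ≤ a, f r = 0) (s : ℝ) :
    HasDerivAt (fun s => ∫ r in Iic s, f r) (f s) s := by
  have : (fun s => ∫ r in Iic s, f r) = fun s => ∫ r in a..s, f r := by
    funext s
    exact eq_int hf h0 s
  rw [this]
  exact (hf.integral_hasStrictDerivAt a s).hasDerivAt

theorem zero_of_le {f : ℝ → ℝ} {a : ℝ} (h0 : ∀ r ≤ a, f r = 0) {s : ℝ} (hs : s ≤ a) :
    ∫ r in Iic s, f r = 0 :=
  setIntegral_eq_zero_of_forall_eq_zero fun r hr => h0 r (le_trans hr hs)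

end PkgGE

open PkgGE in
theorem pGE : S_GE := by
  intro γ hγ hγ2
  obtain ⟨R, hR⟩ : ∃ R : ℝ, ∀ r, R < |r| → γ r = 0 := by
    obtain ⟨R, hR⟩ := hγ2.isCompact.isBounded.subset_closedBall (0 : ℝ)
    refine ⟨R, fun r hr => ?_⟩
    by_contra hc
    have h1 : r ∈ tsupport γ := subset_tsupport _ hc
    have h2 := hR h1
    rw [Metric.mem_closedBall, Real.dist_eq, sub_zero] at h2
    linarith
  have hint : Integrable γ := hγ.integrable_of_hasCompactSupport hγ2
  have hM : 0 ≤ ∫ r, |γ r| := integral_nonneg fun r => abs_nonneg _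
  refine ⟨-(|R| + 1), |R| + 1, 1 + ∫ r, |γ r|, by linarith, ?_⟩
  intro ε δ h1 h2 h3
  have hR' := le_abs_self R
  have hR0 := abs_nonneg R
  have hl : ∀ r ≤ -(|R| + 1), γ r = 0 := by
    intro r hr
    apply hR
    have := neg_le_abs r
    linarith
  have hr : ∀ r, |R| + 1 ≤ r → γ r = 0 := by
    intro r hr
    apply hR
    have := le_abs_self r
    linarith
  have hang : ∀ s, HasDerivAt (ang γ ε) (ε * γ s) s := fun s => (der hγ hl s).const_mul ε
  have hcont : Continuous (ang γ ε) := continuous_iff_continuousAt.2 fun s => (hang s).continuousAt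
  have hleft : ∀ s ≤ -(|R| + 1), ang γ ε s = 0 := by
    intro s hs
    unfold ang
    rw [zero_of_le hl hs, mul_zero]
  have hc1 : Continuous fun r => Real.cos (ang γ ε r) - 1 := by fun_prop
  have hc2 : Continuous fun r => Real.sin (ang γ ε r) := by fun_prop
  have h01 : ∀ r ≤ -(|R| + 1), Real.cos (ang γ ε r) - 1 = 0 := by
    intro r hr
    rw [hleft r hr, Real.cos_zero, sub_self]
  have h02 : ∀ r ≤ -(|R| + 1), Real.sin (ang γ ε r) = 0 := by
    intro r hr
    rw [hleft r hr, Real.sin_zero]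
  refine ⟨by linarith, h2, h3, ?_, hcont, hleft, ?_, ?_, ?_, ?_, ?_⟩
  · intro s
    refine le_trans ?_ h1
    unfold ang
    rw [abs_mul]
    refine mul_le_mul_of_nonneg_left ?_ (abs_nonneg _)
    have h4 : |∫ r in Iic s, γ r| ≤ ∫ r in Iic s, |γ r| := abs_integral_le_integral_abs
    have h5 : ∫ r in Iic s, |γ r| ≤ ∫ r, |γ r| :=
      setIntegral_le_integral hint.abs (Filter.Eventually.of_forall fun r => abs_nonneg _)
    linarith
  · intro s hs
    unfold ang
    rw [eq_int hγ hl, eq_int hγ hl, ← intervalIntegral.integral_add_adjacent_intervals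
      (hγ.intervalIntegrable (-(|R| + 1)) (|R| + 1)) (hγ.intervalIntegrable (|R| + 1) s)]
    have h4 : ∫ r in (|R| + 1)..s, γ r = 0 := by
      rw [intervalIntegral.integral_congr (g := fun _ => (0 : ℝ))]
      · simp
      · intro r hr'
        rw [uIcc_of_le hs] at hr'
        exact hr r hr'.1
    rw [h4, add_zero]
  · intro s
    have h4 := (hasDerivAt_id s).add (der hc1 h01 s)
    have h5 : (1 : ℝ) + (Real.cos (ang γ ε s) - 1) = Real.cos (ang γ ε s) := by ring
    rw [h5] at h4
    exact h4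
  · intro s
    exact der hc2 h02 s
  · intro s hs
    show s + ∫ r in Iic s, (Real.cos (ang γ ε r) - 1) = s
    rw [zero_of_le h01 hs, add_zero]
  · intro s hs
    show ∫ r in Iic s, Real.sin (ang γ ε r) = 0
    exact zero_of_le h02 hs

end

end Pool.Agent.T2H04.LC
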