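import Pool.Agent.T2H04.LC.Stm

/-! # Package GEO2: elementary facts on the curve -/

open MeasureTheory Set Filter Topology

namespace Pool.Agent.T2H04.LC

namespace GEO2

theorem mvt {f f' : ℝ → ℝ} {C s t : ℝ} (hst : s ≤ t) (hf : ∀ x, HasDerivAt f (f' x) x)
    (hb : ∀ x, s ≤ x → x ≤ t → |f' x| ≤ C) : |f t - f s| ≤ C * (t - s) := by
  have h := norm_image_sub_le_of_norm_deriv_le_segment' (f := f) (f' := f') (a := s) (b := t) (C := C)
    (fun x _ => (hf x).hasDerivWithinAt) (fun x hx => by
      rw [Real.norm_eq_abs]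
      exact hb x hx.1 hx.2.le) t ⟨hst, le_refl t⟩
  rwa [Real.norm_eq_abs] at h

theorem mono {f f' : ℝ → ℝ} (hf : ∀ x, HasDerivAt f (f' x) x) (hb : ∀ x, 0 ≤ f' x) : Monotone f := by
  refine monotone_of_deriv_nonneg (fun x => (hf x).differentiableAt) fun x => ?_
  rw [(hf x).deriv]
  exact hb x

end GEO2

open GEO2

theorem pGEO2 : S_GEO2 := by
  intro a b δ θ X Y G
  have hpos := G.pos
  have hsm := G.small
  have hsq : ∀ s, θ s ^ 2 ≤ δ ^ 2 := fun s => by
    rw [← sq_abs]
    exact pow_le_pow_left₀ (abs_nonneg _) (G.bd s) 2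
  have h2 : ∀ s, 1 - Real.cos (θ s) ≤ δ ^ 2 / 2 := by
    intro s
    have h := Real.one_sub_sq_div_two_le_cos (x := θ s)
    have := hsq s
    linarith
  have h1 : ∀ s, 1 / 2 ≤ Real.cos (θ s) := by
    intro s
    have h := h2 s
    nlinarith
  have h3 : ∀ s, |Real.sin (θ s)| ≤ 2 * δ * Real.cos (θ s) := by
    intro s
    have h4 : |Real.sin (θ s)| ≤ |θ s| := Real.abs_sin_le_abs
    have h5 := G.bd s
    have h6 := h1 s
    nlinarith
  have hs : ∀ s, |Real.sin (θ s)| ≤ δ := fun s => Real.abs_sin_le_abs.trans (G.bd s)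
  have h8 : ∀ s t, s ≤ t → (t - s) / 2 ≤ X t - X s ∧ X t - X s ≤ t - s := by
    intro s t hst
    have m1 : Monotone (fun t => X t - t / 2) := by
      refine mono (f' := fun x => Real.cos (θ x) - 1 / 2) ?_ ?_
      · intro x
        exact (G.dX x).sub ((hasDerivAt_id x).div_const 2)
      · intro x
        have := h1 x
        linarith
    have m2 : Monotone (fun t => t - X t) := by
      refine mono (f' := fun x => 1 - Real.cos (θ x)) ?_ ?_
      · intro x
        exact (hasDerivAt_id x).sub (G.dX x)
      · intro x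
        have := Real.cos_le_one (θ x)
        linarith
    have e1 := m1 hst
    have e2 := m2 hst
    simp only at e1 e2
    constructor <;> linarith
  have hXc : Continuous X := continuous_iff_continuousAt.2 fun s => (G.dX s).continuousAt
  have hYc : Continuous Y := continuous_iff_continuousAt.2 fun s => (G.dY s).continuousAt
  refine ⟨h1, h2, h3, ?_, ?_, hXc, hYc, h8, ?_, ?_⟩
  · intro s t hst
    have := (h8 s t hst.le).1
    linarith
  · refine hXc.surjective ?_ ?_
    · have h9 : ∀ᶠ t in atTop, X 0 + t / 2 ≤ X t := by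
        filter_upwards [eventually_ge_atTop (0 : ℝ)] with t ht
        have := (h8 0 t ht).1
        linarith
      refine tendsto_atTop_mono' _ h9 ?_
      exact tendsto_atTop_add_const_left _ _ (tendsto_id.atTop_div_const (by norm_num))
    · have h9 : ∀ᶠ t in atBot, X t ≤ X 0 + t / 2 := by
        filter_upwards [eventually_le_atBot (0 : ℝ)] with t ht
        have := (h8 t 0 ht).1
        linarith
      refine tendsto_atBot_mono' _ h9 ?_
      exact tendsto_atBot_add_const_left _ _ (tendsto_id.atBot_div_const (by norm_num))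
  · intro s has
    have h9 := mvt has G.dY (fun x _ _ => hs x)
    rw [G.Y0 a (le_refl a), sub_zero] at h9
    exact h9
  · intro s r hbs hr
    have hle : s ≤ s + r := by linarith
    constructor
    · have h9 := mvt (f := fun t => X t - t * Real.cos (θ b))
        (f' := fun x => Real.cos (θ x) - 1 * Real.cos (θ b)) (C := 0) hle
        (fun x => (G.dX x).sub ((hasDerivAt_id x).mul_const _)) (fun x hx _ => by
          rw [G.right x (hbs.trans hx)]
          simp)
      rw [zero_mul] at h9
      have h10 := abs_nonpos_iff.1 h9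
      linarith
    · have h9 := mvt (f := fun t => Y t - t * Real.sin (θ b))
        (f' := fun x => Real.sin (θ x) - 1 * Real.sin (θ b)) (C := 0) hle
        (fun x => (G.dY x).sub ((hasDerivAt_id x).mul_const _)) (fun x hx _ => by
          rw [G.right x (hbs.trans hx)]
          simp)
      rw [zero_mul] at h9
      have h10 := abs_nonpos_iff.1 h9
      linarith

end Pool.Agent.T2H04.LC
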