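import Pool.Agent.T2H04.LC.Stm

open MeasureTheory Set Filter Topology

namespace Pool.Agent.T2H04.LC

namespace HOL

/-- transport along a segment -/
theorem transport (f g : ℝ → ℂ) (a : ℝ → ℝ) (h : Lin f g a) (k s t : ℝ) (hst : s ≤ t)
    (ha : ContinuousOn a (Icc s t)) :
    ‖((Real.exp (k * (t - s)) : ℝ) : ℂ) * f t - Complex.exp (Complex.I * ((∫ τ in s..t, a τ : ℝ) : ℂ)) * f s‖ ≤
      Real.exp (|k| * (t - s)) * ∫ τ in s..t, ‖g τ + (k : ℂ) * f τ‖ := by
  -- extension of `a`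
  set a' : ℝ → ℝ := IccExtend hst ((Icc s t).domRestrict a) with ha'
  have ha'c : Continuous a' := (continuousOn_iff_continuous_domRestrict.mp ha).Icc_extend'
  have ha'e : ∀ τ ∈ Icc s t, a' τ = a τ := by
    intro τ hτ
    rw [ha', IccExtend_of_mem hst _ hτ]
    rfl
  set Φ : ℝ → ℝ := fun τ => ∫ r in s..τ, a' r with hΦ
  have hΦd : ∀ τ, HasDerivAt Φ (a' τ) τ := fun τ =>
    intervalIntegral.integral_hasDerivAt_right (ha'c.intervalIntegrable _ _)
      ha'c.stronglyMeasurable.stronglyMeasurableAtFilter ha'c.continuousAt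
  have hΦc : Continuous Φ := continuous_iff_continuousAt.mpr fun τ => (hΦd τ).continuousAt
  have hfc : Continuous f := continuous_iff_continuousAt.mpr fun τ => (h.der τ).continuousAt
  set E : ℝ → ℂ := fun τ => Complex.exp ((k : ℂ) * ((τ : ℂ) - s) - Complex.I * (Φ τ : ℂ)) with hE
  have hEd : ∀ τ, HasDerivAt E (E τ * ((k : ℂ) - Complex.I * (a' τ : ℂ))) τ := by
    intro τ
    have h1 : HasDerivAt (fun τ : ℝ => (k : ℂ) * ((τ : ℂ) - s) - Complex.I * (Φ τ : ℂ))
        ((k : ℂ) * 1 - Complex.I * (a' τ : ℂ)) τ := by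
      apply HasDerivAt.sub
      · apply HasDerivAt.const_mul
        exact (Complex.ofRealCLM.hasDerivAt (x := τ)).sub_const _
      · apply HasDerivAt.const_mul
        exact (hΦd τ).ofReal_comp
    have h2 := h1.cexp
    rw [mul_one] at h2
    exact h2
  have hEc : Continuous E := continuous_iff_continuousAt.mpr fun τ => (hEd τ).continuousAt
  have hFd : ∀ τ ∈ Ioo s t, HasDerivAt (fun τ => E τ * f τ) (E τ * (g τ + (k : ℂ) * f τ)) τ := by
    intro τ hτ
    have h1 := (hEd τ).mul (h.der τ)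
    rw [← ha'e τ (Ioo_subset_Icc_self hτ)] at h1
    refine h1.congr_deriv ?_
    ring
  have hint : (∫ τ in s..t, E τ * (g τ + (k : ℂ) * f τ)) = E t * f t - E s * f s := by
    apply intervalIntegral.integral_eq_sub_of_hasDerivAt_of_le hst
      (hEc.mul hfc).continuousOn hFd
    exact (hEc.mul (h.cont.add (continuous_const.mul hfc))).intervalIntegrable _ _
  have hEs : E s = 1 := by
    simp [hE, hΦ]
  have hEnorm : ∀ τ, ‖E τ‖ = Real.exp (k * (τ - s)) := by
    intro τ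
    rw [hE]
    simp only [Complex.norm_exp]
    congr 1
    simp [Complex.sub_re, Complex.mul_re]
  have hΦt : Φ t = ∫ τ in s..t, a τ := by
    rw [hΦ]
    apply intervalIntegral.integral_congr
    intro τ hτ
    rw [uIcc_of_le hst] at hτ
    exact ha'e τ hτ
  have hEt : E t = ((Real.exp (k * (t - s)) : ℝ) : ℂ) * Complex.exp (-(Complex.I * ((∫ τ in s..t, a τ : ℝ) : ℂ))) := by
    rw [hE]
    simp only
    rw [hΦt, sub_eq_add_neg, Complex.exp_add]
    push_cast
    ring_nf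
  have key : ((Real.exp (k * (t - s)) : ℝ) : ℂ) * f t - Complex.exp (Complex.I * ((∫ τ in s..t, a τ : ℝ) : ℂ)) * f s
      = Complex.exp (Complex.I * ((∫ τ in s..t, a τ : ℝ) : ℂ)) * ∫ τ in s..t, E τ * (g τ + (k : ℂ) * f τ) := by
    rw [hint, hEs, hEt]
    have : Complex.exp (Complex.I * ((∫ τ in s..t, a τ : ℝ) : ℂ)) *
        Complex.exp (-(Complex.I * ((∫ τ in s..t, a τ : ℝ) : ℂ))) = 1 := by
      rw [← Complex.exp_add]
      simp
    linear_combination (-(((Real.exp (k * (t - s)) : ℝ) : ℂ) * f t)) * this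
  rw [key, norm_mul]
  have h1 : ‖Complex.exp (Complex.I * ((∫ τ in s..t, a τ : ℝ) : ℂ))‖ = 1 := by
    rw [mul_comm]
    exact Complex.norm_exp_ofReal_mul_I _
  rw [h1, one_mul]
  calc ‖∫ τ in s..t, E τ * (g τ + (k : ℂ) * f τ)‖ ≤ ∫ τ in s..t, ‖E τ * (g τ + (k : ℂ) * f τ)‖ :=
        intervalIntegral.norm_integral_le_integral_norm hst
    _ ≤ ∫ τ in s..t, Real.exp (|k| * (t - s)) * ‖g τ + (k : ℂ) * f τ‖ := by
        apply intervalIntegral.integral_mono_on hst
        · exact (hEc.mul (h.cont.add (continuous_const.mul hfc))).norm.intervalIntegrable _ _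
        · exact (continuous_const.mul (h.cont.add (continuous_const.mul hfc)).norm).intervalIntegrable _ _
        · intro τ hτ
          rw [norm_mul, hEnorm]
          apply mul_le_mul_of_nonneg_right _ (norm_nonneg _)
          apply Real.exp_le_exp.mpr
          calc k * (τ - s) ≤ |k| * (τ - s) :=
                mul_le_mul_of_nonneg_right (le_abs_self k) (by linarith [hτ.1])
            _ ≤ |k| * (t - s) := mul_le_mul_of_nonneg_left (by linarith [hτ.2]) (abs_nonneg k)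
    _ = Real.exp (|k| * (t - s)) * ∫ τ in s..t, ‖g τ + (k : ℂ) * f τ‖ := by
        rw [intervalIntegral.integral_const_mul]

/-- Cauchy-Schwarz and enlargement of the interval -/
theorem csq (G : ℝ → ℝ) (hG : Continuous G) (s t p q : ℝ) (hst : s ≤ t) (hp : p ≤ s) (hq : t ≤ q) :
    (∫ τ in s..t, G τ) ^ 2 ≤ (t - s) * ∫ τ in p..q, G τ ^ 2 := by
  have h1 : (∫ τ in s..t, G τ) ^ 2 ≤ (t - s) * ∫ τ in s..t, G τ ^ 2 := by
    rcases eq_or_lt_of_le hst with h | h
    · rw [h]; simp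
    · set m := (∫ τ in s..t, G τ) / (t - s) with hm
      have hts : 0 < t - s := by linarith
      have h0 : 0 ≤ ∫ τ in s..t, (G τ - m) ^ 2 :=
        intervalIntegral.integral_nonneg hst fun τ _ => sq_nonneg _
      have h2 : (∫ τ in s..t, (G τ - m) ^ 2) = (∫ τ in s..t, G τ ^ 2) - 2 * m * (∫ τ in s..t, G τ) + m ^ 2 * (t - s) := by
        have : ∀ τ, (G τ - m) ^ 2 = G τ ^ 2 - 2 * m * G τ + m ^ 2 := fun τ => by ring
        simp_rw [this]
        rw [intervalIntegral.integral_add, intervalIntegral.integral_sub, intervalIntegral.integral_const_mul,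
          intervalIntegral.integral_const, smul_eq_mul]
        · ring
        · exact (hG.pow 2).intervalIntegrable _ _
        · exact (continuous_const.mul hG).intervalIntegrable _ _
        · exact ((hG.pow 2).sub (continuous_const.mul hG)).intervalIntegrable _ _
        · exact continuous_const.intervalIntegrable _ _
      rw [h2] at h0
      have h3 : (∫ τ in s..t, G τ) = m * (t - s) := by
        rw [hm]; field_simp
      rw [h3] at h0 ⊢
      nlinarith [mul_nonneg hts.le h0]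
  refine h1.trans ?_
  apply mul_le_mul_of_nonneg_left _ (by linarith)
  apply intervalIntegral.integral_mono_interval hp hst hq
  · exact Eventually.of_forall fun τ => sq_nonneg _
  · exact (hG.pow 2).intervalIntegrable _ _

theorem int_box (F : ℝ × ℝ → ℝ) (hF : Continuous F) (x1 x2 y1 y2 : ℝ) (hx : x1 ≤ x2) (hy : y1 ≤ y2) :
    (∫ z in Icc x1 x2 ×ˢ Icc y1 y2, F z) = ∫ x in x1..x2, ∫ y in y1..y2, F (x, y) := by
  rw [Measure.volume_eq_prod, setIntegral_prod]
  · rw [intervalIntegral.integral_of_le hx, integral_Icc_eq_integral_Ioc]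
    apply setIntegral_congr_fun measurableSet_Ioc
    intro x _
    simp only
    rw [intervalIntegral.integral_of_le hy, integral_Icc_eq_integral_Ioc]
  · rw [← Measure.volume_eq_prod]
    exact hF.continuousOn.integrableOn_compact (isCompact_Icc.prod isCompact_Icc)

theorem int_box' (F : ℝ × ℝ → ℝ) (hF : Continuous F) (x1 x2 y1 y2 : ℝ) (hx : x1 ≤ x2) (hy : y1 ≤ y2) :
    (∫ z in Icc x1 x2 ×ˢ Icc y1 y2, F z) = ∫ y in y1..y2, ∫ x in x1..x2, F (x, y) := by
  rw [int_box F hF x1 x2 y1 y2 hx hy]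
  rw [intervalIntegral.integral_of_le hx, intervalIntegral.integral_of_le hy]
  have h1 : (∫ x in Ioc x1 x2, ∫ y in y1..y2, F (x, y)) = ∫ x in Ioc x1 x2, ∫ y in Ioc y1 y2, F (x, y) := by
    apply setIntegral_congr_fun measurableSet_Ioc
    intro x _
    simp only
    rw [intervalIntegral.integral_of_le hy]
  have h2 : (∫ y in Ioc y1 y2, ∫ x in x1..x2, F (x, y)) = ∫ y in Ioc y1 y2, ∫ x in Ioc x1 x2, F (x, y) := by
    apply setIntegral_congr_fun measurableSet_Ioc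
    intro x _
    simp only
    rw [intervalIntegral.integral_of_le hx]
  rw [h1, h2]
  have h3 : IntegrableOn F (Ioc x1 x2 ×ˢ Ioc y1 y2) :=
    (hF.continuousOn.integrableOn_compact (isCompact_Icc.prod isCompact_Icc) :
      IntegrableOn F (Icc x1 x2 ×ˢ Icc y1 y2)).mono_set (prod_mono Ioc_subset_Icc_self Ioc_subset_Icc_self)
  apply integral_integral_swap
  rw [Measure.prod_restrict, ← Measure.volume_eq_prod]
  exact h3

/-- the pointwise estimate -/
theorem pointwise (hLIN : S_LIN) (k : ℝ) (A : ℝ × ℝ → ℝ × ℝ) (x1 x2 y1 y2 l1 l2 c : ℝ)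
    (hH : Hol A x1 x2 y1 y2 l1 l2 c) (u : ℝ × ℝ → ℂ) (hu : Adm A u) (x y : ℝ) (hx : x ∈ Icc x1 x2)
    (hy : y ∈ Icc y1 y2) :
    c * ‖u (x, y)‖ ≤ Real.exp (|k| * l2) * ((∫ σ in x..(x + l1), ‖DD A u (1, 0) (σ, y)‖) +
      (∫ σ in x..(x + l1), ‖DD A u (1, 0) (σ, y + l2)‖) +
      (∫ τ in y..(y + l2), ‖DD A u (0, 1) (x, τ) + (k : ℂ) * u (x, τ)‖) +
      ∫ τ in y..(y + l2), ‖DD A u (0, 1) (x + l1, τ) + (k : ℂ) * u (x + l1, τ)‖) := by
  have hl1 := hH.hl1
  have hl2 := hH.hl2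
  obtain ⟨hlin, -, -, -, -⟩ := hLIN A u hu
  -- horizontal transport
  have hor : ∀ y' : ℝ, (y' ∈ Icc y1 y2 ∨ y' ∈ Icc (y1 + l2) (y2 + l2)) →
      ‖u (x + l1, y') - Complex.exp (Complex.I * ((∫ σ in x..(x + l1), (A (σ, y')).1 : ℝ) : ℂ)) * u (x, y')‖ ≤
        ∫ σ in x..(x + l1), ‖DD A u (1, 0) (σ, y')‖ := by
    intro y' hy'
    have h1 := hlin (0, y') (1, 0)
    have e1 : ∀ t : ℝ, ((0, y') : ℝ × ℝ) + t • ((1, 0) : ℝ × ℝ) = (t, y') := by
      intro t; simp
    simp only [e1, mul_one, mul_zero, add_zero] at h1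
    have h2 := transport _ _ _ h1 0 x (x + l1) (by linarith) ?_
    · simpa using h2
    · have hc := hH.cont
      have h3 : ContinuousOn (fun t : ℝ => A (t, y')) (Icc x (x + l1)) := by
        apply hc.comp (Continuous.continuousOn (by fun_prop))
        intro t ht
        left
        refine ⟨⟨?_, ?_⟩, hy'⟩
        · exact hx.1.trans ht.1
        · exact ht.2.trans (by linarith [hx.2])
      exact continuous_fst.comp_continuousOn h3
  have ver : ∀ x' : ℝ, (x' ∈ Icc x1 x2 ∨ x' ∈ Icc (x1 + l1) (x2 + l1)) →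
      ‖((Real.exp (k * l2) : ℝ) : ℂ) * u (x', y + l2) -
        Complex.exp (Complex.I * ((∫ τ in y..(y + l2), (A (x', τ)).2 : ℝ) : ℂ)) * u (x', y)‖ ≤
        Real.exp (|k| * l2) * ∫ τ in y..(y + l2), ‖DD A u (0, 1) (x', τ) + (k : ℂ) * u (x', τ)‖ := by
    intro x' hx'
    have h1 := hlin (x', 0) (0, 1)
    have e1 : ∀ t : ℝ, ((x', 0) : ℝ × ℝ) + t • ((0, 1) : ℝ × ℝ) = (x', t) := by
      intro t; simp
    simp only [e1, mul_one, mul_zero, zero_add] at h1
    have h2 := transport _ _ _ h1 k y (y + l2) (by linarith) ?_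
    · rw [add_sub_cancel_left] at h2
      exact h2
    · have hc := hH.cont
      have h3 : ContinuousOn (fun t : ℝ => A (x', t)) (Icc y (y + l2)) := by
        apply hc.comp (Continuous.continuousOn (by fun_prop))
        intro t ht
        right
        refine ⟨hx', ⟨?_, ?_⟩⟩
        · exact hy.1.trans ht.1
        · exact ht.2.trans (by linarith [hy.2])
      exact continuous_snd.comp_continuousOn h3
  have hx1 : x + l1 ∈ Icc (x1 + l1) (x2 + l1) := ⟨by linarith [hx.1], by linarith [hx.2]⟩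
  have hy1 : y + l2 ∈ Icc (y1 + l2) (y2 + l2) := ⟨by linarith [hy.1], by linarith [hy.2]⟩
  have a1 := hor y (Or.inl hy)
  have b2 := hor (y + l2) (Or.inr hy1)
  have b1 := ver x (Or.inl hx)
  have a2 := ver (x + l1) (Or.inr hx1)
  have hol := hH.hol x hx y hy
  set P1 := Complex.exp (Complex.I * ((∫ σ in x..(x + l1), (A (σ, y)).1 : ℝ) : ℂ)) with hP1
  set P2 := Complex.exp (Complex.I * ((∫ σ in x..(x + l1), (A (σ, y + l2)).1 : ℝ) : ℂ)) with hP2
  set Q1 := Complex.exp (Complex.I * ((∫ τ in y..(y + l2), (A (x + l1, τ)).2 : ℝ) : ℂ)) with hQ1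
  set Q2 := Complex.exp (Complex.I * ((∫ τ in y..(y + l2), (A (x, τ)).2 : ℝ) : ℂ)) with hQ2
  have e1 : Complex.exp (Complex.I * (((∫ σ in x..(x + l1), (A (σ, y)).1) +
          ∫ τ in y..(y + l2), (A (x + l1, τ)).2 : ℝ) : ℂ)) = Q1 * P1 := by
    rw [hP1, hQ1, ← Complex.exp_add]
    push_cast
    ring_nf
  have e2 : Complex.exp (Complex.I * (((∫ τ in y..(y + l2), (A (x, τ)).2) +
          ∫ σ in x..(x + l1), (A (σ, y + l2)).1 : ℝ) : ℂ)) = P2 * Q2 := by
    rw [hP2, hQ2, ← Complex.exp_add]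
    push_cast
    ring_nf
  rw [e1, e2] at hol
  have nI : ∀ r : ℝ, ‖Complex.exp (Complex.I * (r : ℂ))‖ = 1 := by
    intro r
    rw [mul_comm]
    exact Complex.norm_exp_ofReal_mul_I _
  have nP2 : ‖P2‖ = 1 := nI _
  have nQ1 : ‖Q1‖ = 1 := nI _
  set I1 := ∫ σ in x..(x + l1), ‖DD A u (1, 0) (σ, y)‖ with hI1
  set I2 := ∫ σ in x..(x + l1), ‖DD A u (1, 0) (σ, y + l2)‖ with hI2
  set J1 := ∫ τ in y..(y + l2), ‖DD A u (0, 1) (x, τ) + (k : ℂ) * u (x, τ)‖ with hJ1
  set J2 := ∫ τ in y..(y + l2), ‖DD A u (0, 1) (x + l1, τ) + (k : ℂ) * u (x + l1, τ)‖ with hJ2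
  set M := Real.exp (|k| * l2) with hM
  have hM1 : 1 ≤ M := by
    rw [hM]
    exact Real.one_le_exp (by positivity)
  have hkM : Real.exp (k * l2) ≤ M := by
    rw [hM]
    exact Real.exp_le_exp.mpr (mul_le_mul_of_nonneg_right (le_abs_self k) hl2.le)
  have hI1n : 0 ≤ I1 := intervalIntegral.integral_nonneg (by linarith) fun _ _ => norm_nonneg _
  have hI2n : 0 ≤ I2 := intervalIntegral.integral_nonneg (by linarith) fun _ _ => norm_nonneg _
  set K := ((Real.exp (k * l2) : ℝ) : ℂ) with hK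
  have nK : ‖K‖ = Real.exp (k * l2) := by
    rw [hK, Complex.norm_real, Real.norm_of_nonneg (Real.exp_pos _).le]
  have hid : (Q1 * P1 - P2 * Q2) * u (x, y) =
      -(Q1 * (u (x + l1, y) - P1 * u (x, y))) - (K * u (x + l1, y + l2) - Q1 * u (x + l1, y)) +
        P2 * (K * u (x, y + l2) - Q2 * u (x, y)) + K * (u (x + l1, y + l2) - P2 * u (x, y + l2)) := by
    ring
  calc c * ‖u (x, y)‖ ≤ ‖Q1 * P1 - P2 * Q2‖ * ‖u (x, y)‖ := mul_le_mul_of_nonneg_right hol (norm_nonneg _)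
    _ = ‖(Q1 * P1 - P2 * Q2) * u (x, y)‖ := (norm_mul _ _).symm
    _ = ‖-(Q1 * (u (x + l1, y) - P1 * u (x, y))) - (K * u (x + l1, y + l2) - Q1 * u (x + l1, y)) +
        P2 * (K * u (x, y + l2) - Q2 * u (x, y)) + K * (u (x + l1, y + l2) - P2 * u (x, y + l2))‖ := by rw [hid]
    _ ≤ ‖Q1 * (u (x + l1, y) - P1 * u (x, y))‖ + ‖K * u (x + l1, y + l2) - Q1 * u (x + l1, y)‖ +
        ‖P2 * (K * u (x, y + l2) - Q2 * u (x, y))‖ + ‖K * (u (x + l1, y + l2) - P2 * u (x, y + l2))‖ := by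
        refine (norm_add_le _ _).trans (add_le_add_left ?_ _)
        refine (norm_add_le _ _).trans (add_le_add_left ?_ _)
        refine (norm_sub_le _ _).trans (add_le_add_left ?_ _)
        rw [norm_neg]
    _ ≤ I1 + M * J2 + M * J1 + M * I2 := by
        rw [norm_mul Q1, norm_mul P2, norm_mul K, nP2, nQ1, one_mul, one_mul, nK]
        have h5 : Real.exp (k * l2) * ‖u (x + l1, y + l2) - P2 * u (x, y + l2)‖ ≤ M * I2 :=
          mul_le_mul hkM b2 (norm_nonneg _) (by linarith)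
        linarith
    _ ≤ M * (I1 + I2 + J1 + J2) := by nlinarith [mul_nonneg (sub_nonneg.mpr hM1) hI1n]

theorem int_fst (φ : ℝ → ℝ) (hφ : Continuous φ) (x1 x2 y1 y2 : ℝ) (hx : x1 ≤ x2) (hy : y1 ≤ y2) :
    (∫ z in Icc x1 x2 ×ˢ Icc y1 y2, φ z.1) = (y2 - y1) * ∫ x in x1..x2, φ x := by
  rw [int_box (fun z => φ z.1) (hφ.comp continuous_fst) x1 x2 y1 y2 hx hy]
  simp only [intervalIntegral.integral_const, smul_eq_mul, intervalIntegral.integral_const_mul]

theorem int_snd (φ : ℝ → ℝ) (hφ : Continuous φ) (x1 x2 y1 y2 : ℝ) (hx : x1 ≤ x2) (hy : y1 ≤ y2) :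
    (∫ z in Icc x1 x2 ×ˢ Icc y1 y2, φ z.2) = (x2 - x1) * ∫ y in y1..y2, φ y := by
  rw [int_box' (fun z => φ z.2) (hφ.comp continuous_snd) x1 x2 y1 y2 hx hy]
  simp only [intervalIntegral.integral_const, smul_eq_mul, intervalIntegral.integral_const_mul]

end HOL

open HOL in
theorem pHOL (hLIN : S_LIN) (_hOD1 : S_OD1) : S_HOL := by
  intro k A x1 x2 y1 y2 l1 l2 c hH
  have hl1 := hH.hl1
  have hl2 := hH.hl2
  have hx12 := hH.hx
  have hy12 := hH.hy
  have hc := hH.hc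
  set M := Real.exp (|k| * l2) with hM
  have hMp : 0 < M := Real.exp_pos _
  refine ⟨4 * M ^ 2 * (2 * l1 * (x2 - x1) + 2 * l2 * (y2 - y1)) / c ^ 2, ?_, ?_⟩
  · have h1 : 0 < x2 - x1 := by linarith
    have h2 : 0 < y2 - y1 := by linarith
    positivity
  intro u hu
  obtain ⟨hlin, -, -, -, -⟩ := hLIN A u hu
  have huc : Continuous u := hu.smooth.continuous
  set G1 : ℝ × ℝ → ℝ := fun z => ‖DD A u (1, 0) z‖ with hG1
  set G2 : ℝ × ℝ → ℝ := fun z => ‖DD A u (0, 1) z + (k : ℂ) * u z‖ with hG2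
  have hG1c : Continuous G1 := (hu.cont _).norm
  have hG2c : Continuous G2 := ((hu.cont _).add (continuous_const.mul huc)).norm
  set H : ℝ → ℝ := fun y => ∫ σ in x1..(x2 + l1), G1 (σ, y) ^ 2 with hHdef
  set V : ℝ → ℝ := fun x => ∫ τ in y1..(y2 + l2), G2 (x, τ) ^ 2 with hVdef
  have hHc : Continuous H := by
    apply intervalIntegral.continuous_parametric_intervalIntegral_of_continuous'
    have : Continuous (fun p : ℝ × ℝ => G1 (p.2, p.1) ^ 2) := (hG1c.comp continuous_swap).pow 2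
    exact this
  have hVc : Continuous V := by
    apply intervalIntegral.continuous_parametric_intervalIntegral_of_continuous'
    have : Continuous (fun p : ℝ × ℝ => G2 (p.1, p.2) ^ 2) := hG2c.pow 2
    exact this
  have hH0 : ∀ y, 0 ≤ H y := fun y =>
    intervalIntegral.integral_nonneg (by linarith) fun _ _ => sq_nonneg _
  have hV0 : ∀ y, 0 ≤ V y := fun y =>
    intervalIntegral.integral_nonneg (by linarith) fun _ _ => sq_nonneg _
  have hpt : ∀ z ∈ Icc x1 x2 ×ˢ Icc y1 y2, c ^ 2 * ‖u z‖ ^ 2 ≤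
      4 * M ^ 2 * (l1 * (H z.2 + H (z.2 + l2)) + l2 * (V z.1 + V (z.1 + l1))) := by
    rintro ⟨x, y⟩ ⟨hx, hy⟩
    have h1 := pointwise hLIN k A x1 x2 y1 y2 l1 l2 c hH u hu x y hx hy
    have hx' : x1 ≤ x ∧ x ≤ x2 := hx
    have hy' : y1 ≤ y ∧ y ≤ y2 := hy
    have c1 := csq (fun σ => G1 (σ, y)) (hG1c.comp (by fun_prop)) x (x + l1) x1 (x2 + l1)
      (by linarith) hx'.1 (by linarith)
    have c2 := csq (fun σ => G1 (σ, y + l2)) (hG1c.comp (by fun_prop)) x (x + l1) x1 (x2 + l1)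
      (by linarith) hx'.1 (by linarith)
    have c3 := csq (fun τ => G2 (x, τ)) (hG2c.comp (by fun_prop)) y (y + l2) y1 (y2 + l2)
      (by linarith) hy'.1 (by linarith)
    have c4 := csq (fun τ => G2 (x + l1, τ)) (hG2c.comp (by fun_prop)) y (y + l2) y1 (y2 + l2)
      (by linarith) hy'.1 (by linarith)
    rw [add_sub_cancel_left] at c1 c2 c3 c4
    change c * ‖u (x, y)‖ ≤ M * ((∫ σ in x..(x + l1), G1 (σ, y)) + (∫ σ in x..(x + l1), G1 (σ, y + l2)) +
      (∫ τ in y..(y + l2), G2 (x, τ)) + ∫ τ in y..(y + l2), G2 (x + l1, τ)) at h1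
    change (∫ σ in x..(x + l1), G1 (σ, y)) ^ 2 ≤ l1 * H y at c1
    change (∫ σ in x..(x + l1), G1 (σ, y + l2)) ^ 2 ≤ l1 * H (y + l2) at c2
    change (∫ τ in y..(y + l2), G2 (x, τ)) ^ 2 ≤ l2 * V x at c3
    change (∫ τ in y..(y + l2), G2 (x + l1, τ)) ^ 2 ≤ l2 * V (x + l1) at c4
    generalize (∫ σ in x..(x + l1), G1 (σ, y)) = I1 at h1 c1
    generalize (∫ σ in x..(x + l1), G1 (σ, y + l2)) = I2 at h1 c2
    generalize (∫ τ in y..(y + l2), G2 (x, τ)) = J1 at h1 c3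
    generalize (∫ τ in y..(y + l2), G2 (x + l1, τ)) = J2 at h1 c4
    have h2 : (c * ‖u (x, y)‖) ^ 2 ≤ (M * (I1 + I2 + J1 + J2)) ^ 2 :=
      pow_le_pow_left₀ (by positivity) h1 2
    have h3 : (I1 + I2 + J1 + J2) ^ 2 ≤ 4 * (I1 ^ 2 + I2 ^ 2 + J1 ^ 2 + J2 ^ 2) := by
      nlinarith [sq_nonneg (I1 - I2), sq_nonneg (I1 - J1), sq_nonneg (I1 - J2), sq_nonneg (I2 - J1),
        sq_nonneg (I2 - J2), sq_nonneg (J1 - J2)]
    calc c ^ 2 * ‖u (x, y)‖ ^ 2 = (c * ‖u (x, y)‖) ^ 2 := by ring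
      _ ≤ (M * (I1 + I2 + J1 + J2)) ^ 2 := h2
      _ = M ^ 2 * (I1 + I2 + J1 + J2) ^ 2 := by ring
      _ ≤ M ^ 2 * (4 * (I1 ^ 2 + I2 ^ 2 + J1 ^ 2 + J2 ^ 2)) := mul_le_mul_of_nonneg_left h3 (by positivity)
      _ ≤ M ^ 2 * (4 * (l1 * H y + l1 * H (y + l2) + l2 * V x + l2 * V (x + l1))) := by
          apply mul_le_mul_of_nonneg_left _ (by positivity)
          linarith
      _ = 4 * M ^ 2 * (l1 * (H y + H (y + l2)) + l2 * (V x + V (x + l1))) := by ring
  -- integrate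
  have hbc : IsCompact (Icc x1 x2 ×ˢ Icc y1 y2) := isCompact_Icc.prod isCompact_Icc
  have hms : MeasurableSet (Icc x1 x2 ×ˢ Icc y1 y2) := measurableSet_Icc.prod measurableSet_Icc
  have hi : ∀ F : ℝ × ℝ → ℝ, Continuous F → IntegrableOn F (Icc x1 x2 ×ˢ Icc y1 y2) := fun F hF =>
    hF.continuousOn.integrableOn_compact hbc
  have c1 : Continuous fun z : ℝ × ℝ => H z.2 := hHc.comp continuous_snd
  have c2 : Continuous fun z : ℝ × ℝ => H (z.2 + l2) := hHc.comp (continuous_snd.add continuous_const)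
  have c3 : Continuous fun z : ℝ × ℝ => V z.1 := hVc.comp continuous_fst
  have c4 : Continuous fun z : ℝ × ℝ => V (z.1 + l1) := hVc.comp (continuous_fst.add continuous_const)
  have hmono : (∫ z in Icc x1 x2 ×ˢ Icc y1 y2, c ^ 2 * ‖u z‖ ^ 2) ≤
      ∫ z in Icc x1 x2 ×ˢ Icc y1 y2,
        4 * M ^ 2 * (l1 * (H z.2 + H (z.2 + l2)) + l2 * (V z.1 + V (z.1 + l1))) := by
    apply setIntegral_mono_on _ _ hms hpt
    · exact hi _ (continuous_const.mul (huc.norm.pow 2))
    · exact hi _ (continuous_const.mul ((continuous_const.mul (c1.add c2)).add (continuous_const.mul (c3.add c4))))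
  have hR : (∫ z in Icc x1 x2 ×ˢ Icc y1 y2,
        4 * M ^ 2 * (l1 * (H z.2 + H (z.2 + l2)) + l2 * (V z.1 + V (z.1 + l1)))) =
      4 * M ^ 2 * (l1 * ((x2 - x1) * (∫ y in y1..y2, H y) + (x2 - x1) * ∫ y in y1..y2, H (y + l2)) +
        l2 * ((y2 - y1) * (∫ x in x1..x2, V x) + (y2 - y1) * ∫ x in x1..x2, V (x + l1))) := by
    rw [integral_const_mul, integral_add, integral_const_mul, integral_const_mul, integral_add, integral_add,
      int_snd H hHc x1 x2 y1 y2 hx12.le hy12.le, int_snd (fun y => H (y + l2)) (hHc.comp (by fun_prop)) x1 x2 y1 y2 hx12.le hy12.le,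
      int_fst V hVc x1 x2 y1 y2 hx12.le hy12.le, int_fst (fun x => V (x + l1)) (hVc.comp (by fun_prop)) x1 x2 y1 y2 hx12.le hy12.le]
    · exact hi _ c3
    · exact hi _ c4
    · exact hi _ c1
    · exact hi _ c2
    · exact hi _ (continuous_const.mul (c1.add c2))
    · exact hi _ (continuous_const.mul (c3.add c4))
  -- the big integrals
  have mono_int : ∀ (F : ℝ → ℝ), Continuous F → (∀ x, 0 ≤ F x) → ∀ p q r s : ℝ, p ≤ q → q ≤ r → r ≤ s →
      (∫ x in q..r, F x) ≤ ∫ x in p..s, F x := by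
    intro F hF hF0 p q r s h1 h2 h3
    apply intervalIntegral.integral_mono_interval h1 h2 h3
    · exact Eventually.of_forall fun τ => hF0 _
    · exact hF.intervalIntegrable _ _
  set B1 := ∫ y in y1..(y2 + l2), H y with hB1
  set B2 := ∫ x in x1..(x2 + l1), V x with hB2
  have k1 : (∫ y in y1..y2, H y) ≤ B1 := mono_int H hHc hH0 _ _ _ _ le_rfl hy12.le (by linarith)
  have k2 : (∫ y in y1..y2, H (y + l2)) ≤ B1 := by
    rw [intervalIntegral.integral_comp_add_right]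
    exact mono_int H hHc hH0 _ _ _ _ (by linarith) (by linarith) le_rfl
  have k3 : (∫ x in x1..x2, V x) ≤ B2 := mono_int V hVc hV0 _ _ _ _ le_rfl hx12.le (by linarith)
  have k4 : (∫ x in x1..x2, V (x + l1)) ≤ B2 := by
    rw [intervalIntegral.integral_comp_add_right]
    exact mono_int V hVc hV0 _ _ _ _ (by linarith) (by linarith) le_rfl
  have f1 : B1 = ∫ z in Icc x1 (x2 + l1) ×ˢ Icc y1 (y2 + l2), G1 z ^ 2 := by
    rw [int_box' (fun z => G1 z ^ 2) (hG1c.pow 2) x1 (x2 + l1) y1 (y2 + l2) (by linarith) (by linarith)]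
  have f2 : B2 = ∫ z in Icc x1 (x2 + l1) ×ˢ Icc y1 (y2 + l2), G2 z ^ 2 := by
    rw [int_box (fun z => G2 z ^ 2) (hG2c.pow 2) x1 (x2 + l1) y1 (y2 + l2) (by linarith) (by linarith)]
  have f3 : (∫ z in Icc x1 (x2 + l1) ×ˢ Icc y1 (y2 + l2),
      (‖DD A u (1, 0) z‖ ^ 2 + ‖DD A u (0, 1) z + (k : ℂ) * u z‖ ^ 2)) = B1 + B2 := by
    rw [f1, f2]
    apply integral_add
    · exact (hG1c.pow 2).continuousOn.integrableOn_compact (isCompact_Icc.prod isCompact_Icc)
    · exact (hG2c.pow 2).continuousOn.integrableOn_compact (isCompact_Icc.prod isCompact_Icc)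
  have hB1n : 0 ≤ B1 := intervalIntegral.integral_nonneg (by linarith) fun _ _ => hH0 _
  have hB2n : 0 ≤ B2 := intervalIntegral.integral_nonneg (by linarith) fun _ _ => hV0 _
  rw [f3]
  rw [hR, integral_const_mul] at hmono
  have hx0 : 0 < x2 - x1 := by linarith
  have hy0 : 0 < y2 - y1 := by linarith
  have hfin : c ^ 2 * (∫ z in Icc x1 x2 ×ˢ Icc y1 y2, ‖u z‖ ^ 2) ≤
      4 * M ^ 2 * (2 * l1 * (x2 - x1) + 2 * l2 * (y2 - y1)) * (B1 + B2) := by
    refine hmono.trans ?_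
    have e1 : l1 * ((x2 - x1) * (∫ y in y1..y2, H y) + (x2 - x1) * ∫ y in y1..y2, H (y + l2)) ≤
        2 * l1 * (x2 - x1) * B1 := by
      have := mul_le_mul_of_nonneg_left (add_le_add k1 k2) (mul_nonneg hl1.le hx0.le)
      nlinarith
    have e2 : l2 * ((y2 - y1) * (∫ x in x1..x2, V x) + (y2 - y1) * ∫ x in x1..x2, V (x + l1)) ≤
        2 * l2 * (y2 - y1) * B2 := by
      have := mul_le_mul_of_nonneg_left (add_le_add k3 k4) (mul_nonneg hl2.le hy0.le)
      nlinarith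
    have e3 : 2 * l1 * (x2 - x1) * B1 + 2 * l2 * (y2 - y1) * B2 ≤
        (2 * l1 * (x2 - x1) + 2 * l2 * (y2 - y1)) * (B1 + B2) := by
      have m1 := mul_nonneg (mul_nonneg hl1.le hx0.le) hB2n
      have m2 := mul_nonneg (mul_nonneg hl2.le hy0.le) hB1n
      nlinarith
    calc _ ≤ 4 * M ^ 2 * (2 * l1 * (x2 - x1) * B1 + 2 * l2 * (y2 - y1) * B2) := by
          apply mul_le_mul_of_nonneg_left _ (by positivity)
          linarith
      _ ≤ 4 * M ^ 2 * ((2 * l1 * (x2 - x1) + 2 * l2 * (y2 - y1)) * (B1 + B2)) :=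
          mul_le_mul_of_nonneg_left e3 (by positivity)
      _ = _ := by ring
  rw [div_mul_eq_mul_div, le_div_iff₀ (by positivity)]
  linarith

end Pool.Agent.T2H04.LC
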