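import Pool.Agent.T2H04.LC.Stm

/-!
# LC, package LIN: restrictions of admissible functions to lines
-/

open MeasureTheory Set Filter Topology

namespace Pool.Agent.T2H04.LC

theorem pLIN : S_LIN := by
  intro A u hu
  refine ⟨?_, ?_, ?_, ?_, ?_⟩
  · intro p e
    refine ⟨?_, ?_⟩
    · intro t
      have h1 : HasFDerivAt u (fderiv ℝ u (p + t • e)) (p + t • e) :=
        ((hu.smooth.differentiable one_ne_zero) _).hasFDerivAt
      have h2 : HasDerivAt (fun t : ℝ => p + t • e) e t := by
        simpa using ((hasDerivAt_id t).smul_const e).const_add p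
      have h3 := h1.comp_hasDerivAt t h2
      have h4 : fderiv ℝ u (p + t • e) e = DD A u e (p + t • e) +
          Complex.I * (((A (p + t • e)).1 * e.1 + (A (p + t • e)).2 * e.2 : ℝ) : ℂ) * u (p + t • e) := by
        simp only [DD]
        ring
      rw [h4] at h3
      exact h3
    · exact (hu.cont e).comp (continuous_const.add (continuous_id.smul continuous_const))
  · intro p e he
    have h1 : IsClosedEmbedding (fun t : ℝ => p + t • e) :=
      (Homeomorph.addLeft p).isClosedEmbedding.comp (isClosedEmbedding_smul_left he)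
    exact hu.supp.comp_isClosedEmbedding h1
  · intro e
    refine HasCompactSupport.intro (K := tsupport u) hu.supp ?_
    intro x hx
    have h1 : u x = 0 := image_eq_zero_of_notMem_tsupport hx
    have h2 : fderiv ℝ u x = 0 := by
      by_contra hne
      exact hx (support_fderiv_subset ℝ (f := u) hne)
    simp [DD, h1, h2]
  · intro c e z
    simp only [DD, map_smul, Prod.smul_fst, Prod.smul_snd, smul_eq_mul, Complex.real_smul]
    push_cast
    ring
  · intro θ z
    have hT : DD A u (TT θ) z = (Real.cos θ : ℂ) * DD A u (1, 0) z + (Real.sin θ : ℂ) * DD A u (0, 1) z := by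
      have e1 : TT θ = Real.cos θ • ((1 : ℝ), (0 : ℝ)) + Real.sin θ • ((0 : ℝ), (1 : ℝ)) := by
        simp [TT]
      have e2 : fderiv ℝ u z (TT θ) = (Real.cos θ : ℂ) * fderiv ℝ u z (1, 0) +
          (Real.sin θ : ℂ) * fderiv ℝ u z (0, 1) := by
        rw [e1, map_add, map_smul, map_smul, Complex.real_smul, Complex.real_smul]
      simp only [DD, e2]
      simp only [TT]
      push_cast
      ring
    have hN : DD A u (NN θ) z = -(Real.sin θ : ℂ) * DD A u (1, 0) z + (Real.cos θ : ℂ) * DD A u (0, 1) z := by
      have e1 : NN θ = (-Real.sin θ) • ((1 : ℝ), (0 : ℝ)) + Real.cos θ • ((0 : ℝ), (1 : ℝ)) := by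
        simp [NN]
      have e2 : fderiv ℝ u z (NN θ) = -(Real.sin θ : ℂ) * fderiv ℝ u z (1, 0) +
          (Real.cos θ : ℂ) * fderiv ℝ u z (0, 1) := by
        rw [e1, map_add, map_smul, map_smul, Complex.real_smul, Complex.real_smul]
        push_cast
        ring
      simp only [DD, e2]
      simp only [NN]
      push_cast
      ring
    rw [hT, hN]
    generalize DD A u (1, 0) z = v
    generalize DD A u (0, 1) z = w
    have hcs := Real.cos_sq_add_sin_sq θ
    generalize Real.cos θ = c at hcs
    generalize Real.sin θ = s at hcs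
    simp only [← Complex.normSq_eq_norm_sq, Complex.normSq_apply, Complex.add_re, Complex.add_im, Complex.mul_re,
      Complex.mul_im, Complex.neg_re, Complex.neg_im, Complex.ofReal_re, Complex.ofReal_im]
    linear_combination (v.re * v.re + v.im * v.im + w.re * w.re + w.im * w.im) * hcs

end Pool.Agent.T2H04.LC
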