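import Pool.Agent.T2H04.LC.Stm

/-!
# LC, package OD1: growth of the modulus along a line
-/

open MeasureTheory Set Filter Topology

namespace Pool.Agent.T2H04.LC

namespace OD1

theorem inner_I (a : ℝ) (z : ℂ) : inner ℝ z (Complex.I * (a : ℂ) * z) = 0 := by
  simp only [Complex.inner, Complex.mul_re, Complex.mul_im, Complex.conj_re, Complex.conj_im, Complex.I_re,
    Complex.I_im, Complex.ofReal_re, Complex.ofReal_im]
  ring

theorem key (F G : ℝ → ℂ) (a : ℝ → ℝ) (hF : ∀ t, HasDerivAt F (G t + Complex.I * (a t : ℂ) * F t) t)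
    (hG : Continuous G) (s t : ℝ) (hst : s ≤ t) :
    ‖F t‖ ≤ ‖F s‖ + ∫ τ in s..t, ‖G τ‖ ∧ ‖F s‖ ≤ ‖F t‖ + ∫ τ in s..t, ‖G τ‖ := by
  have hFc : Continuous F := continuous_iff_continuousAt.2 fun t => (hF t).continuousAt
  have main : ∀ η : ℝ, 0 < η → |Real.sqrt (‖F t‖ ^ 2 + η ^ 2) - Real.sqrt (‖F s‖ ^ 2 + η ^ 2)| ≤
      ∫ τ in s..t, ‖G τ‖ := by
    intro η hη
    have hpos : ∀ τ, 0 < ‖F τ‖ ^ 2 + η ^ 2 := fun τ => by positivity
    have hd : ∀ τ, HasDerivAt (fun τ => Real.sqrt (‖F τ‖ ^ 2 + η ^ 2))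
        (inner ℝ (F τ) (G τ) / Real.sqrt (‖F τ‖ ^ 2 + η ^ 2)) τ := by
      intro τ
      have h1 := ((hF τ).norm_sq.add_const (η ^ 2)).sqrt (hpos τ).ne'
      have h2 : 2 * inner ℝ (F τ) (G τ + Complex.I * (a τ : ℂ) * F τ) / (2 * Real.sqrt (‖F τ‖ ^ 2 + η ^ 2)) =
          inner ℝ (F τ) (G τ) / Real.sqrt (‖F τ‖ ^ 2 + η ^ 2) := by
        rw [inner_add_right, inner_I, add_zero, mul_div_mul_left _ _ two_ne_zero]
      rw [h2] at h1
      exact h1
    have hc : Continuous (fun τ => inner ℝ (F τ) (G τ) / Real.sqrt (‖F τ‖ ^ 2 + η ^ 2)) := by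
      refine (hFc.inner hG).div (by fun_prop) fun τ => (Real.sqrt_pos.2 (hpos τ)).ne'
    rw [← intervalIntegral.integral_eq_sub_of_hasDerivAt (fun τ _ => hd τ) (hc.intervalIntegrable _ _),
      ← Real.norm_eq_abs]
    refine intervalIntegral.norm_integral_le_of_norm_le hst ?_ (hG.norm.intervalIntegrable _ _)
    refine Filter.Eventually.of_forall fun τ _ => ?_
    have hs := Real.sqrt_pos.2 (hpos τ)
    rw [norm_div, Real.norm_eq_abs, Real.norm_eq_abs, abs_of_pos hs, div_le_iff₀ hs, mul_comm]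
    refine (abs_real_inner_le_norm _ _).trans (mul_le_mul_of_nonneg_right ?_ (norm_nonneg _))
    refine Real.le_sqrt_of_sq_le ?_
    nlinarith [sq_nonneg η]
  have hle : ∀ (τ η : ℝ), 0 < η → ‖F τ‖ ≤ Real.sqrt (‖F τ‖ ^ 2 + η ^ 2) := by
    intro τ η hη
    refine Real.le_sqrt_of_sq_le ?_
    nlinarith [sq_nonneg η]
  have hge : ∀ (τ η : ℝ), 0 < η → Real.sqrt (‖F τ‖ ^ 2 + η ^ 2) ≤ ‖F τ‖ + η := by
    intro τ η hη
    rw [Real.sqrt_le_left (by positivity)]
    nlinarith [norm_nonneg (F τ)]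
  constructor
  · refine le_of_forall_pos_le_add fun η hη => ?_
    have h1 := (abs_le.1 (main η hη)).2
    linarith [hle t η hη, hge s η hη]
  · refine le_of_forall_pos_le_add fun η hη => ?_
    have h1 := (abs_le.1 (main η hη)).1
    linarith [hle s η hη, hge t η hη]

theorem lin_exp {f g : ℝ → ℂ} {a : ℝ → ℝ} (h : Lin f g a) (k c : ℝ) (t : ℝ) :
    HasDerivAt (fun τ => ((Real.exp (k * (τ - c)) : ℝ) : ℂ) * f τ)
      (((Real.exp (k * (t - c)) : ℝ) : ℂ) * (g t + (k : ℂ) * f t) +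
        Complex.I * (a t : ℂ) * (((Real.exp (k * (t - c)) : ℝ) : ℂ) * f t)) t := by
  have h1 : HasDerivAt (fun τ => Real.exp (k * (τ - c))) (Real.exp (k * (t - c)) * k) t := by
    have := (((hasDerivAt_id t).sub_const c).const_mul k).exp
    simpa using this
  have h2 := h1.ofReal_comp.mul (h.der t)
  have h3 : ((Real.exp (k * (t - c)) : ℝ) : ℂ) * (g t + (k : ℂ) * f t) +
        Complex.I * (a t : ℂ) * (((Real.exp (k * (t - c)) : ℝ) : ℂ) * f t) =
      ((Real.exp (k * (t - c)) * k : ℝ) : ℂ) * f t + ((Real.exp (k * (t - c)) : ℝ) : ℂ) *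
        (g t + Complex.I * (a t : ℂ) * f t) := by
    rw [Complex.ofReal_mul]
    ring
  rw [h3]
  exact h2

theorem main {f g : ℝ → ℂ} {a : ℝ → ℝ} (h : Lin f g a) (k s t c x y : ℝ) (hst : s ≤ t) (hc : c ∈ Icc s t)
    (hx : x ∈ Icc s t)
    (hkey : ‖((Real.exp (k * (y - c)) : ℝ) : ℂ) * f y‖ ≤ ‖((Real.exp (k * (x - c)) : ℝ) : ℂ) * f x‖ +
      ∫ τ in s..t, ‖((Real.exp (k * (τ - c)) : ℝ) : ℂ) * (g τ + (k : ℂ) * f τ)‖) (hy : y = c) :
    ‖f y‖ ≤ Real.exp (|k| * (t - s)) * (‖f x‖ + ∫ τ in s..t, ‖g τ + (k : ℂ) * f τ‖) := by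
  have hfc : Continuous f := continuous_iff_continuousAt.2 fun t => (h.der t).continuousAt
  have hgc := h.cont
  have hE : ∀ τ ∈ Icc s t, Real.exp (k * (τ - c)) ≤ Real.exp (|k| * (t - s)) := by
    intro τ hτ
    refine Real.exp_le_exp.2 ((le_abs_self _).trans ?_)
    rw [abs_mul]
    refine mul_le_mul_of_nonneg_left ?_ (abs_nonneg k)
    rw [abs_le]
    constructor <;> linarith [hτ.1, hτ.2, hc.1, hc.2]
  subst hy
  rw [sub_self, mul_zero, Real.exp_zero, Complex.ofReal_one, one_mul] at hkey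
  refine hkey.trans ?_
  rw [mul_add]
  refine add_le_add ?_ ?_
  · rw [norm_mul, Complex.norm_real, Real.norm_eq_abs, abs_of_pos (Real.exp_pos _)]
    exact mul_le_mul_of_nonneg_right (hE x hx) (norm_nonneg _)
  · rw [← intervalIntegral.integral_const_mul]
    refine intervalIntegral.integral_mono_on hst ?_ ?_ ?_
    · exact Continuous.intervalIntegrable (by fun_prop) _ _
    · exact Continuous.intervalIntegrable (by fun_prop) _ _
    · intro τ hτ
      rw [norm_mul, Complex.norm_real, Real.norm_eq_abs, abs_of_pos (Real.exp_pos _)]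
      exact mul_le_mul_of_nonneg_right (hE τ hτ) (norm_nonneg _)

end OD1

theorem pOD1 : S_OD1 := by
  intro f g a h k s t hst
  have hfc : Continuous f := continuous_iff_continuousAt.2 fun t => (h.der t).continuousAt
  have hgc := h.cont
  have hc : ∀ c : ℝ, Continuous (fun τ => ((Real.exp (k * (τ - c)) : ℝ) : ℂ) * (g τ + (k : ℂ) * f τ)) := by
    intro c
    fun_prop
  have h1 := (OD1.key _ _ a (OD1.lin_exp h k t) (hc t) s t hst).1
  have h2 := (OD1.key _ _ a (OD1.lin_exp h k s) (hc s) s t hst).2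
  exact ⟨OD1.main h k s t t s t hst ⟨hst, le_rfl⟩ ⟨le_rfl, hst⟩ h1 rfl,
    OD1.main h k s t s t s hst ⟨le_rfl, hst⟩ ⟨hst, le_rfl⟩ h2 rfl⟩

end Pool.Agent.T2H04.LC
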