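import Pool.Agent.T2H04.LC.Stm

/-!
# LC, package OD2: squares
-/

open MeasureTheory Set Filter Topology

namespace Pool.Agent.T2H04.LC

namespace OD2

theorem cs (h : ℝ → ℝ) (hc : Continuous h) (s t : ℝ) (hst : s ≤ t) :
    (∫ τ in s..t, h τ) ^ 2 ≤ (t - s) * ∫ τ in s..t, h τ ^ 2 := by
  rcases eq_or_lt_of_le hst with rfl | hlt
  · simp
  set m : ℝ := (∫ τ in s..t, h τ) / (t - s) with hm
  have h0 : 0 ≤ ∫ τ in s..t, (h τ - m) ^ 2 :=
    intervalIntegral.integral_nonneg hst fun τ _ => sq_nonneg _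
  have h1 : (∫ τ in s..t, (h τ - m) ^ 2) = (∫ τ in s..t, h τ ^ 2) - 2 * m * (∫ τ in s..t, h τ) +
      m ^ 2 * (t - s) := by
    have e : (fun τ => (h τ - m) ^ 2) = fun τ => (h τ ^ 2 - 2 * m * h τ) + m ^ 2 := by
      funext τ
      ring
    rw [e, intervalIntegral.integral_add (Continuous.intervalIntegrable (by fun_prop) _ _)
      (Continuous.intervalIntegrable (by fun_prop) _ _),
      intervalIntegral.integral_sub (Continuous.intervalIntegrable (by fun_prop) _ _)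
      (Continuous.intervalIntegrable (by fun_prop) _ _), intervalIntegral.integral_const_mul,
      intervalIntegral.integral_const, smul_eq_mul]
    ring
  have hts : 0 < t - s := sub_pos.2 hlt
  have h2 : m * (t - s) = ∫ τ in s..t, h τ := by
    rw [hm]
    field_simp
  rw [h1, ← h2] at h0
  rw [← h2]
  nlinarith [mul_nonneg hts.le h0]

end OD2

theorem pOD2 (h1 : S_OD1) : S_OD2 := by
  intro f g a h k s t hst
  have hfc : Continuous f := continuous_iff_continuousAt.2 fun t => (h.der t).continuousAt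
  have hgc := h.cont
  have hc : Continuous (fun τ => ‖g τ + (k : ℂ) * f τ‖) := by fun_prop
  have hI : 0 ≤ ∫ τ in s..t, ‖g τ + (k : ℂ) * f τ‖ :=
    intervalIntegral.integral_nonneg hst fun τ _ => norm_nonneg _
  have hcs := OD2.cs _ hc s t hst
  have key : ∀ p q : ℝ, 0 ≤ p → 0 ≤ q →
      p ≤ Real.exp (|k| * (t - s)) * (q + ∫ τ in s..t, ‖g τ + (k : ℂ) * f τ‖) →
      p ^ 2 ≤ 2 * Real.exp (2 * |k| * (t - s)) *
        (q ^ 2 + (t - s) * ∫ τ in s..t, ‖g τ + (k : ℂ) * f τ‖ ^ 2) := by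
    intro p q hp hq hpq
    have e1 : Real.exp (2 * |k| * (t - s)) = Real.exp (|k| * (t - s)) ^ 2 := by
      rw [← Real.exp_nat_mul]
      congr 1
      push_cast
      ring
    rw [e1]
    have hE := (Real.exp_pos (|k| * (t - s))).le
    generalize Real.exp (|k| * (t - s)) = E at hpq hE ⊢
    generalize (∫ τ in s..t, ‖g τ + (k : ℂ) * f τ‖) = J at hpq hI hcs ⊢
    generalize (t - s) * (∫ τ in s..t, ‖g τ + (k : ℂ) * f τ‖ ^ 2) = K at hcs ⊢
    calc p ^ 2 ≤ (E * (q + J)) ^ 2 := pow_le_pow_left₀ hp hpq 2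
      _ = E ^ 2 * (q + J) ^ 2 := by ring
      _ ≤ E ^ 2 * (2 * (q ^ 2 + K)) := by
        refine mul_le_mul_of_nonneg_left ?_ (sq_nonneg E)
        nlinarith [sq_nonneg (q - J)]
      _ = 2 * E ^ 2 * (q ^ 2 + K) := by ring
  obtain ⟨ha, hb⟩ := h1 f g a h k s t hst
  exact ⟨key _ _ (norm_nonneg _) (norm_nonneg _) ha, key _ _ (norm_nonneg _) (norm_nonneg _) hb⟩

end Pool.Agent.T2H04.LC
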