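import Pool.Agent.T2H04.LC.Stm

/-!
# LC, package OD3: the half line identity
-/

open MeasureTheory Set Filter Topology

namespace Pool.Agent.T2H04.LC

namespace OD3

theorem inner_I (a : ℝ) (z : ℂ) : inner ℝ z (Complex.I * (a : ℂ) * z) = 0 := by
  simp only [Complex.inner, Complex.mul_re, Complex.mul_im, Complex.conj_re, Complex.conj_im, Complex.I_re,
    Complex.I_im, Complex.ofReal_re, Complex.ofReal_im]
  ring

theorem der_sq {f g : ℝ → ℂ} {a : ℝ → ℝ} (h : Lin f g a) (t : ℝ) :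
    HasDerivAt (fun τ => ‖f τ‖ ^ 2) (2 * inner ℝ (f t) (g t)) t := by
  have h1 := (h.der t).norm_sq
  rw [inner_add_right, inner_I, add_zero] at h1
  exact h1

theorem norm_sq_add (z w : ℂ) (κ : ℝ) :
    ‖w + (κ : ℂ) * z‖ ^ 2 = ‖w‖ ^ 2 + κ ^ 2 * ‖z‖ ^ 2 + κ * (2 * inner ℝ z w) := by
  simp only [← Complex.normSq_eq_norm_sq, Complex.normSq_apply, Complex.add_re, Complex.add_im, Complex.mul_re,
    Complex.mul_im, Complex.ofReal_re, Complex.ofReal_im, Complex.inner, Complex.conj_re, Complex.conj_im]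
  ring

theorem cont {f g : ℝ → ℂ} {a : ℝ → ℝ} (h : Lin f g a) : Continuous f :=
  continuous_iff_continuousAt.2 fun t => (h.der t).continuousAt

theorem zero_off {f g : ℝ → ℂ} {a : ℝ → ℝ} (h : Lin f g a) (t : ℝ) (ht : t ∉ tsupport f) : g t = 0 := by
  have h0 : f =ᶠ[𝓝 t] 0 := notMem_tsupport_iff_eventuallyEq.1 ht
  have h1 : HasDerivAt f 0 t := (hasDerivAt_const t (0 : ℂ)).congr_of_eventuallyEq h0
  have h2 := (h.der t).unique h1
  have h3 : f t = 0 := image_eq_zero_of_notMem_tsupport ht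
  rw [h3, mul_zero, add_zero] at h2
  exact h2

theorem integrable {f g : ℝ → ℂ} {a : ℝ → ℝ} (h : Lin f g a) (hf : HasCompactSupport f) (p q r : ℝ) (κ : ℝ) :
    Integrable (fun t => p * ‖g t‖ ^ 2 + q * ‖f t‖ ^ 2 + r * ‖g t + (κ : ℂ) * f t‖ ^ 2) := by
  have hfc := cont h
  have hgc := h.cont
  refine Continuous.integrable_of_hasCompactSupport (by fun_prop) ?_
  refine HasCompactSupport.intro hf fun t ht => ?_
  have h1 := zero_off h t ht
  have h2 : f t = 0 := image_eq_zero_of_notMem_tsupport ht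
  simp [h1, h2]

theorem ibp {f g : ℝ → ℂ} {a : ℝ → ℝ} (h : Lin f g a) (hf : HasCompactSupport f) :
    Integrable (fun t => 2 * inner ℝ (f t) (g t)) ∧
    ∀ c : ℝ, (∫ t in Iic c, 2 * inner ℝ (f t) (g t)) = ‖f c‖ ^ 2 ∧
      (∫ t in Ici c, 2 * inner ℝ (f t) (g t)) = -‖f c‖ ^ 2 := by
  have hfc := cont h
  have hgc := h.cont
  have hd : deriv (fun τ => ‖f τ‖ ^ 2) = fun t => 2 * inner ℝ (f t) (g t) := by
    funext t
    exact (der_sq h t).deriv
  have hC : ContDiff ℝ 1 (fun τ => ‖f τ‖ ^ 2) := by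
    rw [contDiff_one_iff_deriv]
    refine ⟨fun t => (der_sq h t).differentiableAt, ?_⟩
    rw [hd]
    exact continuous_const.mul (hfc.inner hgc)
  have hS : HasCompactSupport (fun τ => ‖f τ‖ ^ 2) := by
    refine HasCompactSupport.intro hf fun t ht => ?_
    have h2 : f t = 0 := image_eq_zero_of_notMem_tsupport ht
    simp [h2]
  refine ⟨?_, fun c => ⟨?_, ?_⟩⟩
  · rw [← hd]
    exact (hC.continuous_deriv le_rfl).integrable_of_hasCompactSupport hS.deriv
  · rw [← hd]
    exact hS.integral_Iic_deriv_eq hC c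
  · rw [← hd, integral_Ici_eq_integral_Ioi]
    exact hS.integral_Ioi_deriv_eq hC c

end OD3

theorem pOD3 : S_OD3 := by
  intro α f g a h hf c
  have hfc := OD3.cont h
  have hgc := h.cont
  obtain ⟨hI, hJ⟩ := OD3.ibp h hf
  constructor
  · have e : (fun t => ‖g t‖ ^ 2 + α ^ 2 / 4 * ‖f t‖ ^ 2) = fun t => α / 2 * (2 * inner ℝ (f t) (g t)) +
        ‖g t - ((α / 2 : ℝ) : ℂ) * f t‖ ^ 2 := by
      funext t
      have := OD3.norm_sq_add (f t) (g t) (-(α / 2))
      rw [Complex.ofReal_neg, neg_mul, ← sub_eq_add_neg] at this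
      rw [this]
      ring
    have hI2 : Integrable (fun t => ‖g t - ((α / 2 : ℝ) : ℂ) * f t‖ ^ 2) := by
      have := OD3.integrable h hf 0 0 1 (-(α / 2))
      refine this.congr (Filter.Eventually.of_forall fun t => ?_)
      simp only [Complex.ofReal_neg, neg_mul, ← sub_eq_add_neg]
      ring
    rw [e, integral_add (hI.const_mul _).integrableOn hI2.integrableOn, integral_const_mul, (hJ c).1]
  · have e : (fun t => ‖g t‖ ^ 2 + α ^ 2 / 4 * ‖f t‖ ^ 2) = fun t => -(α / 2) * (2 * inner ℝ (f t) (g t)) +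
        ‖g t + ((α / 2 : ℝ) : ℂ) * f t‖ ^ 2 := by
      funext t
      rw [OD3.norm_sq_add (f t) (g t) (α / 2)]
      ring
    have hI2 : Integrable (fun t => ‖g t + ((α / 2 : ℝ) : ℂ) * f t‖ ^ 2) := by
      have := OD3.integrable h hf 0 0 1 (α / 2)
      refine this.congr (Filter.Eventually.of_forall fun t => ?_)
      ring
    rw [e, integral_add (hI.const_mul _).integrableOn hI2.integrableOn, integral_const_mul, (hJ c).2]
    ring

end Pool.Agent.T2H04.LC
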