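import Pool.Agent.T2H04.LC.Stm

/-!
# LC, package OD4: the truncated half line inequality
-/

open MeasureTheory Set Filter Topology

namespace Pool.Agent.T2H04.LC

namespace OD4

theorem inner_I (a : ℝ) (z : ℂ) : inner ℝ z (Complex.I * (a : ℂ) * z) = 0 := by
  simp only [Complex.inner, Complex.mul_re, Complex.mul_im, Complex.conj_re, Complex.conj_im, Complex.I_re,
    Complex.I_im, Complex.ofReal_re, Complex.ofReal_im]
  ring

theorem der_sq {f g : ℝ → ℂ} {a : ℝ → ℝ} (h : Lin f g a) (t : ℝ) :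
    HasDerivAt (fun τ => ‖f τ‖ ^ 2) (2 * inner ℝ (f t) (g t)) t := by
  have h1 := (h.der t).norm_sq
  rw [inner_add_right, inner_I, add_zero] at h1
  exact h1

theorem norm_sq_add (z w : ℂ) (κ : ℝ) :
    ‖w + (κ : ℂ) * z‖ ^ 2 = ‖w‖ ^ 2 + κ ^ 2 * ‖z‖ ^ 2 + κ * (2 * inner ℝ z w) := by
  simp only [← Complex.normSq_eq_norm_sq, Complex.normSq_apply, Complex.add_re, Complex.add_im, Complex.mul_re,
    Complex.mul_im, Complex.ofReal_re, Complex.ofReal_im, Complex.inner, Complex.conj_re, Complex.conj_im]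
  ring

theorem hasDerivAt_tanh (x : ℝ) : HasDerivAt Real.tanh (1 - Real.tanh x ^ 2) x := by
  have h1 := (Real.hasDerivAt_sinh x).div (Real.hasDerivAt_cosh x) (Real.cosh_pos x).ne'
  have h2 : Real.tanh = fun y => Real.sinh y / Real.cosh y := by
    funext y
    exact Real.tanh_eq_sinh_div_cosh y
  rw [h2]
  have h3 : (Real.cosh x * Real.cosh x - Real.sinh x * Real.sinh x) / Real.cosh x ^ 2 =
      1 - (Real.sinh x / Real.cosh x) ^ 2 := by
    have := (Real.cosh_pos x).ne'
    field_simp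
  rw [h3] at h1
  exact h1

theorem der_k (α c T t : ℝ) :
    HasDerivAt (fun τ => α / 2 * Real.tanh (α * (c + T - τ) / 2))
      (-(α ^ 2 / 4) * (1 - Real.tanh (α * (c + T - t) / 2) ^ 2)) t := by
  have h1 : HasDerivAt (fun τ => α * (c + T - τ) / 2) (-(α / 2)) t := by
    have := (((hasDerivAt_id t).const_sub (c + T)).const_mul α).div_const 2
    have e : α * -1 / 2 = -(α / 2) := by ring
    rw [e] at this
    exact this
  have h2 := ((hasDerivAt_tanh (α * (c + T - t) / 2)).comp t h1).const_mul (α / 2)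
  have e : α / 2 * ((1 - Real.tanh (α * (c + T - t) / 2) ^ 2) * -(α / 2)) =
      -(α ^ 2 / 4) * (1 - Real.tanh (α * (c + T - t) / 2) ^ 2) := by ring
  rw [e] at h2
  exact h2

end OD4

theorem pOD4 : S_OD4 := by
  intro α hα f g a h c T hT
  have hfc : Continuous f := continuous_iff_continuousAt.2 fun t => (h.der t).continuousAt
  have hgc := h.cont
  have hth : Continuous Real.tanh :=
    continuous_iff_continuousAt.2 fun t => (OD4.hasDerivAt_tanh t).continuousAt
  set k : ℝ → ℝ := fun τ => α / 2 * Real.tanh (α * (c + T - τ) / 2) with hk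
  have hkc : Continuous k := by
    rw [hk]
    fun_prop
  have hd : ∀ t, HasDerivAt (fun τ => k τ * ‖f τ‖ ^ 2)
      (-(α ^ 2 / 4) * (1 - Real.tanh (α * (c + T - t) / 2) ^ 2) * ‖f t‖ ^ 2 +
        k t * (2 * inner ℝ (f t) (g t))) t := fun t => (OD4.der_k α c T t).mul (OD4.der_sq h t)
  have hic : Continuous (fun t => inner ℝ (f t) (g t)) := hfc.inner hgc
  have hc1 : Continuous (fun t => -(α ^ 2 / 4) * (1 - Real.tanh (α * (c + T - t) / 2) ^ 2) * ‖f t‖ ^ 2 +
        k t * (2 * inner ℝ (f t) (g t))) := by fun_prop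
  have h1 := intervalIntegral.integral_eq_sub_of_hasDerivAt (a := c) (b := c + T) (fun t _ => hd t)
    (hc1.intervalIntegrable _ _)
  have hct : c ≤ c + T := by linarith
  have h2 : 0 ≤ ∫ t in c..(c + T), ‖g t + (k t : ℂ) * f t‖ ^ 2 :=
    intervalIntegral.integral_nonneg hct fun t _ => sq_nonneg _
  have h3 : (fun t => ‖g t + (k t : ℂ) * f t‖ ^ 2) = fun t => (‖g t‖ ^ 2 + α ^ 2 / 4 * ‖f t‖ ^ 2) +
      (-(α ^ 2 / 4) * (1 - Real.tanh (α * (c + T - t) / 2) ^ 2) * ‖f t‖ ^ 2 +
        k t * (2 * inner ℝ (f t) (g t))) := by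
    funext t
    rw [OD4.norm_sq_add]
    simp only [hk]
    ring
  rw [h3, intervalIntegral.integral_add (Continuous.intervalIntegrable (by fun_prop) _ _)
    (hc1.intervalIntegrable _ _), h1] at h2
  have h4 : k (c + T) = 0 := by simp [hk]
  have h5 : k c = α / 2 * Real.tanh (α * T / 2) := by
    simp only [hk]
    congr 3
    ring
  rw [h4, h5] at h2
  linarith

end Pool.Agent.T2H04.LC
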