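import Pool.Agent.T2H04.LC.Stm

/-!
# Project LC (MP_60200f_mp): package R2, slices orthogonal to the right half line
-/

open MeasureTheory Set Filter Topology

namespace Pool.Agent.T2H04.LC

noncomputable section

namespace R2

/-- The isometric coordinates `(s, t) ↦ p + s T + t (σ N)`. -/
def Phi (p : ℝ × ℝ) (θ σ : ℝ) (z : ℝ × ℝ) : ℝ × ℝ := p + z.1 • TT θ + z.2 • (σ • NN θ)

lemma Phi_eq (p : ℝ × ℝ) (θ σ : ℝ) (z : ℝ × ℝ) :
    Phi p θ σ z = (p.1 + z.1 * Real.cos θ - z.2 * (σ * Real.sin θ),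
      p.2 + z.1 * Real.sin θ + z.2 * (σ * Real.cos θ)) := by
  unfold Phi TT NN
  ext
  · simp
    ring
  · simp

/-- `Phi` as a homeomorphism. -/
def PhiH (p : ℝ × ℝ) (θ σ : ℝ) (hσ : σ * σ = 1) : (ℝ × ℝ) ≃ₜ (ℝ × ℝ) where
  toFun := Phi p θ σ
  invFun := fun z => ((z.1 - p.1) * Real.cos θ + (z.2 - p.2) * Real.sin θ,
    σ * (-(z.1 - p.1) * Real.sin θ + (z.2 - p.2) * Real.cos θ))
  left_inv := by
    intro z
    have h := Real.sin_sq_add_cos_sq θ
    rw [Phi_eq]
    ext
    · simp only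
      linear_combination z.1 * h
    · simp only
      linear_combination z.2 * σ * σ * h + z.2 * hσ
  right_inv := by
    intro z
    have h := Real.sin_sq_add_cos_sq θ
    rw [Phi_eq]
    ext
    · simp only
      linear_combination (z.1 - p.1) * h + (((z.1 - p.1) * Real.sin θ - (z.2 - p.2) * Real.cos θ) * Real.sin θ) * hσ
    · simp only
      linear_combination (z.2 - p.2) * h - (((z.1 - p.1) * Real.sin θ - (z.2 - p.2) * Real.cos θ) * Real.cos θ) * hσ
  continuous_toFun := by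
    have : Phi p θ σ = fun z => (p.1 + z.1 * Real.cos θ - z.2 * (σ * Real.sin θ),
      p.2 + z.1 * Real.sin θ + z.2 * (σ * Real.cos θ)) := by
      funext z; exact Phi_eq p θ σ z
    rw [this]
    fun_prop
  continuous_invFun := by fun_prop

lemma Phi_mp (p : ℝ × ℝ) (θ σ : ℝ) (hσ : σ * σ = 1) :
    MeasurePreserving (Phi p θ σ) volume volume := by
  set L : (ℝ × ℝ) →ₗ[ℝ] (ℝ × ℝ) := Matrix.toLin (Module.Basis.finTwoProd ℝ) (Module.Basis.finTwoProd ℝ)
    !![Real.cos θ, -(σ * Real.sin θ); Real.sin θ, σ * Real.cos θ] with hL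
  have hdet : LinearMap.det L = σ := by
    rw [hL, LinearMap.det_toLin, Matrix.det_fin_two_of]
    have h := Real.sin_sq_add_cos_sq θ
    linear_combination σ * h
  have hne : σ ≠ 0 := by
    rintro rfl
    simp at hσ
  have habs : |σ| = 1 := by
    rcases mul_self_eq_one_iff.mp hσ with h | h <;> simp [h]
  have h1 : MeasurePreserving (L : ℝ × ℝ → ℝ × ℝ) volume volume := by
    refine ⟨?_, ?_⟩
    · exact (LinearMap.continuous_of_finiteDimensional L).measurable
    · rw [MeasureTheory.Measure.map_linearMap_addHaar_eq_smul_addHaar volume (by rw [hdet]; exact hne), hdet,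
        abs_inv, habs]
      simp
  have h2 : Phi p θ σ = (fun z => p + z) ∘ (L : ℝ × ℝ → ℝ × ℝ) := by
    funext z
    rw [Phi_eq, Function.comp, hL, Matrix.toLin_finTwoProd_apply]
    ext
    · simp
      ring
    · simp
      ring
  rw [h2]
  exact (measurePreserving_add_left volume p).comp h1

lemma Phi_emb (p : ℝ × ℝ) (θ σ : ℝ) (hσ : σ * σ = 1) : MeasurableEmbedding (Phi p θ σ) :=
  (PhiH p θ σ hσ).measurableEmbedding

lemma Phi_cont (p : ℝ × ℝ) (θ σ : ℝ) (hσ : σ * σ = 1) : Continuous (Phi p θ σ) :=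
  (PhiH p θ σ hσ).continuous

/-- Fubini on `{(s, t) | 0 < s, t < k s}`. -/
lemma fub (G : ℝ × ℝ → ℝ) (hG : Integrable G) (k : ℝ) :
    Integrable (fun s => ∫ t in Iio (s * k), G (s, t)) (volume.restrict (Ioi (0 : ℝ))) ∧
    (∫ z in {z : ℝ × ℝ | 0 < z.1 ∧ z.2 < z.1 * k}, G z) =
      ∫ s in Ioi (0 : ℝ), ∫ t in Iio (s * k), G (s, t) := by
  set W : Set (ℝ × ℝ) := {z : ℝ × ℝ | 0 < z.1 ∧ z.2 < z.1 * k} with hW
  have hWm : MeasurableSet W := by
    have h1 : MeasurableSet {z : ℝ × ℝ | 0 < z.1} := measurableSet_lt measurable_const measurable_fst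
    have h2 : MeasurableSet {z : ℝ × ℝ | z.2 < z.1 * k} :=
      measurableSet_lt measurable_snd (measurable_fst.mul_const k)
    exact h1.inter h2
  have hI : Integrable (W.indicator G) (volume.prod volume) := by
    rw [← MeasureTheory.Measure.volume_eq_prod]
    exact hG.indicator hWm
  have hs : ∀ s : ℝ, (∫ t, W.indicator G (s, t)) = (Ioi (0 : ℝ)).indicator
      (fun s => ∫ t in Iio (s * k), G (s, t)) s := by
    intro s
    by_cases h : 0 < s
    · rw [indicator_of_mem (show s ∈ Ioi (0 : ℝ) from h), ← integral_indicator measurableSet_Iio]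
      congr 1
      funext t
      by_cases ht : t < s * k
      · rw [indicator_of_mem (show (s, t) ∈ W from ⟨h, ht⟩), indicator_of_mem (show t ∈ Iio (s * k) from ht)]
      · rw [indicator_of_notMem (show (s, t) ∉ W from fun h' => ht h'.2),
          indicator_of_notMem (show t ∉ Iio (s * k) from ht)]
    · rw [indicator_of_notMem (show s ∉ Ioi (0 : ℝ) from h)]
      have : ∀ t, W.indicator G (s, t) = 0 := fun t =>
        indicator_of_notMem (show (s, t) ∉ W from fun h' => h h'.1) _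
      simp [this]
  have hfun : (fun s => ∫ t, W.indicator G (s, t)) = (Ioi (0 : ℝ)).indicator
      (fun s => ∫ t in Iio (s * k), G (s, t)) := funext hs
  refine ⟨?_, ?_⟩
  · have h := hI.integral_prod_left
    rw [hfun] at h
    exact (integrable_indicator_iff measurableSet_Ioi).1 h
  · rw [← integral_indicator hWm, MeasureTheory.Measure.volume_eq_prod, integral_prod _ hI]
    rw [hfun, integral_indicator measurableSet_Ioi]

/-- A continuous function of compact support times a function of `s` alone. -/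
lemma intH (H : ℝ × ℝ → ℝ) (hc : Continuous H) (hs : HasCompactSupport H) (e : ℝ → ℝ) (he : Continuous e)
    (ℓ : ℝ) (hℓ : 0 < ℓ) :
    Integrable (fun s => e s * ∫ t in (-ℓ)..0, H (s, t)) (volume.restrict (Ioi (0 : ℝ))) := by
  have hc' : Continuous (fun z : ℝ × ℝ => e z.1 * H z) := (he.comp continuous_fst).mul hc
  have hs' : HasCompactSupport (fun z : ℝ × ℝ => e z.1 * H z) := hs.mul_left
  have hI : Integrable (fun z : ℝ × ℝ => e z.1 * H z) volume := hc'.integrable_of_hasCompactSupport hs'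
  have hI2 : Integrable (fun z : ℝ × ℝ => e z.1 * H z)
      ((volume.restrict (Ioi (0 : ℝ))).prod (volume.restrict (Ioc (-ℓ) 0))) := by
    rw [MeasureTheory.Measure.prod_restrict, ← MeasureTheory.Measure.volume_eq_prod]
    exact hI.restrict
  have h := hI2.integral_prod_left
  refine h.congr (Eventually.of_forall ?_)
  intro s
  simp only
  rw [intervalIntegral.integral_of_le (by linarith), integral_const_mul]

end R2

open R2 in
theorem pR2 (hLIN : S_LIN) (hGEO2 : S_GEO2) : S_R2 := by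
  intro α ℓ C hα hℓ hC hSLI a b δ θ X Y hgeo A u hu S hbS
  obtain ⟨hcos, -, hsin, -, -, -, -, -, -, haff⟩ := hGEO2 a b δ θ X Y hgeo
  obtain ⟨hlin, hcs, hDcs, hDsm, hframe⟩ := hLIN A u hu
  have hδ := hgeo.pos
  have hθb := hgeo.bd b
  have hδ2 := hgeo.small
  have hcb := hcos b
  -- the choice of `σ`
  obtain ⟨σ, hσ, hσθ⟩ : ∃ σ : ℝ, (σ = 1 ∨ σ = -1) ∧ 0 ≤ σ * θ b := by
    rcases le_total 0 (θ b) with h | h
    · exact ⟨1, Or.inl rfl, by linarith⟩
    · exact ⟨-1, Or.inr rfl, by linarith⟩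
  refine ⟨σ, hσ, hσθ, ?_⟩
  have hσσ : σ * σ = 1 := by rcases hσ with h | h <;> simp [h]
  have hσabs : |σ| = 1 := by rcases hσ with h | h <;> simp [h]
  have hσsin : σ * Real.sin (θ b) = |Real.sin (θ b)| := by
    have hpi : (1 : ℝ) / 2 ≤ Real.pi := by linarith [Real.pi_gt_three]
    rcases hσ with h | h
    · subst h
      have h0 : 0 ≤ θ b := by linarith
      have : 0 ≤ Real.sin (θ b) := Real.sin_nonneg_of_nonneg_of_le_pi h0 (by linarith [le_abs_self (θ b)])
      rw [abs_of_nonneg this, one_mul]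
    · subst h
      have h0 : θ b ≤ 0 := by linarith
      have : Real.sin (θ b) ≤ 0 := Real.sin_nonpos_of_nonpos_of_neg_pi_le h0 (by linarith [neg_abs_le (θ b)])
      rw [abs_of_nonpos this]
      ring
  set p : ℝ × ℝ := (X S, Y S) with hp
  set F1 : ℝ × ℝ → ℝ := fun z => ‖DD A u (TT (θ b)) z‖ ^ 2 with hF1
  set F2 : ℝ × ℝ → ℝ := fun z => ‖DD A u (σ • NN (θ b)) z‖ ^ 2 + α ^ 2 / 4 * ‖u z‖ ^ 2 with hF2
  have hQ : ∀ z, QQ A u α z = F1 z + F2 z := by
    intro z
    have h1 : ‖DD A u (σ • NN (θ b)) z‖ = ‖DD A u (NN (θ b)) z‖ := by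
      rw [hDsm σ (NN (θ b)) z, norm_mul, Complex.norm_real, Real.norm_eq_abs, hσabs, one_mul]
    have h2 := hframe (θ b) z
    simp only [hF1, hF2, h1]
    unfold QQ
    linarith
  have hF1c : Continuous F1 := ((hu.cont _).norm).pow 2
  have huc : Continuous u := hu.smooth.continuous
  have hF2c : Continuous F2 := (((hu.cont _).norm).pow 2).add (continuous_const.mul (huc.norm.pow 2))
  have hF1s : HasCompactSupport F1 := (hDcs (TT (θ b))).comp_left (g := fun w : ℂ => ‖w‖ ^ 2) (by simp)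
  have hus : HasCompactSupport (fun z => ‖u z‖ ^ 2) := hu.supp.comp_left (g := fun w : ℂ => ‖w‖ ^ 2) (by simp)
  have hF2s : HasCompactSupport F2 :=
    ((hDcs (σ • NN (θ b))).comp_left (g := fun w : ℂ => ‖w‖ ^ 2) (by simp)).add
      (hu.supp.comp_left (g := fun w : ℂ => α ^ 2 / 4 * ‖w‖ ^ 2) (by simp))
  have hF1i : Integrable F1 := hF1c.integrable_of_hasCompactSupport hF1s
  have hF2i : Integrable F2 := hF2c.integrable_of_hasCompactSupport hF2s
  have hF20 : ∀ z, 0 ≤ F2 z := by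
    intro z
    simp only [hF2]
    positivity
  set HP : Set (ℝ × ℝ) := {z : ℝ × ℝ | X S < z.1} with hHP
  have hHPm : MeasurableSet HP := measurableSet_lt measurable_const measurable_fst
  have hsplit : (∫ z in HP, QQ A u α z) = (∫ z in HP, F1 z) + ∫ z in HP, F2 z := by
    rw [← integral_add hF1i.integrableOn hF2i.integrableOn]
    exact integral_congr_ae (Eventually.of_forall fun z => hQ z)
  -- change of variables
  set Φ := Phi p (θ b) σ with hΦ
  have hmp := Phi_mp p (θ b) σ hσσ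
  have hemb := Phi_emb p (θ b) σ hσσ
  have hcontΦ := Phi_cont p (θ b) σ hσσ
  have hcv : (∫ z in HP, F2 z) = ∫ z in Φ ⁻¹' HP, F2 (Φ z) := (hmp.setIntegral_preimage_emb hemb F2 HP).symm
  have hGi : Integrable (fun z => F2 (Φ z)) := (hmp.integrable_comp_emb hemb).2 hF2i
  set k : ℝ := 1 / (2 * δ) with hk
  have hkpos : 0 < k := by positivity
  set W : Set (ℝ × ℝ) := {z : ℝ × ℝ | 0 < z.1 ∧ z.2 < z.1 * k} with hW
  have hWsub : W ⊆ Φ ⁻¹' HP := by
    rintro ⟨s, t⟩ ⟨hs, ht⟩
    simp only at hs ht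
    show X S < (Φ (s, t)).1
    rw [hΦ, Phi_eq]
    simp only [hp, hσsin]
    have h1 := hsin b
    rcases (abs_nonneg (Real.sin (θ b))).eq_or_lt with h0 | h0
    · rw [← h0]
      have : 0 < s * Real.cos (θ b) := by positivity
      linarith
    · have h2 : t * |Real.sin (θ b)| < s * k * |Real.sin (θ b)| := mul_lt_mul_of_pos_right ht h0
      have h3 : s * k * |Real.sin (θ b)| ≤ s * k * (2 * δ * Real.cos (θ b)) :=
        mul_le_mul_of_nonneg_left h1 (by positivity)
      have h4 : s * k * (2 * δ * Real.cos (θ b)) = s * Real.cos (θ b) := by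
        rw [hk]
        field_simp
      linarith
  have hge : (∫ z in W, F2 (Φ z)) ≤ ∫ z in HP, F2 z := by
    rw [hcv]
    exact setIntegral_mono_set hGi.integrableOn (Eventually.of_forall fun z => hF20 _)
      (LE.le.eventuallyLE hWsub)
  obtain ⟨hfi, hfe⟩ := fub (fun z => F2 (Φ z)) hGi k
  -- the pointwise slice inequality
  have hNN : σ • NN (θ b) ≠ 0 := by
    intro h
    have h2 := congrArg Prod.snd h
    simp only [NN, Prod.smul_mk, smul_eq_mul, Prod.snd_zero] at h2
    rcases mul_eq_zero.1 h2 with h3 | h3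
    · rw [h3] at hσabs
      simp at hσabs
    · linarith
  have hTT : TT (θ b) ≠ 0 := by
    intro h
    have h2 := congrArg Prod.fst h
    simp only [TT, Prod.fst_zero] at h2
    linarith
  have hpt : ∀ s : ℝ, 0 < s → α * ‖u (p + s • TT (θ b))‖ ^ 2 ≤
      (∫ t in Iio (s * k), F2 (Φ (s, t))) + C * (Real.exp (-(α * (s / (2 * δ)))) *
        ∫ t in (-ℓ)..0, ‖u (p + s • TT (θ b) + t • (σ • NN (θ b)))‖ ^ 2) := by
    intro s hs
    have h := hSLI _ _ _ (hlin (p + s • TT (θ b)) (σ • NN (θ b))) (hcs (p + s • TT (θ b)) (σ • NN (θ b)) hNN)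
      (s / (2 * δ)) (by positivity)
    simp only [zero_smul, add_zero] at h
    rw [integral_Iic_eq_integral_Iio] at h
    have h5 : s / (2 * δ) = s * k := by rw [hk]; ring
    rw [h5] at h ⊢
    rw [mul_assoc] at h
    exact h
  -- integrate
  have hL : α * (∫ s in Ioi S, ‖u (X s, Y s)‖ ^ 2) = ∫ s in Ioi (0 : ℝ), α * ‖u (p + s • TT (θ b))‖ ^ 2 := by
    rw [← integral_const_mul]
    have h := (measurePreserving_add_left (volume : Measure ℝ) S).setIntegral_preimage_emb
      (measurableEmbedding_addLeft S) (fun s => α * ‖u (X s, Y s)‖ ^ 2) (Ioi S)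
    rw [← h]
    have hpre : (fun x => S + x) ⁻¹' Ioi S = Ioi 0 := by
      rw [preimage_const_add_Ioi, sub_self]
    rw [hpre]
    refine setIntegral_congr_fun measurableSet_Ioi ?_
    intro r hr
    simp only
    obtain ⟨hx, hy⟩ := haff S r hbS (le_of_lt hr)
    have : (X (S + r), Y (S + r)) = p + r • TT (θ b) := by
      rw [hx, hy, hp]
      ext
      · simp [TT]
      · simp [TT]
    rw [this]
  have hLi : Integrable (fun s : ℝ => α * ‖u (p + s • TT (θ b))‖ ^ 2) (volume.restrict (Ioi (0 : ℝ))) := by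
    have h1 : Continuous (fun s : ℝ => α * ‖u (p + s • TT (θ b))‖ ^ 2) := by
      have : Continuous (fun s : ℝ => u (p + s • TT (θ b))) := huc.comp (by fun_prop)
      exact continuous_const.mul (this.norm.pow 2)
    have h2 : HasCompactSupport (fun s : ℝ => α * ‖u (p + s • TT (θ b))‖ ^ 2) :=
      (hcs p (TT (θ b)) hTT).comp_left (g := fun w : ℂ => α * ‖w‖ ^ 2) (by simp)
    exact (h1.integrable_of_hasCompactSupport h2).restrict
  have hHc : Continuous (fun z => ‖u (Φ z)‖ ^ 2) := (huc.comp hcontΦ).norm.pow 2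
  have hHs : HasCompactSupport (fun z => ‖u (Φ z)‖ ^ 2) :=
    hus.comp_homeomorph (PhiH p (θ b) σ hσσ)
  have hHi : Integrable (fun s : ℝ => Real.exp (-(α * (s / (2 * δ)))) *
      ∫ t in (-ℓ)..0, ‖u (p + s • TT (θ b) + t • (σ • NN (θ b)))‖ ^ 2) (volume.restrict (Ioi (0 : ℝ))) :=
    intH (fun z => ‖u (Φ z)‖ ^ 2) hHc hHs (fun s => Real.exp (-(α * (s / (2 * δ))))) (by fun_prop) ℓ hℓ
  have hfin : (∫ s in Ioi (0 : ℝ), α * ‖u (p + s • TT (θ b))‖ ^ 2) ≤
      ∫ s in Ioi (0 : ℝ), ((∫ t in Iio (s * k), F2 (Φ (s, t))) + C * (Real.exp (-(α * (s / (2 * δ)))) *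
        ∫ t in (-ℓ)..0, ‖u (p + s • TT (θ b) + t • (σ • NN (θ b)))‖ ^ 2)) := by
    refine setIntegral_mono_on hLi (hfi.add (hHi.const_mul C)) measurableSet_Ioi ?_
    intro s hs
    exact hpt s hs
  rw [integral_add hfi (hHi.const_mul C), integral_const_mul C] at hfin
  rw [hsplit, hL]
  have hfe' : (∫ z in W, F2 (Φ z)) = ∫ s in Ioi (0 : ℝ), ∫ t in Iio (s * k), F2 (Φ (s, t)) := hfe
  rw [hfe'] at hge
  have hF1' : integral (volume.restrict HP) F1 = ∫ z in HP, F1 z := rfl
  linarith [hF1']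

end

end Pool.Agent.T2H04.LC
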