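import Pool.Agent.T2H04.LC.Stm

/-!
# Project LC, package REG: a regular magnetic field has a nontrivial holonomy on small squares
-/

open MeasureTheory Set Filter Topology

namespace Pool.Agent.T2H04.LC

noncomputable section

namespace REG

lemma cont_curl (A : ℝ × ℝ → ℝ × ℝ) (hA : ContDiff ℝ 1 A) : Continuous (curl A) := by
  have h : Continuous (fderiv ℝ A) := hA.continuous_fderiv (by norm_num)
  have h1 : Continuous (fun z => fderiv ℝ A z ((1, 0) : ℝ × ℝ)) := h.clm_apply continuous_const
  have h2 : Continuous (fun z => fderiv ℝ A z ((0, 1) : ℝ × ℝ)) := h.clm_apply continuous_const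
  exact h1.snd.sub h2.fst

/-- Green on a rectangle. -/
lemma green (A : ℝ × ℝ → ℝ × ℝ) (hA : ContDiff ℝ 1 A) (x y l : ℝ) :
    (∫ s in x..(x + l), ∫ t in y..(y + l), curl A (s, t)) =
      ((∫ σ in x..(x + l), (A (σ, y)).1) + ∫ τ in y..(y + l), (A (x + l, τ)).2) -
      ((∫ τ in y..(y + l), (A (x, τ)).2) + ∫ σ in x..(x + l), (A (σ, y + l)).1) := by
  have hd : ∀ z, HasFDerivAt A (fderiv ℝ A z) z := fun z =>
    ((hA.differentiable (by norm_num)) z).hasFDerivAt
  have key := integral2_divergence_prod_of_hasFDerivAt_off_countable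
    (fun z => (A z).2) (fun z => -(A z).1)
    (fun z => (ContinuousLinearMap.snd ℝ ℝ ℝ).comp (fderiv ℝ A z))
    (fun z => -(ContinuousLinearMap.fst ℝ ℝ ℝ).comp (fderiv ℝ A z))
    x y (x + l) (y + l) ∅ Set.countable_empty
    (hA.continuous.snd.continuousOn) (hA.continuous.fst.neg.continuousOn)
    (fun z _ => (ContinuousLinearMap.snd ℝ ℝ ℝ).hasFDerivAt.comp z (hd z))
    (fun z _ => ((ContinuousLinearMap.fst ℝ ℝ ℝ).hasFDerivAt.comp z (hd z)).neg)
    (by
      have hc : Continuous (fun z => curl A z) := cont_curl A hA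
      have : (fun z : ℝ × ℝ => ((ContinuousLinearMap.snd ℝ ℝ ℝ).comp (fderiv ℝ A z)) (1, 0) +
          (-(ContinuousLinearMap.fst ℝ ℝ ℝ).comp (fderiv ℝ A z)) (0, 1)) = fun z => curl A z := by
        funext z
        simp [curl, sub_eq_add_neg]
      rw [this]
      exact hc.continuousOn.integrableOn_compact (isCompact_uIcc.prod isCompact_uIcc))
  have e1 : (∫ s in x..(x + l), ∫ t in y..(y + l), curl A (s, t)) =
      ∫ s in x..(x + l), ∫ t in y..(y + l),
        (((ContinuousLinearMap.snd ℝ ℝ ℝ).comp (fderiv ℝ A (s, t))) (1, 0) +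
          (-(ContinuousLinearMap.fst ℝ ℝ ℝ).comp (fderiv ℝ A (s, t))) (0, 1)) := by
    simp [curl, sub_eq_add_neg]
  rw [e1, key, intervalIntegral.integral_neg, intervalIntegral.integral_neg]
  ring

lemma bound (A : ℝ × ℝ → ℝ × ℝ) (hA : ContDiff ℝ 1 A) (x y l B e : ℝ) (hl : 0 < l)
    (h : ∀ s ∈ Icc x (x + l), ∀ t ∈ Icc y (y + l), |curl A (s, t) - B| ≤ e) :
    |(∫ s in x..(x + l), ∫ t in y..(y + l), curl A (s, t)) - l * (l * B)| ≤ e * l * l := by
  have hc := cont_curl A hA
  have hin : ∀ s, (∫ t in y..(y + l), curl A (s, t)) - l * B = ∫ t in y..(y + l), (curl A (s, t) - B) := by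
    intro s
    rw [intervalIntegral.integral_sub]
    · simp
    · exact (hc.comp (by fun_prop : Continuous fun t : ℝ => (s, t))).intervalIntegrable _ _
    · exact intervalIntegrable_const
  have hcs : Continuous (fun s => ∫ t in y..(y + l), curl A (s, t)) := by
    apply intervalIntegral.continuous_parametric_intervalIntegral_of_continuous' (f := fun s t => curl A (s, t))
    exact hc
  have h1 : (∫ s in x..(x + l), ∫ t in y..(y + l), curl A (s, t)) - l * (l * B) =
      ∫ s in x..(x + l), ((∫ t in y..(y + l), curl A (s, t)) - l * B) := by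
    rw [intervalIntegral.integral_sub]
    · simp
    · exact hcs.intervalIntegrable _ _
    · exact intervalIntegrable_const
  rw [h1]
  have h2 := intervalIntegral.norm_integral_le_of_norm_le_const (a := x) (b := x + l) (C := e * l)
    (f := fun s => (∫ t in y..(y + l), curl A (s, t)) - l * B) (by
      intro s hs
      rw [uIoc_of_le (by linarith)] at hs
      have hs' : s ∈ Icc x (x + l) := ⟨hs.1.le, hs.2⟩
      rw [hin s]
      have h3 := intervalIntegral.norm_integral_le_of_norm_le_const (a := y) (b := y + l) (C := e)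
        (f := fun t => curl A (s, t) - B) (by
          intro t ht
          rw [uIoc_of_le (by linarith)] at ht
          exact h s hs' t ⟨ht.1.le, ht.2⟩)
      simpa [abs_of_pos hl] using h3)
  simpa [abs_of_pos hl] using h2

lemma exp_bound (p q : ℝ) (h : |p - q| ≤ 1) :
    2 / Real.pi * |p - q| ≤ ‖Complex.exp (Complex.I * (p : ℂ)) - Complex.exp (Complex.I * (q : ℂ))‖ := by
  have e1 : Complex.exp (Complex.I * (p : ℂ)) - Complex.exp (Complex.I * (q : ℂ)) =
      Complex.exp (Complex.I * (q : ℂ)) * (Complex.exp (Complex.I * ((p - q : ℝ) : ℂ)) - 1) := by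
    rw [mul_sub, mul_one, ← Complex.exp_add]
    congr 2
    push_cast
    ring
  have e2 : ‖Complex.exp (Complex.I * (q : ℂ))‖ = 1 := by
    rw [mul_comm]
    exact Complex.norm_exp_ofReal_mul_I q
  rw [e1, norm_mul, e2, one_mul, Complex.norm_exp_I_mul_ofReal_sub_one, norm_mul]
  have h3 : (2 : ℝ) / Real.pi * (|p - q| / 2) ≤ Real.sin (|p - q| / 2) := by
    apply Real.mul_le_sin (by positivity)
    have := Real.pi_gt_three
    linarith
  have h4 : |Real.sin ((p - q) / 2)| = Real.sin (|p - q| / 2) := by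
    rcases abs_cases (p - q) with ⟨h5, h6⟩ | ⟨h5, h6⟩
    · rw [h5]
      apply abs_of_nonneg
      apply Real.sin_nonneg_of_nonneg_of_le_pi (by linarith)
      have := Real.pi_gt_three
      linarith [abs_le.mp h]
    · rw [h5]
      have : -(p - q) / 2 = - ((p - q) / 2) := by ring
      rw [this, Real.sin_neg]
      apply abs_of_nonpos
      have h7 : 0 ≤ Real.sin (-((p - q) / 2)) := by
        apply Real.sin_nonneg_of_nonneg_of_le_pi (by linarith)
        have := Real.pi_gt_three
        linarith [abs_le.mp h]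
      rw [Real.sin_neg] at h7
      linarith
  have h5 : ‖(2 : ℝ)‖ = 2 := by norm_num
  rw [h5, Real.norm_eq_abs, h4]
  have : (2 : ℝ) / Real.pi * |p - q| = 2 * (2 / Real.pi * (|p - q| / 2)) := by ring
  rw [this]
  linarith

/-- The construction for a point off the axis. -/
lemma main (A : ℝ × ℝ → ℝ × ℝ) (hA : ContDiff ℝ 1 A) (z0 : ℝ × ℝ) (hz : curl A z0 ≠ 0) (h0 : z0.2 ≠ 0) :
    ∃ x1 x2 y1 y2 l1 l2 c : ℝ, Hol A x1 x2 y1 y2 l1 l2 c ∧ (0 < y1 ∨ y2 + l2 < 0) := by
  have hc := cont_curl A hA
  have hB : 0 < |curl A z0| := abs_pos.mpr hz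
  obtain ⟨d, hd, hd'⟩ := Metric.continuousAt_iff.mp (hc.continuousAt (x := z0)) (|curl A z0| / 2) (by positivity)
  have h0' : 0 < |z0.2| := abs_pos.mpr h0
  obtain ⟨l, hl, hl1, hl2, hl3, hl4⟩ : ∃ l : ℝ, 0 < l ∧ 2 * l < d ∧ 2 * l < |z0.2| ∧ l ≤ 1 ∧
      2 * |curl A z0| * l ≤ 1 := by
    refine ⟨min (min (d / 4) (|z0.2| / 4)) (min 1 (1 / (2 * |curl A z0|))), ?_, ?_, ?_, ?_, ?_⟩
    · refine lt_min (lt_min (by positivity) (by positivity)) (lt_min one_pos (by positivity))
    · have : min (min (d / 4) (|z0.2| / 4)) (min 1 (1 / (2 * |curl A z0|))) ≤ d / 4 :=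
        (min_le_left _ _).trans (min_le_left _ _)
      linarith
    · have : min (min (d / 4) (|z0.2| / 4)) (min 1 (1 / (2 * |curl A z0|))) ≤ |z0.2| / 4 :=
        (min_le_left _ _).trans (min_le_right _ _)
      linarith
    · exact (min_le_right _ _).trans (min_le_left _ _)
    · have : min (min (d / 4) (|z0.2| / 4)) (min 1 (1 / (2 * |curl A z0|))) ≤ 1 / (2 * |curl A z0|) :=
        (min_le_right _ _).trans (min_le_right _ _)
      calc 2 * |curl A z0| * min (min (d / 4) (|z0.2| / 4)) (min 1 (1 / (2 * |curl A z0|)))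
          ≤ 2 * |curl A z0| * (1 / (2 * |curl A z0|)) := by gcongr
        _ = 1 := by field_simp
  have hnear : ∀ s ∈ Icc z0.1 (z0.1 + 2 * l), ∀ t ∈ Icc z0.2 (z0.2 + 2 * l),
      |curl A (s, t) - curl A z0| ≤ |curl A z0| / 2 := by
    intro s hs t ht
    have h1 : dist ((s, t) : ℝ × ℝ) z0 < d := by
      rw [Prod.dist_eq]
      refine max_lt ?_ ?_
      · rw [Real.dist_eq, abs_lt]
        constructor <;> simp only <;> linarith [hs.1, hs.2]
      · rw [Real.dist_eq, abs_lt]
        constructor <;> simp only <;> linarith [ht.1, ht.2]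
    have h2 := hd' h1
    rw [Real.dist_eq] at h2
    exact h2.le
  refine ⟨z0.1, z0.1 + l, z0.2, z0.2 + l, l, l, 2 / Real.pi * (l * l * |curl A z0| / 2), ⟨?_, ?_, hl, hl, ?_,
    hA.continuous.continuousOn, ?_⟩, ?_⟩
  · linarith
  · linarith
  · have := Real.pi_pos
    positivity
  · intro x hx y hy
    set P : ℝ := (∫ σ in x..(x + l), (A (σ, y)).1) + ∫ τ in y..(y + l), (A (x + l, τ)).2 with hP
    set Q : ℝ := (∫ τ in y..(y + l), (A (x, τ)).2) + ∫ σ in x..(x + l), (A (σ, y + l)).1 with hQ
    have hg := green A hA x y l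
    rw [← hP, ← hQ] at hg
    have hb := bound A hA x y l (curl A z0) (|curl A z0| / 2) hl (by
      intro s hs t ht
      exact hnear s ⟨by linarith [hs.1, hx.1], by linarith [hs.2, hx.2]⟩ t
        ⟨by linarith [ht.1, hy.1], by linarith [ht.2, hy.2]⟩)
    rw [hg] at hb
    have habs : |l * (l * curl A z0)| = l * l * |curl A z0| := by
      rw [abs_mul, abs_mul, abs_of_pos hl]
      ring
    have h3 : |P - Q| ≤ 3 / 2 * (l * l * |curl A z0|) := by
      have := abs_sub_abs_le_abs_sub (P - Q) (l * (l * curl A z0))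
      rw [habs] at this
      linarith
    have h4 : l * l * |curl A z0| / 2 ≤ |P - Q| := by
      have := abs_sub_abs_le_abs_sub (l * (l * curl A z0)) (P - Q)
      rw [habs, abs_sub_comm (l * (l * curl A z0))] at this
      linarith
    have h5 : |P - Q| ≤ 1 := by
      have : l * l * |curl A z0| ≤ 1 * (l * |curl A z0|) := by
        rw [mul_assoc]
        gcongr
      nlinarith
    refine le_trans ?_ (exp_bound P Q h5)
    have := Real.pi_pos
    gcongr
  · rcases lt_or_gt_of_ne h0 with h | h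
    · right
      rw [abs_of_neg h] at hl2
      linarith
    · left
      exact h

end REG

theorem pREG : S_REG := by
  intro A hA ⟨z, hz⟩
  by_cases h0 : z.2 = 0
  · have hc := REG.cont_curl A hA
    have hopen : IsOpen {w : ℝ | curl A (z.1, w) ≠ 0} := by
      have : Continuous (fun w : ℝ => curl A (z.1, w)) := hc.comp (by fun_prop)
      exact isOpen_ne_fun this continuous_const
    have hmem : (0 : ℝ) ∈ {w : ℝ | curl A (z.1, w) ≠ 0} := by
      have : (z.1, (0 : ℝ)) = z := Prod.ext rfl h0.symm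
      simpa [this] using hz
    obtain ⟨e, he, hball⟩ := Metric.isOpen_iff.mp hopen 0 hmem
    refine REG.main A hA (z.1, e / 2) (hball ?_) (by simp only; positivity)
    rw [Metric.mem_ball, Real.dist_eq, sub_zero, abs_of_pos (by positivity)]
    linarith
  · exact REG.main A hA z hz h0

end

end Pool.Agent.T2H04.LC
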