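import Pool.Agent.T2H04.LC.Stm

/-!
# Project LC: the Aharonov-Bohm potential satisfies the holonomy condition
-/

open MeasureTheory Set Filter Topology

namespace Pool.Agent.T2H04.LC

noncomputable section

namespace SAB

theorem int_gen (Φ q w a b : ℝ) (hw : w ≠ 0) :
    (∫ σ in a..b, Φ * w / ((σ - q) ^ 2 + w ^ 2)) =
      Φ * (Real.arctan ((b - q) / w) - Real.arctan ((a - q) / w)) := by
  have hpos : ∀ σ : ℝ, 0 < (σ - q) ^ 2 + w ^ 2 := fun σ => by positivity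
  have hder : ∀ σ ∈ uIcc a b, HasDerivAt (fun s => Φ * Real.arctan ((s - q) / w))
      (Φ * w / ((σ - q) ^ 2 + w ^ 2)) σ := by
    intro σ _
    have h1 : HasDerivAt (fun s : ℝ => (s - q) / w) (1 / w) σ :=
      ((hasDerivAt_id σ).sub_const q).div_const w
    have h2 := (h1.arctan).const_mul Φ
    refine h2.congr_deriv ?_
    have h4 := (hpos σ).ne'
    have h3 : 1 + ((σ - q) / w) ^ 2 ≠ 0 := by positivity
    have h5 : w ^ 2 + (σ - q) ^ 2 ≠ 0 := by rwa [add_comm] at h4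
    have h6 : 1 + ((σ - q) / w) ^ 2 = (w ^ 2 + (σ - q) ^ 2) / w ^ 2 := by
      field_simp
    rw [h6, add_comm (w ^ 2)]
    field_simp
  have hint : IntervalIntegrable (fun σ => Φ * w / ((σ - q) ^ 2 + w ^ 2)) volume a b := by
    apply Continuous.intervalIntegrable
    exact continuous_const.div (by fun_prop) (fun σ => (hpos σ).ne')
  rw [intervalIntegral.integral_eq_sub_of_hasDerivAt hder hint]
  ring

theorem int_one (Φ : ℝ) (p : ℝ × ℝ) (a b y : ℝ) (hw : y - p.2 ≠ 0) :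
    (∫ σ in a..b, (AB Φ p (σ, y)).1) =
      -Φ * (Real.arctan ((b - p.1) / (y - p.2)) - Real.arctan ((a - p.1) / (y - p.2))) := by
  rw [← int_gen (-Φ) p.1 (y - p.2) a b hw]
  apply intervalIntegral.integral_congr
  intro σ _
  simp only [AB]
  ring

theorem int_two (Φ : ℝ) (p : ℝ × ℝ) (a b x : ℝ) (hw : x - p.1 ≠ 0) :
    (∫ τ in a..b, (AB Φ p (x, τ)).2) =
      Φ * (Real.arctan ((b - p.2) / (x - p.1)) - Real.arctan ((a - p.2) / (x - p.1))) := by
  rw [← int_gen Φ p.2 (x - p.1) a b hw]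
  apply intervalIntegral.integral_congr
  intro σ _
  simp only [AB]
  rw [add_comm ((x - p.1) ^ 2)]

theorem at_add {u v : ℝ} (hu : 0 < u) (hv : 0 < v) :
    Real.arctan (u / v) + Real.arctan (v / u) = Real.pi / 2 := by
  have := Real.arctan_inv_of_pos (div_pos hu hv)
  rw [inv_div] at this
  linarith

theorem phase (Φ : ℝ) (p : ℝ × ℝ) (x y l1 l2 : ℝ) (hx : x < p.1) (hx' : p.1 < x + l1)
    (hy : y < p.2) (hy' : p.2 < y + l2) :
    ((∫ σ in x..(x + l1), (AB Φ p (σ, y)).1) + ∫ τ in y..(y + l2), (AB Φ p (x + l1, τ)).2) -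
      ((∫ τ in y..(y + l2), (AB Φ p (x, τ)).2) + ∫ σ in x..(x + l1), (AB Φ p (σ, y + l2)).1) =
        2 * Real.pi * Φ := by
  rw [int_one Φ p _ _ y (by linarith), int_two Φ p _ _ (x + l1) (by linarith),
    int_two Φ p _ _ x (by linarith), int_one Φ p _ _ (y + l2) (by linarith)]
  have hP : 0 < x + l1 - p.1 := by linarith
  have hQ : 0 < p.1 - x := by linarith
  have hd : 0 < p.2 - y := by linarith
  have he : 0 < y + l2 - p.2 := by linarith
  have e1 : (x + l1 - p.1) / (y - p.2) = -((x + l1 - p.1) / (p.2 - y)) := by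
    rw [← neg_sub p.2 y, div_neg]
  have e2 : (x - p.1) / (y - p.2) = (p.1 - x) / (p.2 - y) := by
    rw [← neg_sub p.2 y, ← neg_sub p.1 x, neg_div_neg_eq]
  have e3 : (y - p.2) / (x + l1 - p.1) = -((p.2 - y) / (x + l1 - p.1)) := by
    rw [← neg_sub p.2 y, neg_div]
  have e4 : (y + l2 - p.2) / (x - p.1) = -((y + l2 - p.2) / (p.1 - x)) := by
    rw [← neg_sub p.1 x, div_neg]
  have e5 : (y - p.2) / (x - p.1) = (p.2 - y) / (p.1 - x) := by
    rw [← neg_sub p.2 y, ← neg_sub p.1 x, neg_div_neg_eq]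
  have e6 : (x - p.1) / (y + l2 - p.2) = -((p.1 - x) / (y + l2 - p.2)) := by
    rw [← neg_sub p.1 x, neg_div]
  rw [e1, e2, e3, e4, e5, e6]
  simp only [Real.arctan_neg]
  have a1 := at_add hP hd
  have a2 := at_add hP he
  have a3 := at_add hQ hd
  have a4 := at_add hQ he
  linear_combination Φ * a1 + Φ * a2 + Φ * a3 + Φ * a4

theorem exp_ne (Φ : ℝ) (hΦ : ∀ n : ℤ, Φ ≠ n) :
    0 < ‖Complex.exp (Complex.I * ((2 * Real.pi * Φ : ℝ) : ℂ)) - 1‖ := by
  rw [norm_pos_iff, sub_ne_zero]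
  intro h
  rw [Complex.exp_eq_one_iff] at h
  obtain ⟨n, hn⟩ := h
  apply hΦ n
  have h2 : (2 * Real.pi * Complex.I : ℂ) ≠ 0 := by
    simp [Real.pi_ne_zero]
  have h3 : (2 * Real.pi * Complex.I : ℂ) * ((Φ : ℝ) : ℂ) = (2 * Real.pi * Complex.I : ℂ) * (n : ℂ) := by
    rw [mul_comm (2 * Real.pi * Complex.I : ℂ) (n : ℂ), ← hn]
    push_cast
    ring
  have h4 := mul_left_cancel₀ h2 h3
  exact_mod_cast h4

theorem norm_exp_sub (s t : ℝ) :
    ‖Complex.exp (Complex.I * (s : ℂ)) - Complex.exp (Complex.I * (t : ℂ))‖ =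
      ‖Complex.exp (Complex.I * ((s - t : ℝ) : ℂ)) - 1‖ := by
  have h : Complex.exp (Complex.I * (s : ℂ)) - Complex.exp (Complex.I * (t : ℂ)) =
      Complex.exp (Complex.I * (t : ℂ)) * (Complex.exp (Complex.I * ((s - t : ℝ) : ℂ)) - 1) := by
    rw [mul_sub, ← Complex.exp_add, mul_one]
    congr 2
    push_cast
    ring
  have h1 : ‖Complex.exp (Complex.I * (t : ℂ))‖ = 1 := by
    rw [mul_comm]
    exact Complex.norm_exp_ofReal_mul_I t
  rw [h, norm_mul, h1, one_mul]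

end SAB

theorem pSAB : S_SAB := by
  intro Φ hΦ p hp
  have hr : 0 < |p.2| / 8 := by positivity
  refine ⟨p.1 - 2 * (|p.2| / 8), p.1 - |p.2| / 8, p.2 - 2 * (|p.2| / 8), p.2 - |p.2| / 8,
    4 * (|p.2| / 8), 4 * (|p.2| / 8), ‖Complex.exp (Complex.I * ((2 * Real.pi * Φ : ℝ) : ℂ)) - 1‖,
    ?_, ?_⟩
  · set r : ℝ := |p.2| / 8 with hrdef
    refine ⟨by linarith, by linarith, by linarith, by linarith, SAB.exp_ne Φ hΦ, ?_, ?_⟩
    · have hne : ∀ z ∈ {z : ℝ × ℝ | (z.1 ∈ Icc (p.1 - 2 * r) (p.1 - r + 4 * r) ∧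
            (z.2 ∈ Icc (p.2 - 2 * r) (p.2 - r) ∨
              z.2 ∈ Icc (p.2 - 2 * r + 4 * r) (p.2 - r + 4 * r))) ∨
          ((z.1 ∈ Icc (p.1 - 2 * r) (p.1 - r) ∨ z.1 ∈ Icc (p.1 - 2 * r + 4 * r) (p.1 - r + 4 * r)) ∧
            z.2 ∈ Icc (p.2 - 2 * r) (p.2 - r + 4 * r))},
          (z.1 - p.1) ^ 2 + (z.2 - p.2) ^ 2 ≠ 0 := by
        intro z hz h0
        have h1 : z.1 - p.1 = 0 := by nlinarith [sq_nonneg (z.1 - p.1), sq_nonneg (z.2 - p.2)]
        have h2 : z.2 - p.2 = 0 := by nlinarith [sq_nonneg (z.1 - p.1), sq_nonneg (z.2 - p.2)]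
        simp only [mem_ofPred_eq, mem_Icc] at hz
        rcases hz with ⟨_, h | h⟩ | ⟨h | h, _⟩ <;> linarith [h.1, h.2]
      have hc1 : Continuous (fun z : ℝ × ℝ => (z.1 - p.1) ^ 2 + (z.2 - p.2) ^ 2) := by fun_prop
      apply ContinuousOn.prodMk
      · exact ContinuousOn.div (by fun_prop) hc1.continuousOn hne
      · exact ContinuousOn.div (by fun_prop) hc1.continuousOn hne
    · intro x hx y hy
      rw [SAB.norm_exp_sub, SAB.phase Φ p x y (4 * r) (4 * r) (by linarith [hx.2])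
        (by linarith [hx.1]) (by linarith [hy.2]) (by linarith [hy.1])]
  · rcases lt_or_gt_of_ne hp with h | h
    · right
      rw [abs_of_neg h]
      linarith
    · left
      rw [abs_of_pos h]
      linarith

end

end Pool.Agent.T2H04.LC
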