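import Pool.Agent.T2H04.LC.Stm

/-!
# LC, package SLI: the slice inequality
-/

open MeasureTheory Set Filter Topology

namespace Pool.Agent.T2H04.LC

namespace SLIp

theorem tanh_bound (z : ℝ) : 1 - 2 * Real.exp (-(2 * z)) ≤ Real.tanh z := by
  rw [Real.tanh_eq_sinh_div_cosh, le_div_iff₀ (Real.cosh_pos z), Real.sinh_eq, Real.cosh_eq]
  have h1 : Real.exp (-(2 * z)) * Real.exp z = Real.exp (-z) := by
    rw [← Real.exp_add]
    congr 1
    ring
  have h2 : 0 < Real.exp (-(2 * z)) * Real.exp (-z) := by positivity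
  nlinarith [h1, h2]

end SLIp

theorem pSLI (hOD2 : S_OD2) (hOD3 : S_OD3) (hOD4 : S_OD4) : S_SLI := by
  intro α hα
  have hℓ : 0 < 1 / (6 * α) := by positivity
  set ℓ : ℝ := 1 / (6 * α) with hℓd
  have hαℓ : α * ℓ = 1 / 6 := by
    rw [hℓd]
    field_simp
  have hE : Real.exp (α * ℓ) ≤ 3 := by
    rw [hαℓ]
    have h1 : Real.exp (1 / 6) ≤ Real.exp 1 := Real.exp_le_exp.2 (by norm_num)
    linarith [Real.exp_one_lt_d9]
  have hE0 := Real.exp_pos (α * ℓ)
  refine ⟨ℓ, 2 * α * Real.exp (α * ℓ) / ℓ, hℓ, by positivity, ?_⟩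
  intro f g a h hf T hT
  have hfc : Continuous f := continuous_iff_continuousAt.2 fun t => (h.der t).continuousAt
  have hgc := h.cont
  have hg0 : ∀ t, t ∉ tsupport f → g t = 0 := by
    intro t ht
    have h0 : f =ᶠ[𝓝 t] 0 := notMem_tsupport_iff_eventuallyEq.1 ht
    have h1 : HasDerivAt f 0 t := (hasDerivAt_const t (0 : ℂ)).congr_of_eventuallyEq h0
    have h2 := (h.der t).unique h1
    have h3 : f t = 0 := image_eq_zero_of_notMem_tsupport ht
    rw [h3, mul_zero, add_zero] at h2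
    exact h2
  have hI1 : Integrable (fun t => ‖g t‖ ^ 2 + α ^ 2 / 4 * ‖f t‖ ^ 2) := by
    refine Continuous.integrable_of_hasCompactSupport (by fun_prop) ?_
    refine HasCompactSupport.intro hf fun t ht => ?_
    have h2 : f t = 0 := image_eq_zero_of_notMem_tsupport ht
    simp [hg0 t ht, h2]
  have hI2 : Integrable (fun t => ‖g t - ((α / 2 : ℝ) : ℂ) * f t‖ ^ 2) := by
    refine Continuous.integrable_of_hasCompactSupport (by fun_prop) ?_
    refine HasCompactSupport.intro hf fun t ht => ?_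
    have h2 : f t = 0 := image_eq_zero_of_notMem_tsupport ht
    simp [hg0 t ht, h2]
  have h1 : (∫ t in Iic T, (‖g t‖ ^ 2 + α ^ 2 / 4 * ‖f t‖ ^ 2)) -
      (∫ t in Iic (0 : ℝ), (‖g t‖ ^ 2 + α ^ 2 / 4 * ‖f t‖ ^ 2)) =
      ∫ t in (0 : ℝ)..T, (‖g t‖ ^ 2 + α ^ 2 / 4 * ‖f t‖ ^ 2) :=
    intervalIntegral.integral_Iic_sub_Iic hI1.integrableOn hI1.integrableOn
  have h3 := (hOD3 α f g a h hf 0).1
  have h4 := hOD4 α hα f g a h 0 T hT
  rw [zero_add] at h4
  set X : ℝ := ∫ t in Iic (0 : ℝ), ‖g t - ((α / 2 : ℝ) : ℂ) * f t‖ ^ 2 with hX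
  have hX0 : 0 ≤ X := integral_nonneg fun t => sq_nonneg _
  have hpt : ∀ t ∈ Icc (-ℓ) 0, ‖f 0‖ ^ 2 ≤ 2 * Real.exp (α * ℓ) * (‖f t‖ ^ 2 + ℓ * X) := by
    intro t ht
    have h5 := (hOD2 f g a h (-(α / 2)) t 0 ht.2).1
    have h6 : (∫ τ in t..0, ‖g τ + ((-(α / 2) : ℝ) : ℂ) * f τ‖ ^ 2) ≤ X := by
      rw [intervalIntegral.integral_of_le ht.2, hX]
      have e : (fun τ => ‖g τ + ((-(α / 2) : ℝ) : ℂ) * f τ‖ ^ 2) =
          fun τ => ‖g τ - ((α / 2 : ℝ) : ℂ) * f τ‖ ^ 2 := by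
        funext τ
        rw [Complex.ofReal_neg, neg_mul, ← sub_eq_add_neg]
      rw [e]
      refine setIntegral_mono_set hI2.integrableOn ?_ ?_
      · exact Filter.Eventually.of_forall fun τ => sq_nonneg _
      · exact (Ioc_subset_Iic_self).eventuallyLE
    have h7 : Real.exp (2 * |-(α / 2)| * (0 - t)) ≤ Real.exp (α * ℓ) := by
      refine Real.exp_le_exp.2 ?_
      rw [abs_neg, abs_of_pos (by positivity)]
      nlinarith [ht.1]
    have h8 : (0 - t) * (∫ τ in t..0, ‖g τ + ((-(α / 2) : ℝ) : ℂ) * f τ‖ ^ 2) ≤ ℓ * X :=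
      mul_le_mul (by linarith [ht.1]) h6
        (intervalIntegral.integral_nonneg ht.2 fun τ _ => sq_nonneg _) hℓ.le
    have h9 : 0 ≤ (0 - t) * (∫ τ in t..0, ‖g τ + ((-(α / 2) : ℝ) : ℂ) * f τ‖ ^ 2) :=
      mul_nonneg (by linarith [ht.2]) (intervalIntegral.integral_nonneg ht.2 fun τ _ => sq_nonneg _)
    refine h5.trans ?_
    refine mul_le_mul ?_ ?_ ?_ (by positivity)
    · linarith
    · linarith
    · have := sq_nonneg ‖f t‖
      linarith
  have h10 : (∫ _t in (-ℓ)..0, ‖f 0‖ ^ 2) ≤ ∫ t in (-ℓ)..0, 2 * Real.exp (α * ℓ) * (‖f t‖ ^ 2 + ℓ * X) := by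
    refine intervalIntegral.integral_mono_on (by linarith) ?_ ?_ hpt
    · exact Continuous.intervalIntegrable (by fun_prop) _ _
    · exact Continuous.intervalIntegrable (by fun_prop) _ _
  rw [intervalIntegral.integral_const, smul_eq_mul, intervalIntegral.integral_const_mul,
    intervalIntegral.integral_add (Continuous.intervalIntegrable (by fun_prop) _ _)
    (Continuous.intervalIntegrable (by fun_prop) _ _), intervalIntegral.integral_const, smul_eq_mul] at h10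
  have e0 : (0 : ℝ) - -ℓ = ℓ := by ring
  rw [e0] at h10
  have hK0 : 0 ≤ ∫ t in (-ℓ)..0, ‖f t‖ ^ 2 :=
    intervalIntegral.integral_nonneg (by linarith) fun τ _ => sq_nonneg _
  set K : ℝ := ∫ t in (-ℓ)..0, ‖f t‖ ^ 2 with hK
  have hth := SLIp.tanh_bound (α * T / 2)
  have e1 : -(2 * (α * T / 2)) = -(α * T) := by ring
  rw [e1] at hth
  set E : ℝ := Real.exp (-(α * T)) with hEd
  have hEp : 0 < E := Real.exp_pos _
  have hE1 : E ≤ 1 := Real.exp_le_one_iff.2 (by have := mul_nonneg hα.le hT; linarith)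
  set G : ℝ := Real.exp (α * ℓ) with hGd
  have hf0 : ‖f 0‖ ^ 2 ≤ 2 * G / ℓ * K + 2 * G * ℓ * X := by
    have e : 2 * G / ℓ * K + 2 * G * ℓ * X = (2 * G * (K + ℓ * (ℓ * X))) / ℓ := by
      field_simp
    rw [e, le_div_iff₀ hℓ]
    linarith
  have h11 : α * E * ‖f 0‖ ^ 2 ≤ 2 * α * G / ℓ * E * K + X := by
    have h12 : α * E * ‖f 0‖ ^ 2 ≤ α * E * (2 * G / ℓ * K + 2 * G * ℓ * X) :=
      mul_le_mul_of_nonneg_left hf0 (by positivity)
    have h13 : α * E * (2 * G * ℓ * X) ≤ X := by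
      have e : α * E * (2 * G * ℓ * X) = (E * (G / 3)) * X * (6 * (α * ℓ)) := by ring
      rw [e, hαℓ]
      have h14 : E * (G / 3) ≤ 1 := by
        have : G / 3 ≤ 1 := by linarith
        calc E * (G / 3) ≤ 1 * 1 := mul_le_mul hE1 this (by positivity) zero_le_one
          _ = 1 := by ring
      nlinarith
    have e2 : α * E * (2 * G / ℓ * K + 2 * G * ℓ * X) = 2 * α * G / ℓ * E * K + α * E * (2 * G * ℓ * X) := by
      ring
    linarith
  have h15 : α / 2 * (1 - 2 * E) * ‖f 0‖ ^ 2 ≤ α / 2 * Real.tanh (α * T / 2) * ‖f 0‖ ^ 2 :=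
    mul_le_mul_of_nonneg_right (mul_le_mul_of_nonneg_left hth (by positivity)) (sq_nonneg _)
  linarith

end Pool.Agent.T2H04.LC
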