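import Pool.Agent.T2H04.LC.Stm

/-!
# LC, package SPB: horizontal spreading
-/

open MeasureTheory Set Filter Topology

namespace Pool.Agent.T2H04.LC

namespace SPB

theorem box (F : ℝ × ℝ → ℝ) (hF : Continuous F) (a b c d : ℝ) (hab : a ≤ b) (hcd : c ≤ d) :
    (∫ z in Icc a b ×ˢ Icc c d, F z) = ∫ y in c..d, ∫ x in a..b, F (x, y) := by
  have hI : IntegrableOn F (Icc a b ×ˢ Icc c d) :=
    hF.continuousOn.integrableOn_compact (isCompact_Icc.prod isCompact_Icc)
  have h1 : IntegrableOn F (Icc a b ×ˢ Icc c d) (volume.prod volume) := hI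
  have h2 : (∫ z in Icc a b ×ˢ Icc c d, F z) = ∫ y in Icc c d, ∫ x in Icc a b, F (x, y) := by
    have h3 : (volume : Measure (ℝ × ℝ)) = volume.prod volume := rfl
    rw [h3, ← Measure.prod_restrict]
    rw [IntegrableOn, ← Measure.prod_restrict] at h1
    exact integral_prod_symm F h1
  rw [h2, intervalIntegral.integral_of_le hcd, integral_Icc_eq_integral_Ioc]
  congr 1
  funext y
  rw [intervalIntegral.integral_of_le hab, integral_Icc_eq_integral_Ioc]

theorem line {A : ℝ × ℝ → ℝ × ℝ} {u : ℝ × ℝ → ℂ} (hu : Adm A u) (hLIN : S_LIN) (hOD2 : S_OD2)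
    (lo x1 x2 hi : ℝ) (h1 : lo ≤ x1) (h2 : x1 < x2) (h3 : x2 ≤ hi) (x y : ℝ) (hx : x ∈ Icc lo hi) :
    (x2 - x1) * ‖u (x, y)‖ ^ 2 ≤ 2 * (∫ t in x1..x2, ‖u (t, y)‖ ^ 2) +
      2 * (hi - lo) * (x2 - x1) * ∫ t in lo..hi, ‖DD A u (1, 0) (t, y)‖ ^ 2 := by
  have hL := (hLIN A u hu).1 (0, y) (1, 0)
  have e1 : (fun t : ℝ => u ((0, y) + t • ((1 : ℝ), (0 : ℝ)))) = fun t => u (t, y) := by
    funext t
    simp
  have e2 : (fun t : ℝ => DD A u (1, 0) ((0, y) + t • ((1 : ℝ), (0 : ℝ)))) = fun t => DD A u (1, 0) (t, y) := by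
    funext t
    simp
  rw [e1, e2] at hL
  have huc : Continuous u := hu.smooth.continuous
  have hDc : Continuous (DD A u (1, 0)) := hu.cont (1, 0)
  have hgc : Continuous (fun t => DD A u (1, 0) (t, y)) := hL.cont
  have hsub : ∀ s t : ℝ, lo ≤ s → s ≤ t → t ≤ hi → (∫ τ in s..t, ‖DD A u (1, 0) (τ, y)‖ ^ 2) ≤
      ∫ τ in lo..hi, ‖DD A u (1, 0) (τ, y)‖ ^ 2 := by
    intro s t hs hst ht
    refine intervalIntegral.integral_mono_interval hs hst ht ?_ ?_
    · exact Filter.Eventually.of_forall fun τ => sq_nonneg _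
    · exact Continuous.intervalIntegrable (by fun_prop) _ _
  set K : ℝ := ∫ τ in lo..hi, ‖DD A u (1, 0) (τ, y)‖ ^ 2 with hK
  have hK0 : 0 ≤ K := intervalIntegral.integral_nonneg (by linarith) fun τ _ => sq_nonneg _
  have hpt : ∀ t ∈ Icc x1 x2, ‖u (x, y)‖ ^ 2 ≤ 2 * ‖u (t, y)‖ ^ 2 + 2 * (hi - lo) * K := by
    intro t ht
    rcases le_total t x with htx | htx
    · have h4 := (hOD2 _ _ _ hL 0 t x htx).1
      simp only [abs_zero, mul_zero, zero_mul, Real.exp_zero, mul_one, Complex.ofReal_zero, add_zero] at h4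
      have h5 := hsub t x (by linarith [ht.1]) htx hx.2
      have h6 : (x - t) * (∫ τ in t..x, ‖DD A u (1, 0) (τ, y)‖ ^ 2) ≤ (hi - lo) * K :=
        mul_le_mul (by linarith [ht.1, hx.2]) h5
          (intervalIntegral.integral_nonneg htx fun τ _ => sq_nonneg _) (by linarith)
      linarith
    · have h4 := (hOD2 _ _ _ hL 0 x t htx).2
      simp only [abs_zero, mul_zero, zero_mul, Real.exp_zero, mul_one, Complex.ofReal_zero, add_zero] at h4
      have h5 := hsub x t hx.1 htx (by linarith [ht.2])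
      have h6 : (t - x) * (∫ τ in x..t, ‖DD A u (1, 0) (τ, y)‖ ^ 2) ≤ (hi - lo) * K :=
        mul_le_mul (by linarith [ht.2, hx.1]) h5
          (intervalIntegral.integral_nonneg htx fun τ _ => sq_nonneg _) (by linarith)
      linarith
  have h7 : (∫ _t in x1..x2, ‖u (x, y)‖ ^ 2) ≤ ∫ t in x1..x2, (2 * ‖u (t, y)‖ ^ 2 + 2 * (hi - lo) * K) := by
    refine intervalIntegral.integral_mono_on h2.le ?_ ?_ hpt
    · exact Continuous.intervalIntegrable (by fun_prop) _ _
    · exact Continuous.intervalIntegrable (by fun_prop) _ _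
  rw [intervalIntegral.integral_const, intervalIntegral.integral_add
    (Continuous.intervalIntegrable (by fun_prop) _ _) (Continuous.intervalIntegrable (by fun_prop) _ _),
    intervalIntegral.integral_const, intervalIntegral.integral_const_mul, smul_eq_mul, smul_eq_mul] at h7
  linarith

end SPB

theorem pSPB (hLIN : S_LIN) (hOD2 : S_OD2) : S_SPB := by
  intro A u hu lo x1 x2 hi y1 y2 h1 h2 h3 h4
  have huc := hu.smooth.continuous
  have hDc := hu.cont (1, 0)
  have hx : 0 < x2 - x1 := sub_pos.2 h2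
  have hlo : lo ≤ hi := by linarith
  rw [SPB.box _ (by fun_prop) lo hi y1 y2 hlo h4, SPB.box _ (by fun_prop) x1 x2 y1 y2 h2.le h4,
    SPB.box _ (by fun_prop) lo hi y1 y2 hlo h4]
  have hc1 : Continuous (fun y => ∫ x in lo..hi, ‖u (x, y)‖ ^ 2) :=
    intervalIntegral.continuous_parametric_intervalIntegral_of_continuous' (by fun_prop) _ _
  have hc2 : Continuous (fun y => ∫ x in x1..x2, ‖u (x, y)‖ ^ 2) :=
    intervalIntegral.continuous_parametric_intervalIntegral_of_continuous' (by fun_prop) _ _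
  have hc3 : Continuous (fun y => ∫ x in lo..hi, ‖DD A u (1, 0) (x, y)‖ ^ 2) :=
    intervalIntegral.continuous_parametric_intervalIntegral_of_continuous' (by fun_prop) _ _
  rw [← intervalIntegral.integral_const_mul, ← intervalIntegral.integral_const_mul,
    ← intervalIntegral.integral_add (Continuous.intervalIntegrable (by fun_prop) _ _)
      (Continuous.intervalIntegrable (by fun_prop) _ _)]
  refine intervalIntegral.integral_mono_on h4 (hc1.intervalIntegrable _ _)
    (Continuous.intervalIntegrable (by fun_prop) _ _) ?_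
  intro y _
  set P : ℝ := ∫ x in x1..x2, ‖u (x, y)‖ ^ 2
  set K : ℝ := ∫ x in lo..hi, ‖DD A u (1, 0) (x, y)‖ ^ 2
  have hpt : ∀ x ∈ Icc lo hi, ‖u (x, y)‖ ^ 2 ≤ 2 / (x2 - x1) * P + 2 * (hi - lo) * K := by
    intro x hx'
    have := SPB.line hu hLIN hOD2 lo x1 x2 hi h1 h2 h3 x y hx'
    have e : 2 / (x2 - x1) * P + 2 * (hi - lo) * K = (2 * P + 2 * (hi - lo) * (x2 - x1) * K) / (x2 - x1) := by
      field_simp
    rw [e, le_div_iff₀ hx]
    linarith
  have h7 : (∫ x in lo..hi, ‖u (x, y)‖ ^ 2) ≤ ∫ _x in lo..hi, (2 / (x2 - x1) * P + 2 * (hi - lo) * K) := by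
    refine intervalIntegral.integral_mono_on hlo ?_ ?_ hpt
    · exact Continuous.intervalIntegrable (by fun_prop) _ _
    · exact Continuous.intervalIntegrable (by fun_prop) _ _
  rw [intervalIntegral.integral_const, smul_eq_mul] at h7
  have e : (hi - lo) * (2 / (x2 - x1) * P + 2 * (hi - lo) * K) =
      2 * (hi - lo) / (x2 - x1) * P + 2 * (hi - lo) ^ 2 * K := by
    ring
  rw [e] at h7
  exact h7

end Pool.Agent.T2H04.LC
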