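import Pool.Agent.T2H04.LC.SPB

/-!
# LC, package SPD: trace on a vertical line
-/

open MeasureTheory Set Filter Topology

namespace Pool.Agent.T2H04.LC

theorem pSPD (hLIN : S_LIN) (hOD2 : S_OD2) : S_SPD := by
  intro A u hu x c d hcd
  have huc := hu.smooth.continuous
  have hDc := hu.cont (1, 0)
  have hx : x - 1 ≤ x := by linarith
  rw [SPB.box _ (by fun_prop) (x - 1) x c d hx hcd, SPB.box _ (by fun_prop) (x - 1) x c d hx hcd]
  have hc2 : Continuous (fun y => ∫ t in (x - 1)..x, ‖u (t, y)‖ ^ 2) :=
    intervalIntegral.continuous_parametric_intervalIntegral_of_continuous' (by fun_prop) _ _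
  have hc3 : Continuous (fun y => ∫ t in (x - 1)..x, ‖DD A u (1, 0) (t, y)‖ ^ 2) :=
    intervalIntegral.continuous_parametric_intervalIntegral_of_continuous' (by fun_prop) _ _
  rw [← intervalIntegral.integral_const_mul, ← intervalIntegral.integral_const_mul,
    ← intervalIntegral.integral_add (Continuous.intervalIntegrable (by fun_prop) _ _)
      (Continuous.intervalIntegrable (by fun_prop) _ _)]
  refine intervalIntegral.integral_mono_on hcd (Continuous.intervalIntegrable (by fun_prop) _ _)
    (Continuous.intervalIntegrable (by fun_prop) _ _) ?_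
  intro y _
  have := SPB.line hu hLIN hOD2 (x - 1) (x - 1) x x le_rfl (by linarith) le_rfl x y ⟨hx, le_rfl⟩
  have e : x - (x - 1) = 1 := by ring
  rw [e] at this
  linarith

end Pool.Agent.T2H04.LC
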