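import Pool.Agent.T2H04.LC.Defs

/-!
# LC: operators generated by a form on a core, and their spectrum below a form bound
-/

open MeasureTheory Set Filter Topology

namespace Pool.Agent.T2H04.LC

noncomputable section

/-- The Hilbert space `L²(ℝ²; ℂ)`. -/
abbrev L2 : Type := Lp ℂ 2 (volume : Measure (ℝ × ℝ))

/-- The `L²` distance of a function and an element of `L²`. -/
def distL2 (v : ℝ × ℝ → ℂ) (u : L2) : ENNReal := eLpNorm (fun z => v z - u z) 2 volume

/-- `u` is in the domain of the unbounded operator `H` and (the real part of) `⟨H u, u⟩` is `t`. -/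
def HasEnergy {E : Type} [NormedAddCommGroup E] [InnerProductSpace ℂ E] (H : E →ₗ.[ℂ] E) (u : E) (t : ℝ) : Prop :=
  ∃ h : u ∈ H.domain, (inner ℂ (H ⟨u, h⟩) u).re = t

/-- The operator `H - μ` on the domain of `H`. -/
def shifted {E : Type} [NormedAddCommGroup E] [InnerProductSpace ℂ E] (H : E →ₗ.[ℂ] E) (μ : ℂ) (u : H.domain) : E :=
  H u - μ • (u : E)

/-- `μ` is in the resolvent set of `H`: `H - μ` is a bijection of the domain of `H` onto the whole space, with a
bounded inverse `R`. -/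
def InResolvent {E : Type} [NormedAddCommGroup E] [InnerProductSpace ℂ E] (H : E →ₗ.[ℂ] E) (μ : ℂ) : Prop :=
  ∃ (R : E → E) (C : ℝ), (∀ w : E, ‖R w‖ ≤ C * ‖w‖) ∧
    (∀ w : E, ∃ h : R w ∈ H.domain, shifted H μ ⟨R w, h⟩ = w) ∧ ∀ u : H.domain, R (shifted H μ u) = u

/-- `H` is self-adjoint, and every element `u` of its domain is the limit in `L²` of functions `v n` of the core `D`
with `q (v n) → ⟨H u, u⟩`. This holds for the self-adjoint operator associated with the closure of the form `q` on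
`D`. -/
structure Generated (q : (ℝ × ℝ → ℂ) → ℝ) (D : Set (ℝ × ℝ → ℂ)) (H : L2 →ₗ.[ℂ] L2) : Prop where
  selfAdjoint : IsSelfAdjoint H
  approx : ∀ (u : L2) (t : ℝ), HasEnergy H u t → ∃ v : ℕ → ℝ × ℝ → ℂ, (∀ n, v n ∈ D) ∧
    Tendsto (fun n => distL2 (v n) u) atTop (𝓝 0) ∧ Tendsto (fun n => q (v n)) atTop (𝓝 t)

namespace Spec

variable {E : Type} [NormedAddCommGroup E] [InnerProductSpace ℂ E]

theorem lower (H : E →ₗ.[ℂ] E) (m μ : ℝ) (hm : ∀ u : H.domain, m * ‖(u : E)‖ ^ 2 ≤ (inner ℂ (H u) (u : E)).re)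
    (u : H.domain) : (m - μ) * ‖(u : E)‖ ≤ ‖H u - (μ : ℂ) • (u : E)‖ := by
  rcases eq_or_ne (u : E) 0 with h0 | h0
  · rw [h0, norm_zero, mul_zero]
    exact norm_nonneg _
  have hu : 0 < ‖(u : E)‖ := norm_pos_iff.2 h0
  have h1 : (inner ℂ (H u - (μ : ℂ) • (u : E)) (u : E)).re =
      (inner ℂ (H u) (u : E)).re - μ * ‖(u : E)‖ ^ 2 := by
    rw [inner_sub_left, inner_smul_left, inner_self_eq_norm_sq_to_K]
    simp only [Complex.sub_re, Complex.conj_ofReal, Complex.coe_algebraMap, Complex.mul_re, Complex.ofReal_re,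
      Complex.ofReal_im, zero_mul, sub_zero]
    norm_cast
  have h2 : (inner ℂ (H u - (μ : ℂ) • (u : E)) (u : E)).re ≤ ‖H u - (μ : ℂ) • (u : E)‖ * ‖(u : E)‖ :=
    (Complex.re_le_norm _).trans (norm_inner_le_norm _ _)
  have h3 : (m - μ) * ‖(u : E)‖ * ‖(u : E)‖ ≤ ‖H u - (μ : ℂ) • (u : E)‖ * ‖(u : E)‖ := by
    nlinarith [hm u]
  exact le_of_mul_le_mul_right h3 hu

theorem resolvent [CompleteSpace E] (H : E →ₗ.[ℂ] E) (hH : IsSelfAdjoint H) (m μ : ℝ) (hμ : μ < m)
    (hm : ∀ u : H.domain, m * ‖(u : E)‖ ^ 2 ≤ (inner ℂ (H u) (u : E)).re) :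
    ∃ R : E →L[ℂ] E, (∀ w : E, ∃ h : R w ∈ H.domain, H ⟨R w, h⟩ - (μ : ℂ) • R w = w) ∧
      ∀ u : H.domain, R (H u - (μ : ℂ) • (u : E)) = u := by
  have hc : 0 < m - μ := sub_pos.2 hμ
  have hlow := lower H m μ hm
  let L : H.domain →ₗ[ℂ] E := H.toFun - (μ : ℂ) • H.domain.subtype
  have hL : ∀ u : H.domain, L u = H u - (μ : ℂ) • (u : E) := fun u => rfl
  have hinj : Function.Injective L := by
    rw [injective_iff_map_eq_zero]
    intro u hu
    have h1 := hlow u
    rw [← hL, hu, norm_zero] at h1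
    have h2 : ‖(u : E)‖ ≤ 0 := by
      by_contra hne
      push Not at hne
      exact absurd h1 (not_le.2 (mul_pos hc hne))
    exact Subtype.ext (norm_le_zero_iff.1 h2)
  have hdense := hH.dense_domain
  have hadj : LinearPMap.adjoint H = H := hH
  have horth : (LinearMap.range L)ᗮ = ⊥ := by
    rw [eq_bot_iff]
    intro v hv
    rw [Submodule.mem_orthogonal] at hv
    have h1 : ∀ x : H.domain, inner ℂ ((μ : ℂ) • v) (x : E) = inner ℂ v (H x) := by
      intro x
      have h2 := hv (L x) ⟨x, rfl⟩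
      rw [hL, inner_sub_left, inner_smul_left, Complex.conj_ofReal, sub_eq_zero] at h2
      rw [inner_smul_left, Complex.conj_ofReal]
      have h3 := congrArg (starRingEnd ℂ) h2
      rw [map_mul, inner_conj_symm, inner_conj_symm, Complex.conj_ofReal] at h3
      exact h3.symm
    have h4 : v ∈ (LinearPMap.adjoint H).domain :=
      LinearPMap.mem_adjoint_domain_of_exists v ⟨(μ : ℂ) • v, h1⟩
    have h5 : LinearPMap.adjoint H ⟨v, h4⟩ = (μ : ℂ) • v :=
      LinearPMap.adjoint_apply_eq hdense ⟨v, h4⟩ h1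
    have h6 : ∃ h : v ∈ H.domain, H ⟨v, h⟩ = (μ : ℂ) • v := by
      have key : ∀ K : E →ₗ.[ℂ] E, K = H → ∀ h : v ∈ K.domain, K ⟨v, h⟩ = (μ : ℂ) • v →
          ∃ h : v ∈ H.domain, H ⟨v, h⟩ = (μ : ℂ) • v := by
        intro K hK h h'
        subst hK
        exact ⟨h, h'⟩
      exact key _ hadj h4 h5
    obtain ⟨h7, h8⟩ := h6
    have h9 : L ⟨v, h7⟩ = 0 := by
      rw [hL, h8, sub_self]
    have h10 := hinj (h9.trans (map_zero L).symm)
    exact congrArg Subtype.val h10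
  have hclosed : IsClosed (LinearMap.range L : Set E) := by
    rw [← isSeqClosed_iff_isClosed]
    intro y w hy hyw
    choose x hx using fun n => LinearMap.mem_range.1 (hy n)
    have hcau : CauchySeq (fun n => ((x n : H.domain) : E)) := by
      have h1 := hyw.cauchySeq
      rw [Metric.cauchySeq_iff'] at h1 ⊢
      intro ε hε
      obtain ⟨N, hN⟩ := h1 ((m - μ) * ε) (mul_pos hc hε)
      refine ⟨N, fun n hn => ?_⟩
      have h2 := hN n hn
      rw [dist_eq_norm] at h2 ⊢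
      rw [← hx n, ← hx N, ← map_sub] at h2
      have h3 := hlow (x n - x N)
      rw [← hL] at h3
      have h4 : (m - μ) * ‖((x n : H.domain) : E) - (x N : E)‖ < (m - μ) * ε := lt_of_le_of_lt h3 h2
      exact lt_of_mul_lt_mul_left h4 hc.le
    obtain ⟨z, hz⟩ := cauchySeq_tendsto_of_complete hcau
    have h5 : Tendsto (fun n => H (x n)) atTop (𝓝 (w + (μ : ℂ) • z)) := by
      have h6 : (fun n => H (x n)) = fun n => y n + (μ : ℂ) • ((x n : H.domain) : E) := by
        funext n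
        rw [← hx n, hL]
        abel
      rw [h6]
      exact hyw.add (hz.const_smul _)
    have h7 : (z, w + (μ : ℂ) • z) ∈ H.graph := by
      have hgc : IsClosed (H.graph : Set (E × E)) := hH.isClosed
      refine hgc.mem_of_tendsto (hz.prodMk_nhds h5) (Filter.Eventually.of_forall fun n => ?_)
      exact LinearPMap.mem_graph H (x n)
    obtain ⟨z', hz1, hz2⟩ := (LinearPMap.mem_graph_iff H).1 h7
    refine ⟨z', ?_⟩
    rw [hL]
    simp only at hz1 hz2
    rw [hz2, hz1]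
    abel
  have hsurj : LinearMap.range L = ⊤ := by
    have h1 := Submodule.orthogonal_orthogonal_eq_closure (LinearMap.range L)
    rw [horth, Submodule.bot_orthogonal_eq_top] at h1
    rw [h1]
    exact (hclosed.submodule_topologicalClosure_eq).symm
  let e : H.domain ≃ₗ[ℂ] E := LinearEquiv.ofBijective L ⟨hinj, LinearMap.range_eq_top.1 hsurj⟩
  have he : ∀ w, H (e.symm w) - (μ : ℂ) • ((e.symm w : H.domain) : E) = w := by
    intro w
    rw [← hL]
    exact e.apply_symm_apply w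
  let R0 : E →ₗ[ℂ] E := H.domain.subtype.comp e.symm.toLinearMap
  have hR0 : ∀ w, R0 w = ((e.symm w : H.domain) : E) := fun w => rfl
  have hbd : ∀ w, ‖R0 w‖ ≤ (m - μ)⁻¹ * ‖w‖ := by
    intro w
    have h1 := hlow (e.symm w)
    rw [he w, ← hR0] at h1
    rw [inv_mul_eq_div, le_div_iff₀ hc]
    linarith
  refine ⟨R0.mkContinuous _ hbd, ?_, ?_⟩
  · intro w
    refine ⟨?_, ?_⟩
    · rw [LinearMap.mkContinuous_apply, hR0]
      exact (e.symm w).2
    · have := he w
      simpa [LinearMap.mkContinuous_apply, hR0] using this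
  · intro u
    rw [LinearMap.mkContinuous_apply, hR0, ← hL]
    have : e.symm (L u) = u := e.symm_apply_apply u
    rw [this]

theorem norm_sq_toLp (v : ℝ × ℝ → ℂ) (hv : MemLp v 2 volume) : ‖hv.toLp v‖ ^ 2 = ∫ z, ‖v z‖ ^ 2 := by
  have h1 : (‖hv.toLp v‖ ^ 2 : ℝ) = (inner ℂ (hv.toLp v) (hv.toLp v)).re := by
    rw [inner_self_eq_norm_sq_to_K]
    simp only [Complex.coe_algebraMap]
    norm_cast
  rw [h1, L2.inner_def]
  have h2 : (∫ z, inner ℂ ((hv.toLp v : L2) z) ((hv.toLp v : L2) z)) = ∫ z, ((‖v z‖ ^ 2 : ℝ) : ℂ) := by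
    refine integral_congr_ae ?_
    filter_upwards [hv.coeFn_toLp] with z hz
    rw [hz, inner_self_eq_norm_sq_to_K]
    simp only [Complex.coe_algebraMap]
    push_cast
    rfl
  rw [h2, integral_complex_ofReal, Complex.ofReal_re]

theorem bound_closure (q : (ℝ × ℝ → ℂ) → ℝ) (D : Set (ℝ × ℝ → ℂ)) (hD : ∀ v ∈ D, MemLp v 2 volume) (m : ℝ)
    (hq : ∀ v ∈ D, m * (∫ z, ‖v z‖ ^ 2) ≤ q v) (H : L2 →ₗ.[ℂ] L2) (hH : Generated q D H) (u : H.domain) :
    m * ‖(u : L2)‖ ^ 2 ≤ (inner ℂ (H u) (u : L2)).re := by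
  obtain ⟨v, h1, h2, h3⟩ := hH.approx (u : L2) (inner ℂ (H u) (u : L2)).re ⟨u.2, rfl⟩
  have h4 : Tendsto (fun n => (hD _ (h1 n)).toLp (v n)) atTop (𝓝 (u : L2)) := by
    rw [Lp.tendsto_Lp_iff_tendsto_eLpNorm']
    refine h2.congr fun n => ?_
    refine eLpNorm_congr_ae ?_
    filter_upwards [(hD _ (h1 n)).coeFn_toLp] with z hz
    simp only [Pi.sub_apply, hz]
  have h5 : Tendsto (fun n => m * ‖(hD _ (h1 n)).toLp (v n)‖ ^ 2) atTop (𝓝 (m * ‖(u : L2)‖ ^ 2)) :=
    (h4.norm.pow 2).const_mul m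
  refine le_of_tendsto_of_tendsto' h5 h3 fun n => ?_
  rw [norm_sq_toLp]
  exact hq _ (h1 n)

end Spec

/-- A form bound on the core excludes spectrum below the bound. -/
theorem noSpectrum (q : (ℝ × ℝ → ℂ) → ℝ) (D : Set (ℝ × ℝ → ℂ)) (hD : ∀ v ∈ D, MemLp v 2 volume) (m : ℝ)
    (hq : ∀ v ∈ D, m * (∫ z, ‖v z‖ ^ 2) ≤ q v) (H : L2 →ₗ.[ℂ] L2) (hH : Generated q D H) (μ : ℝ) (hμ : μ < m) :
    InResolvent H μ := by
  obtain ⟨R, h1, h2⟩ := Spec.resolvent H hH.selfAdjoint m μ hμ (Spec.bound_closure q D hD m hq H hH)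
  exact ⟨R, ‖R‖, fun w => R.le_opNorm w, h1, h2⟩

end

end Pool.Agent.T2H04.LC
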