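import Pool.Agent.T2H04.LC.Stm

/-!
# Package TI of project LC
-/

set_option autoImplicit false

open MeasureTheory Set Filter Topology

namespace Pool.Agent.T2H04.LC

noncomputable section

namespace TI

/-- The map from the rotated coordinates. -/
def PP (x0 y0 th σ : ℝ) (w : ℝ × ℝ) : ℝ × ℝ := (x0, y0) + w.1 • TT th + w.2 • (σ • NN th)

theorem PP_fst (x0 y0 th σ : ℝ) (w : ℝ × ℝ) :
    (PP x0 y0 th σ w).1 = x0 + w.1 * Real.cos th - w.2 * (σ * Real.sin th) := by
  simp only [PP, TT, NN, Prod.fst_add, Prod.smul_fst, smul_eq_mul]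
  ring

theorem PP_snd (x0 y0 th σ : ℝ) (w : ℝ × ℝ) :
    (PP x0 y0 th σ w).2 = y0 + w.1 * Real.sin th + w.2 * (σ * Real.cos th) := by
  simp only [PP, TT, NN, Prod.snd_add, Prod.smul_snd, smul_eq_mul]

theorem continuous_PP (x0 y0 th σ : ℝ) : Continuous (PP x0 y0 th σ) := by
  unfold PP
  fun_prop

theorem mp_PP (x0 y0 th σ : ℝ) (hσ : σ = 1 ∨ σ = -1) :
    MeasurePreserving (PP x0 y0 th σ) volume volume := by
  set f : ℝ × ℝ →ₗ[ℝ] ℝ × ℝ := Matrix.toLin (Module.Basis.finTwoProd ℝ) (Module.Basis.finTwoProd ℝ)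
    !![Real.cos th, -(σ * Real.sin th); Real.sin th, σ * Real.cos th] with hf
  have hdet : LinearMap.det f = σ := by
    rw [hf, LinearMap.det_toLin, Matrix.det_fin_two_of]
    have := Real.cos_sq_add_sin_sq th
    linear_combination σ * this
  have hσ0 : σ ≠ 0 := by rcases hσ with h | h <;> rw [h] <;> norm_num
  have habs : |σ⁻¹| = 1 := by rcases hσ with h | h <;> rw [h] <;> norm_num
  have h1 : MeasurePreserving f (volume : Measure (ℝ × ℝ)) volume := by
    refine ⟨f.continuous_of_finiteDimensional.measurable, ?_⟩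
    rw [MeasureTheory.Measure.map_linearMap_addHaar_eq_smul_addHaar _ (by rw [hdet]; exact hσ0),
      hdet, habs]
    simp
  have h2 : MeasurePreserving (fun z : ℝ × ℝ => (x0, y0) + z) volume volume :=
    measurePreserving_add_left volume (x0, y0)
  have h3 := h2.comp h1
  have h4 : (fun z : ℝ × ℝ => (x0, y0) + z) ∘ f = PP x0 y0 th σ := by
    funext w
    simp only [Function.comp_apply]
    rw [hf, Matrix.toLin_finTwoProd_apply]
    refine Prod.ext ?_ ?_
    · rw [PP_fst]; simp only [Prod.fst_add]; ring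
    · rw [PP_snd]; simp only [Prod.snd_add]; ring
  rw [← h4]
  exact h3

theorem int_one (f : ℝ → ℝ) (hf : Continuous f) (h0 : ∀ x, 0 ≤ f x) (y0 r ℓ : ℝ) (hℓ : 0 < ℓ)
    (hr1 : 1 ≤ |r|) (hr2 : |r| ≤ 2) :
    ∫ t in (-ℓ)..0, f (y0 + t * r) ≤ ∫ y in (y0 - 2 * ℓ)..(y0 + 2 * ℓ), f y := by
  have hr0 : r ≠ 0 := by
    intro h
    rw [h, abs_zero] at hr1
    linarith
  have h1 : ∫ t in (-ℓ)..0, f (y0 + t * r) = r⁻¹ • ∫ y in (r * (-ℓ) + y0)..(r * 0 + y0), f y := by
    rw [← intervalIntegral.integral_comp_mul_add f hr0 y0]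
    refine intervalIntegral.integral_congr fun t _ => ?_
    congr 1
    ring
  rw [h1, smul_eq_mul]
  have hint : ∀ a b : ℝ, IntervalIntegrable f volume a b := fun a b => hf.intervalIntegrable a b
  rcases lt_or_gt_of_ne hr0 with hneg | hpos
  · rw [abs_of_neg hneg] at hr1 hr2
    rw [intervalIntegral.integral_symm]
    have h2 : ∫ y in (r * 0 + y0)..(r * (-ℓ) + y0), f y ≤ ∫ y in (y0 - 2 * ℓ)..(y0 + 2 * ℓ), f y := by
      refine intervalIntegral.integral_mono_interval ?_ ?_ ?_ ?_ (hint _ _)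
      · nlinarith
      · nlinarith
      · nlinarith
      · exact Filter.Eventually.of_forall h0
    have h3 : 0 ≤ ∫ y in (r * 0 + y0)..(r * (-ℓ) + y0), f y :=
      intervalIntegral.integral_nonneg (by nlinarith) fun x _ => h0 x
    have h4 : -r⁻¹ ≤ 1 := by
      rw [← inv_neg]
      exact inv_le_one_of_one_le₀ hr1
    have h5 : 0 ≤ -r⁻¹ := by
      rw [← inv_neg]
      exact inv_nonneg.mpr (by linarith)
    calc r⁻¹ * -∫ y in (r * 0 + y0)..(r * (-ℓ) + y0), f y
        = (-r⁻¹) * ∫ y in (r * 0 + y0)..(r * (-ℓ) + y0), f y := by ring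
      _ ≤ 1 * ∫ y in (r * 0 + y0)..(r * (-ℓ) + y0), f y := by gcongr
      _ ≤ _ := by rw [one_mul]; exact h2
  · rw [abs_of_pos hpos] at hr1 hr2
    have h2 : ∫ y in (r * (-ℓ) + y0)..(r * 0 + y0), f y ≤ ∫ y in (y0 - 2 * ℓ)..(y0 + 2 * ℓ), f y := by
      refine intervalIntegral.integral_mono_interval ?_ ?_ ?_ ?_ (hint _ _)
      · nlinarith
      · nlinarith
      · nlinarith
      · exact Filter.Eventually.of_forall h0
    have h3 : 0 ≤ ∫ y in (r * (-ℓ) + y0)..(r * 0 + y0), f y :=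
      intervalIntegral.integral_nonneg (by nlinarith) fun x _ => h0 x
    have h4 : r⁻¹ ≤ 1 := inv_le_one_of_one_le₀ hr1
    calc r⁻¹ * ∫ y in (r * (-ℓ) + y0)..(r * 0 + y0), f y
      _ ≤ 1 * ∫ y in (r * (-ℓ) + y0)..(r * 0 + y0), f y := by gcongr
      _ ≤ _ := by rw [one_mul]; exact h2

/-- The primitive. -/
theorem int_exp (lam p q : ℝ) (hlam : 0 < lam) (hp : 0 ≤ p) (hq : 0 ≤ q) :
    IntegrableOn (fun s : ℝ => Real.exp (-(lam * s)) * (p + q * s)) (Ioi 0) ∧
      ∫ s in Ioi (0 : ℝ), Real.exp (-(lam * s)) * (p + q * s) = p / lam + q / lam ^ 2 := by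
  set G : ℝ → ℝ := fun s => -(Real.exp (-(lam * s)) * (p / lam + q * (s / lam + 1 / lam ^ 2)))
    with hG
  have hder : ∀ s : ℝ, HasDerivAt G (Real.exp (-(lam * s)) * (p + q * s)) s := by
    intro s
    have h1 : HasDerivAt (fun s : ℝ => -(lam * s)) (-lam) s := by
      have h0 := ((hasDerivAt_id s).const_mul lam).fun_neg
      simpa using h0
    have h2 := h1.exp
    have h3 : HasDerivAt (fun s : ℝ => p / lam + q * (s / lam + 1 / lam ^ 2)) (q / lam) s := by
      have h4 : HasDerivAt (fun s : ℝ => s / lam) (1 / lam) s := (hasDerivAt_id s).div_const lam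
      have h5 := ((h4.add_const (1 / lam ^ 2)).const_mul q).const_add (p / lam)
      have h6 : q * (1 / lam) = q / lam := by ring
      rw [h6] at h5
      exact h5
    have h6 := (h2.fun_mul h3).fun_neg
    have h7 : -(Real.exp (-(lam * s)) * -lam * (p / lam + q * (s / lam + 1 / lam ^ 2)) +
        Real.exp (-(lam * s)) * (q / lam)) = Real.exp (-(lam * s)) * (p + q * s) := by
      field_simp
      ring
    rw [h7] at h6
    exact h6
  have hlim : Tendsto G atTop (𝓝 0) := by
    have h1 : Tendsto (fun s : ℝ => lam * s) atTop atTop := tendsto_id.const_mul_atTop hlam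
    have h2 : Tendsto (fun s : ℝ => Real.exp (-(lam * s))) atTop (𝓝 0) :=
      Real.tendsto_exp_neg_atTop_nhds_zero.comp h1
    have h3 : Tendsto (fun s : ℝ => (lam * s) ^ 1 * Real.exp (-(lam * s))) atTop (𝓝 0) :=
      (Real.tendsto_pow_mul_exp_neg_atTop_nhds_zero 1).comp h1
    have h4 := ((h2.const_mul (p / lam + q / lam ^ 2)).add (h3.const_mul (q / lam ^ 2))).neg
    simp only [mul_zero, add_zero, neg_zero] at h4
    refine h4.congr fun s => ?_
    simp only [hG]
    field_simp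
    ring
  have hnn : ∀ s ∈ Ioi (0 : ℝ), 0 ≤ Real.exp (-(lam * s)) * (p + q * s) := by
    intro s hs
    have : 0 < s := hs
    positivity
  refine ⟨integrableOn_Ioi_deriv_of_nonneg (hder 0).continuousAt.continuousWithinAt
    (fun x _ => hder x) hnn hlim, ?_⟩
  rw [integral_Ioi_of_hasDerivAt_of_nonneg (hder 0).continuousAt.continuousWithinAt
    (fun x _ => hder x) hnn hlim]
  simp only [hG]
  field_simp
  ring_nf
  simp

theorem core (hLIN : S_LIN) (hOD2 : S_OD2) (A : ℝ × ℝ → ℝ × ℝ) (u : ℝ × ℝ → ℂ) (hu : Adm A u)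
    (x0 y0 th σ ℓ : ℝ) (hσ : σ = 1 ∨ σ = -1) (hc : 1 / 2 ≤ Real.cos th)
    (hκ0 : 0 ≤ σ * Real.sin th) (hκc : σ * Real.sin th ≤ Real.cos th) (hℓ : 0 < ℓ) (s : ℝ)
    (hs : 0 < s) :
    ∫ t in (-ℓ)..0, ‖u ((x0, y0) + s • TT th + t • (σ • NN th))‖ ^ 2 ≤
      2 * (∫ y in (y0 - 2 * ℓ)..(y0 + 2 * ℓ), ‖u (x0, y)‖ ^ 2) +
        2 * (s + ℓ) * ∫ z in {z : ℝ × ℝ | x0 < z.1}, ‖DD A u (TT th) z‖ ^ 2 := by
  obtain ⟨hL1, hL2, hL3, hL4, hL5⟩ := hLIN A u hu
  set c := Real.cos th with hcd
  set κ := σ * Real.sin th with hκd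
  have hcpos : 0 < c := by linarith
  have hc1 : c ≤ 1 := Real.cos_le_one th
  have hcs : c ^ 2 + Real.sin th ^ 2 = 1 := Real.cos_sq_add_sin_sq th
  have hσ2 : σ * σ = 1 := by rcases hσ with h | h <;> rw [h] <;> norm_num
  -- the density
  set F : ℝ × ℝ → ℝ := fun z => ‖DD A u (TT th) z‖ ^ 2 with hF
  have hFc : Continuous F := ((hu.cont (TT th)).norm).pow 2
  have hFs : HasCompactSupport F := (hL3 (TT th)).comp_left (g := fun z : ℂ => ‖z‖ ^ 2) (by simp)
  have hFn : ∀ z, 0 ≤ F z := fun z => by positivity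
  have hFi : Integrable F volume := hFc.integrable_of_hasCompactSupport hFs
  set D : Set (ℝ × ℝ) := {z : ℝ × ℝ | x0 < z.1} with hD
  have hDm : MeasurableSet D := measurableSet_lt measurable_const measurable_fst
  set F1 : ℝ × ℝ → ℝ := D.indicator F with hF1
  have hF1i : Integrable F1 volume := hFi.indicator hDm
  have hF1n : ∀ z, 0 ≤ F1 z := fun z => indicator_nonneg (fun z _ => hFn z) z
  have hmp := mp_PP x0 y0 th σ hσ
  have hPc := continuous_PP x0 y0 th σ
  set Φ : ℝ × ℝ → ℝ := fun w => F1 (PP x0 y0 th σ w) with hΦ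
  have hΦi : Integrable Φ (volume : Measure (ℝ × ℝ)) :=
    (hmp.integrable_comp hF1i.aestronglyMeasurable).mpr hF1i
  have hΦn : ∀ w, 0 ≤ Φ w := fun w => hF1n _
  have hΦint : ∫ w, Φ w = ∫ z in D, F z := by
    have h1 : ∫ w, F1 w ∂(Measure.map (PP x0 y0 th σ) volume) = ∫ w, Φ w :=
      integral_map hPc.aemeasurable (by rw [hmp.map_eq]; exact hF1i.aestronglyMeasurable)
    rw [hmp.map_eq] at h1
    rw [← h1, hF1, integral_indicator hDm]
  set H : ℝ → ℝ := fun t => ∫ τ, Φ (τ, t) with hH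
  have hHi : Integrable H volume := by
    have h1 : Integrable Φ ((volume : Measure ℝ).prod volume) := hΦi
    exact h1.integral_prod_right
  have hHn : ∀ t, 0 ≤ H t := fun t => integral_nonneg fun τ => hΦn _
  have hHint : ∫ t, H t = ∫ z in D, F z := by
    rw [← hΦint]
    have h1 : Integrable Φ ((volume : Measure ℝ).prod volume) := hΦi
    exact (integral_prod_symm Φ h1).symm
  -- pointwise estimate
  have hpt : ∀ t ∈ Icc (-ℓ) 0, ‖u ((x0, y0) + s • TT th + t • (σ • NN th))‖ ^ 2 ≤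
      2 * ‖u (x0, y0 + t * (σ / c))‖ ^ 2 + 2 * (s + ℓ) * H t := by
    intro t ht
    set p : ℝ × ℝ := (x0, y0) + t • (σ • NN th) with hp
    have hPt : ∀ τ : ℝ, p + τ • TT th = PP x0 y0 th σ (τ, t) := by
      intro τ
      rw [hp, PP]
      exact add_right_comm _ _ _
    set s0 : ℝ := t * κ / c with hs0
    have hs0le : s0 ≤ 0 := by
      rw [hs0]
      exact div_nonpos_of_nonpos_of_nonneg (mul_nonpos_of_nonpos_of_nonneg ht.2 hκ0) hcpos.le
    have hs0ge : -ℓ ≤ s0 := by
      rw [hs0, le_div_iff₀ hcpos]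
      have h1 : -ℓ ≤ t := ht.1
      have h2 : t ≤ 0 := ht.2
      nlinarith
    have hstart : PP x0 y0 th σ (s0, t) = (x0, y0 + t * (σ / c)) := by
      refine Prod.ext ?_ ?_
      · rw [PP_fst]
        simp only
        rw [hs0]
        field_simp
        ring
      · rw [PP_snd]
        simp only
        rw [hs0]
        have h1 : Real.sin th = σ * κ := by rw [hκd]; linear_combination (-Real.sin th) * hσ2
        rw [h1] at hcs ⊢
        field_simp
        have h2 : κ ^ 2 + c ^ 2 = 1 := by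
          have : (σ * κ) ^ 2 = κ ^ 2 := by
            calc (σ * κ) ^ 2 = (σ * σ) * κ ^ 2 := by ring
              _ = κ ^ 2 := by rw [hσ2, one_mul]
          linarith
        linear_combination (t * σ) * h2
    have hod := (hOD2 _ _ _ (hL1 p (TT th)) 0 s0 s (by linarith)).1
    simp only [Complex.ofReal_zero, zero_mul, add_zero, abs_zero, mul_zero, zero_mul,
      Real.exp_zero, mul_one] at hod
    rw [hPt s, hPt s0, hstart] at hod
    have h1 : ∫ τ in s0..s, ‖DD A u (TT th) (p + τ • TT th)‖ ^ 2 ≤ H t := by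
      rw [intervalIntegral.integral_of_le (by linarith)]
      have h2 : ∫ τ in Ioc s0 s, ‖DD A u (TT th) (p + τ • TT th)‖ ^ 2 = ∫ τ in Ioc s0 s, Φ (τ, t) := by
        refine setIntegral_congr_fun measurableSet_Ioc fun τ hτ => ?_
        simp only [hΦ, hF1]
        rw [indicator_of_mem, hPt τ]
        rw [hD]
        change x0 < (PP x0 y0 th σ (τ, t)).1
        rw [PP_fst]
        simp only
        have h3 : s0 < τ := hτ.1
        rw [hs0, div_lt_iff₀ hcpos] at h3
        linarith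
      rw [h2]
      have h4 : Integrable (fun τ : ℝ => Φ (τ, t)) volume := by
        have h5 : Continuous (fun τ : ℝ => F (PP x0 y0 th σ (τ, t))) :=
          hFc.comp (hPc.comp (by fun_prop))
        have h6 : HasCompactSupport (fun τ : ℝ => F (PP x0 y0 th σ (τ, t))) := by
          have h7 : Topology.IsClosedEmbedding (fun τ : ℝ => PP x0 y0 th σ (τ, t)) := by
            have h8 : (fun τ : ℝ => PP x0 y0 th σ (τ, t)) = fun τ : ℝ => p + τ • TT th := by
              funext τ; rw [hPt]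
            rw [h8]
            have h9 : TT th ≠ 0 := by
              intro h
              have h10 : (TT th).1 = 0 := by rw [h]; rfl
              exact hcpos.ne' h10
            exact (Homeomorph.addLeft p).isClosedEmbedding.comp (isClosedEmbedding_smul_left h9)
          exact hFs.comp_isClosedEmbedding h7
        have h11 : Integrable (fun τ : ℝ => F (PP x0 y0 th σ (τ, t))) volume :=
          h5.integrable_of_hasCompactSupport h6
        have h12 : (fun τ : ℝ => Φ (τ, t)) =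
            ((fun τ : ℝ => PP x0 y0 th σ (τ, t)) ⁻¹' D).indicator
              (fun τ : ℝ => F (PP x0 y0 th σ (τ, t))) := by
          funext τ
          simp only [hΦ, hF1, indicator, mem_preimage]
        rw [h12]
        refine h11.indicator ?_
        exact hDm.preimage (hPc.comp (by fun_prop : Continuous fun τ : ℝ => ((τ, t) : ℝ × ℝ))).measurable
      exact setIntegral_le_integral h4 (Filter.Eventually.of_forall fun τ => hΦn _)
    have h0 : 0 ≤ ∫ τ in s0..s, ‖DD A u (TT th) (p + τ • TT th)‖ ^ 2 :=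
      intervalIntegral.integral_nonneg (by linarith) fun τ _ => by positivity
    have hPs : (x0, y0) + s • TT th + t • (σ • NN th) = PP x0 y0 th σ (s, t) := rfl
    rw [hPs]
    calc ‖u (PP x0 y0 th σ (s, t))‖ ^ 2
        ≤ 2 * (‖u (x0, y0 + t * (σ / c))‖ ^ 2 +
          (s - s0) * ∫ τ in s0..s, ‖DD A u (TT th) (p + τ • TT th)‖ ^ 2) := hod
      _ ≤ 2 * (‖u (x0, y0 + t * (σ / c))‖ ^ 2 + (s + ℓ) * H t) := by
          have h2 : (s - s0) * ∫ τ in s0..s, ‖DD A u (TT th) (p + τ • TT th)‖ ^ 2 ≤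
              (s + ℓ) * H t := by
            apply mul_le_mul (by linarith) h1 h0 (by linarith)
          linarith
      _ = _ := by ring
  have huc : Continuous u := hu.smooth.continuous
  have hint1 : Continuous (fun t : ℝ => ‖u ((x0, y0) + s • TT th + t • (σ • NN th))‖ ^ 2) := by
    fun_prop
  have hint2 : Continuous (fun t : ℝ => ‖u (x0, y0 + t * (σ / c))‖ ^ 2) := by fun_prop
  have hint3 : IntervalIntegrable H volume (-ℓ) 0 := hHi.intervalIntegrable
  have hstep : ∫ t in (-ℓ)..0, ‖u ((x0, y0) + s • TT th + t • (σ • NN th))‖ ^ 2 ≤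
      ∫ t in (-ℓ)..0, (2 * ‖u (x0, y0 + t * (σ / c))‖ ^ 2 + 2 * (s + ℓ) * H t) := by
    refine intervalIntegral.integral_mono_on (by linarith) (hint1.intervalIntegrable _ _) ?_ hpt
    exact ((hint2.intervalIntegrable _ _).const_mul 2).add (hint3.const_mul _)
  rw [intervalIntegral.integral_add ((hint2.intervalIntegrable _ _).const_mul 2)
    (hint3.const_mul _), intervalIntegral.integral_const_mul, intervalIntegral.integral_const_mul]
    at hstep
  have hone : ∫ t in (-ℓ)..0, ‖u (x0, y0 + t * (σ / c))‖ ^ 2 ≤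
      ∫ y in (y0 - 2 * ℓ)..(y0 + 2 * ℓ), ‖u (x0, y)‖ ^ 2 := by
    have hab : |σ / c| = 1 / c := by
      rw [abs_div, abs_of_pos hcpos]
      rcases hσ with h | h <;> rw [h] <;> norm_num
    refine int_one (fun y => ‖u (x0, y)‖ ^ 2) (by fun_prop) (fun y => by positivity) y0 (σ / c) ℓ hℓ
      ?_ ?_
    · rw [hab, le_div_iff₀ hcpos]; linarith
    · rw [hab, div_le_iff₀ hcpos]; linarith
  have htwo : ∫ t in (-ℓ)..0, H t ≤ ∫ z in D, F z := by
    rw [← hHint, intervalIntegral.integral_of_le (by linarith)]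
    exact setIntegral_le_integral hHi (Filter.Eventually.of_forall hHn)
  calc _ ≤ _ := hstep
    _ ≤ _ := by
      have h1 : 0 ≤ 2 * (s + ℓ) := by linarith
      have h2 := mul_le_mul_of_nonneg_left htwo h1
      linarith

end TI

open TI in
theorem pTI (hLIN : S_LIN) (hOD2 : S_OD2) (hGEO2 : S_GEO2) : S_TI := by
  intro α ℓ hα hℓ
  refine ⟨4 / α + 4 * ℓ / α + 4 / α ^ 2, by positivity, ?_⟩
  intro a b δ θ X Y hG A u hu S hS σ hσ hσθ
  obtain ⟨g1, g2, g3, -⟩ := hGEO2 a b δ θ X Y hG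
  have hδ := hG.pos
  have hδ2 := hG.small
  have hc := g1 b
  have hbd := hG.bd b
  have hκ0 : 0 ≤ σ * Real.sin (θ b) := by
    have hpi := Real.pi_gt_three
    rcases hσ with h | h
    · rw [h, one_mul] at hσθ ⊢
      refine Real.sin_nonneg_of_nonneg_of_le_pi hσθ ?_
      have := (abs_le.mp hbd).2
      linarith
    · rw [h] at hσθ ⊢
      have h1 : 0 ≤ Real.sin (-θ b) := by
        refine Real.sin_nonneg_of_nonneg_of_le_pi (by linarith) ?_
        have := (abs_le.mp hbd).1
        linarith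
      rw [Real.sin_neg] at h1
      linarith
  have hκc : σ * Real.sin (θ b) ≤ Real.cos (θ b) := by
    have h1 := g3 b
    have h2 : σ * Real.sin (θ b) ≤ |Real.sin (θ b)| := by
      rcases hσ with h | h <;> rw [h]
      · rw [one_mul]; exact le_abs_self _
      · rw [neg_one_mul]; exact neg_le_abs _
    have h3 : 2 * δ * Real.cos (θ b) ≤ 1 * Real.cos (θ b) := by
      apply mul_le_mul_of_nonneg_right _ (by linarith)
      linarith
    linarith
  set I1 := ∫ y in (Y S - 2 * ℓ)..(Y S + 2 * ℓ), ‖u (X S, y)‖ ^ 2 with hI1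
  set I2 := ∫ z in {z : ℝ × ℝ | X S < z.1}, ‖DD A u (TT (θ b)) z‖ ^ 2 with hI2
  have hI1n : 0 ≤ I1 := intervalIntegral.integral_nonneg (by linarith) fun y _ => by positivity
  have hI2n : 0 ≤ I2 := integral_nonneg fun z => by positivity
  have hlam : 0 < α / (2 * δ) := by positivity
  obtain ⟨e1, e2⟩ := int_exp (α / (2 * δ)) (2 * I1 + 2 * ℓ * I2) (2 * I2) hlam (by positivity)
    (by positivity)
  have hmain : (∫ s in Ioi (0 : ℝ), Real.exp (-(α * (s / (2 * δ)))) *
            ∫ t in (-ℓ)..0, ‖u ((X S, Y S) + s • TT (θ b) + t • (σ • NN (θ b)))‖ ^ 2) ≤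
      ∫ s in Ioi (0 : ℝ), Real.exp (-(α / (2 * δ) * s)) * (2 * I1 + 2 * ℓ * I2 + 2 * I2 * s) := by
    refine integral_mono_of_nonneg ?_ e1 ?_
    · refine Filter.Eventually.of_forall fun s => ?_
      refine mul_nonneg (Real.exp_pos _).le ?_
      exact intervalIntegral.integral_nonneg (by linarith) fun y _ => by positivity
    · refine (ae_restrict_iff' measurableSet_Ioi).mpr (Filter.Eventually.of_forall fun s hs => ?_)
      have h1 := core hLIN hOD2 A u hu (X S) (Y S) (θ b) σ ℓ hσ hc hκ0 hκc hℓ s hs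
      have h2 : α * (s / (2 * δ)) = α / (2 * δ) * s := by ring
      simp only
      rw [h2]
      refine mul_le_mul_of_nonneg_left ?_ (Real.exp_pos _).le
      calc _ ≤ _ := h1
        _ = _ := by rw [← hI1, ← hI2]; ring
  refine hmain.trans ?_
  rw [e2]
  have h1 : (2 * I1 + 2 * ℓ * I2) / (α / (2 * δ)) = δ * (4 / α * I1 + 4 * ℓ / α * I2) := by
    field_simp
    ring
  have h2 : 2 * I2 / (α / (2 * δ)) ^ 2 ≤ δ * (4 / α ^ 2 * I2) := by
    have h3 : 2 * I2 / (α / (2 * δ)) ^ 2 = (2 * δ) * (δ * (4 / α ^ 2 * I2)) := by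
      field_simp
      ring
    rw [h3]
    have h4 : 0 ≤ δ * (4 / α ^ 2 * I2) := by positivity
    nlinarith
  rw [h1]
  have h5 : 0 ≤ δ * (4 / α * I2) := by positivity
  have h6 : 0 ≤ δ * (4 * ℓ / α * I1) := by positivity
  have h7 : 0 ≤ δ * (4 / α ^ 2 * I1) := by positivity
  calc δ * (4 / α * I1 + 4 * ℓ / α * I2) + 2 * I2 / (α / (2 * δ)) ^ 2
      ≤ δ * (4 / α * I1 + 4 * ℓ / α * I2) + δ * (4 / α ^ 2 * I2) + δ * (4 / α * I2) +
        δ * (4 * ℓ / α * I1) + δ * (4 / α ^ 2 * I1) := by linarith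
    _ = _ := by ring

end

end Pool.Agent.T2H04.LC
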