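import Pool.Agent.T2H04.LC.Stm

/-! # Package V1: spreading on a vertical line -/

open MeasureTheory Set Filter Topology

namespace Pool.Agent.T2H04.LC

namespace V1

theorem fcont {f g : ℝ → ℂ} {a : ℝ → ℝ} (h : Lin f g a) : Continuous f :=
  continuous_iff_continuousAt.2 fun t => (h.der t).continuousAt

theorem gsupp {f g : ℝ → ℂ} {a : ℝ → ℝ} (h : Lin f g a) (hf : HasCompactSupport f) :
    HasCompactSupport g := by
  refine HasCompactSupport.intro hf fun t ht => ?_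
  have h1 : f =ᶠ[𝓝 t] 0 := notMem_tsupport_iff_eventuallyEq.1 ht
  have h2 : f t = 0 := h1.eq_of_nhds
  have h3 : HasDerivAt f 0 t := by
    have h4 : HasDerivAt (fun _ : ℝ => (0 : ℂ)) 0 t := hasDerivAt_const t 0
    exact h4.congr_of_eventuallyEq h1
  have h4 := h3.unique (h.der t)
  rw [h2] at h4
  simpa using h4.symm

theorem intg {f g : ℝ → ℂ} {a : ℝ → ℝ} (h : Lin f g a) (hf : HasCompactSupport f) (k : ℂ) :
    Integrable (fun t => ‖g t + k * f t‖ ^ 2) := by
  have hc : Continuous (fun t => ‖g t + k * f t‖ ^ 2) := by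
    have h1 := h.cont
    have h2 := fcont h
    fun_prop
  refine hc.integrable_of_hasCompactSupport ?_
  have h3 : HasCompactSupport (fun t => g t + k * f t) := (gsupp h hf).add (hf.mul_left)
  exact h3.comp_left (g := fun z : ℂ => ‖z‖ ^ 2) (by simp)

/-- one step, with an arbitrary set containing the interval -/
theorem step (hOD : S_OD2) {f g : ℝ → ℂ} {a : ℝ → ℝ} (h : Lin f g a) (hf : HasCompactSupport f)
    {R κ : ℝ} {k : ℝ} (hk : |k| = κ) (hκ : 0 ≤ κ) (s : Set ℝ) (hs : MeasurableSet s) {x y : ℝ} (hx : x ∈ Icc (-R) R)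
    (hy : y ∈ Icc (-R) R) (hxs : ∀ t, (x ≤ t ∧ t ≤ y) ∨ (y ≤ t ∧ t ≤ x) → t ∈ s) :
    ‖f y‖ ^ 2 ≤ 2 * Real.exp (2 * κ * (2 * R)) *
      (‖f x‖ ^ 2 + (2 * R) * ∫ t in s, ‖g t + (k : ℂ) * f t‖ ^ 2) := by
  have hi := intg h hf (k : ℂ)
  have hJ : 0 ≤ ∫ t in s, ‖g t + (k : ℂ) * f t‖ ^ 2 := integral_nonneg fun t => by positivity
  have hR : 0 ≤ R := by linarith [hx.1, hx.2]
  have main : ∀ p q : ℝ, p ≤ q → q - p ≤ 2 * R → (∀ t, p ≤ t → t ≤ q → t ∈ s) →
      ∀ A : ℝ, 0 ≤ A → 2 * Real.exp (2 * |k| * (q - p)) *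
        (A + (q - p) * ∫ τ in p..q, ‖g τ + (k : ℂ) * f τ‖ ^ 2) ≤
      2 * Real.exp (2 * κ * (2 * R)) * (A + (2 * R) * ∫ t in s, ‖g t + (k : ℂ) * f t‖ ^ 2) := by
    intro p q hpq hqp hsub A hA
    have h1 : ∫ τ in p..q, ‖g τ + (k : ℂ) * f τ‖ ^ 2 ≤ ∫ t in s, ‖g t + (k : ℂ) * f t‖ ^ 2 := by
      rw [intervalIntegral.integral_of_le hpq]
      refine setIntegral_mono_set hi.integrableOn ?_ ?_
      · exact Eventually.of_forall fun t => by positivity
      · exact (HasSubset.Subset.eventuallyLE fun t ht => hsub t ht.1.le ht.2)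
    have h2 : 0 ≤ ∫ τ in p..q, ‖g τ + (k : ℂ) * f τ‖ ^ 2 :=
      intervalIntegral.integral_nonneg hpq fun t _ => by positivity
    rw [hk]
    have h3 : Real.exp (2 * κ * (q - p)) ≤ Real.exp (2 * κ * (2 * R)) :=
      Real.exp_le_exp.2 (mul_le_mul_of_nonneg_left hqp (by positivity))
    have h4 : A + (q - p) * ∫ τ in p..q, ‖g τ + (k : ℂ) * f τ‖ ^ 2 ≤
        A + (2 * R) * ∫ t in s, ‖g t + (k : ℂ) * f t‖ ^ 2 := by
      have := mul_le_mul hqp h1 h2 (by positivity)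
      linarith
    have h5 : 0 ≤ A + (q - p) * ∫ τ in p..q, ‖g τ + (k : ℂ) * f τ‖ ^ 2 := by
      have : 0 ≤ q - p := by linarith
      positivity
    exact mul_le_mul (by linarith) h4 h5 (by positivity)
  rcases le_total x y with hxy | hxy
  · exact (hOD f g a h k x y hxy).1.trans (main x y hxy (by linarith [hx.1, hy.2])
      (fun t h1 h2 => hxs t (Or.inl ⟨h1, h2⟩)) _ (by positivity))
  · exact (hOD f g a h k y x hxy).2.trans (main y x hxy (by linarith [hy.1, hx.2])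
      (fun t h1 h2 => hxs t (Or.inr ⟨h1, h2⟩)) _ (by positivity))

end V1

open V1

theorem pV1 (hOD : S_OD2) : S_V1 := by
  intro α R y1 y2 hα hR1 hy12 hR2
  have hR : 0 < R := by linarith
  set K : ℝ := 2 * Real.exp (2 * (α / 2) * (2 * R)) with hK
  have hK1 : 1 ≤ K := by
    have := Real.one_le_exp (show 0 ≤ 2 * (α / 2) * (2 * R) by positivity)
    linarith
  have hy : 0 < y2 - y1 := by linarith
  refine ⟨K ^ 2 / (y2 - y1) + K ^ 2 * (2 * R), by positivity, ?_⟩
  intro f g a hL hf h hh y hy'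
  have ek1 : |(-(α / 2))| = α / 2 := by rw [abs_neg, abs_of_pos (by positivity)]
  have ek2 : |(α / 2)| = α / 2 := abs_of_pos (by positivity)
  have e1 : (∫ t in Iic h, ‖g t - ((α / 2 : ℝ) : ℂ) * f t‖ ^ 2) =
      ∫ t in Iic h, ‖g t + ((-(α / 2) : ℝ) : ℂ) * f t‖ ^ 2 := by
    congr 1
    funext t
    congr 2
    push_cast
    ring
  rw [e1]
  set J1 := ∫ t in Iic h, ‖g t + ((-(α / 2) : ℝ) : ℂ) * f t‖ ^ 2 with hJ1
  set J2 := ∫ t in Ici h, ‖g t + ((α / 2 : ℝ) : ℂ) * f t‖ ^ 2 with hJ2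
  have j1 : 0 ≤ J1 := integral_nonneg fun t => by positivity
  have j2 : 0 ≤ J2 := integral_nonneg fun t => by positivity
  have lowS : ∀ x ∈ Icc (-R) R, ∀ z ∈ Icc (-R) R, x ≤ h → z ≤ h →
      ‖f z‖ ^ 2 ≤ K * (‖f x‖ ^ 2 + 2 * R * J1) := by
    intro x hx z hz hxh hzh
    exact step hOD hL hf ek1 (by positivity) (Iic h) measurableSet_Iic hx hz (fun t ht => by
      rcases ht with ht | ht
      · exact ht.2.trans hzh
      · exact ht.2.trans hxh)
  have upS : ∀ x ∈ Icc (-R) R, ∀ z ∈ Icc (-R) R, h ≤ x → h ≤ z →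
      ‖f z‖ ^ 2 ≤ K * (‖f x‖ ^ 2 + 2 * R * J2) := by
    intro x hx z hz hxh hzh
    exact step hOD hL hf ek2 (by positivity) (Ici h) measurableSet_Ici hx hz (fun t ht => by
      rcases ht with ht | ht
      · exact hxh.trans ht.1
      · exact hzh.trans ht.1)
  have all : ∀ x ∈ Icc (-R) R, ‖f y‖ ^ 2 ≤ K ^ 2 * (‖f x‖ ^ 2 + 2 * R * (J1 + J2)) := by
    intro x hx
    have hf0 : 0 ≤ ‖f x‖ ^ 2 := by positivity
    have p1 : 0 ≤ 2 * R * J1 := by positivity
    have p2 : 0 ≤ 2 * R * J2 := by positivity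
    have hKK : K ≤ K ^ 2 := by nlinarith
    have q0 : 0 ≤ K := by linarith
    rcases le_total x h with hx' | hx' <;> rcases le_total y h with hy'' | hy''
    · refine (lowS x hx y hy' hx' hy'').trans ?_
      exact mul_le_mul hKK (by linarith) (by linarith) (by positivity)
    · have a1 := lowS x hx h hh hx' (le_refl h)
      have a2 := upS h hh y hy' (le_refl h) hy''
      calc ‖f y‖ ^ 2 ≤ K * (‖f h‖ ^ 2 + 2 * R * J2) := a2
        _ ≤ K * (K * (‖f x‖ ^ 2 + 2 * R * J1) + K * (2 * R * J2)) := by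
            refine mul_le_mul_of_nonneg_left ?_ q0
            have : 2 * R * J2 ≤ K * (2 * R * J2) := le_mul_of_one_le_left p2 hK1
            linarith
        _ = _ := by ring
    · have a1 := upS x hx h hh hx' (le_refl h)
      have a2 := lowS h hh y hy' (le_refl h) hy''
      calc ‖f y‖ ^ 2 ≤ K * (‖f h‖ ^ 2 + 2 * R * J1) := a2
        _ ≤ K * (K * (‖f x‖ ^ 2 + 2 * R * J2) + K * (2 * R * J1)) := by
            refine mul_le_mul_of_nonneg_left ?_ q0
            have : 2 * R * J1 ≤ K * (2 * R * J1) := le_mul_of_one_le_left p1 hK1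
            linarith
        _ = _ := by ring
    · refine (upS x hx y hy' hx' hy'').trans ?_
      exact mul_le_mul hKK (by linarith) (by linarith) (by positivity)
  have hfc := fcont hL
  have hint : (y2 - y1) * ‖f y‖ ^ 2 ≤
      K ^ 2 * ((∫ t in y1..y2, ‖f t‖ ^ 2) + (y2 - y1) * (2 * R * (J1 + J2))) := by
    have h1 : ∫ _t in y1..y2, ‖f y‖ ^ 2 ≤
        ∫ t in y1..y2, K ^ 2 * (‖f t‖ ^ 2 + 2 * R * (J1 + J2)) := by
      refine intervalIntegral.integral_mono_on hy12.le (by simp) ?_ ?_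
      · exact (by fun_prop : Continuous fun t => K ^ 2 * (‖f t‖ ^ 2 +
          2 * R * (J1 + J2))).intervalIntegrable _ _
      · intro t ht
        exact all t ⟨hR1.trans ht.1, ht.2.trans hR2⟩
    rw [intervalIntegral.integral_const, smul_eq_mul, intervalIntegral.integral_const_mul,
      intervalIntegral.integral_add ((by fun_prop : Continuous fun t =>
        ‖f t‖ ^ 2).intervalIntegrable _ _) (by simp), intervalIntegral.integral_const,
      smul_eq_mul] at h1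
    exact h1
  set I := ∫ t in y1..y2, ‖f t‖ ^ 2 with hI
  have hI0 : 0 ≤ I := intervalIntegral.integral_nonneg hy12.le fun t _ => by positivity
  have h2 : ‖f y‖ ^ 2 ≤ K ^ 2 / (y2 - y1) * I + K ^ 2 * (2 * R) * (J1 + J2) := by
    have h3 : ‖f y‖ ^ 2 ≤ (K ^ 2 * (I + (y2 - y1) * (2 * R * (J1 + J2)))) / (y2 - y1) := by
      rw [le_div_iff₀ hy, mul_comm]
      exact hint
    refine h3.trans (le_of_eq ?_)
    field_simp
  refine h2.trans ?_
  have h4 : 0 ≤ K ^ 2 / (y2 - y1) := by positivity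
  have h5 : 0 ≤ K ^ 2 * (2 * R) := by positivity
  nlinarith [mul_nonneg h4 (add_nonneg j1 j2), mul_nonneg h5 hI0]

end Pool.Agent.T2H04.LC
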