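import Pool.Agent.T2H04.LC.Stm

open MeasureTheory Set Filter Topology

namespace Pool.Agent.T2H04.LC

namespace YYC

theorem slice_integrable (F : ℝ × ℝ → ℝ) (hF : Continuous F) (R : ℝ) (h2 : ∀ x y : ℝ, R < |y| → F (x, y) = 0)
    (x : ℝ) : Integrable (fun y => F (x, y)) := by
  apply Continuous.integrable_of_hasCompactSupport (hF.comp (by fun_prop))
  apply HasCompactSupport.intro (K := Icc (-R) R) isCompact_Icc
  intro y hy
  apply h2
  by_contra hcon
  push Not at hcon
  exact hy (abs_le.mp hcon)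

theorem cont_Iic (F : ℝ × ℝ → ℝ) (hF : Continuous F) (R : ℝ) (h2 : ∀ x y : ℝ, R < |y| → F (x, y) = 0) :
    Continuous (fun p : ℝ × ℝ => ∫ y in Iic p.2, F (p.1, y)) := by
  have key : ∀ p : ℝ × ℝ, (∫ y in Iic p.2, F (p.1, y)) = ∫ y in (-(|R| + 1))..p.2, F (p.1, y) := by
    intro p
    have hi := slice_integrable F hF R h2 p.1
    rw [← intervalIntegral.integral_Iic_sub_Iic hi.integrableOn hi.integrableOn]
    have : (∫ y in Iic (-(|R| + 1)), F (p.1, y)) = 0 := by
      apply setIntegral_eq_zero_of_forall_eq_zero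
      intro y hy
      apply h2
      have hy' : y ≤ -(|R| + 1) := hy
      rw [abs_of_nonpos (by linarith [abs_nonneg R])]
      linarith [le_abs_self R]
    rw [this, sub_zero]
  simp_rw [key]
  apply intervalIntegral.continuous_parametric_intervalIntegral_of_continuous (f := fun (p : ℝ × ℝ) y => F (p.1, y))
  · have : Continuous (fun q : (ℝ × ℝ) × ℝ => F (q.1.1, q.2)) := hF.comp (by fun_prop)
    exact this
  · exact continuous_snd

theorem cont_Ici (F : ℝ × ℝ → ℝ) (hF : Continuous F) (R : ℝ) (h2 : ∀ x y : ℝ, R < |y| → F (x, y) = 0) :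
    Continuous (fun p : ℝ × ℝ => ∫ y in Ici p.2, F (p.1, y)) := by
  have key : ∀ p : ℝ × ℝ, (∫ y in Ici p.2, F (p.1, y)) = (∫ y in Iic (|R| + 1), F (p.1, y)) -
      ∫ y in Iic p.2, F (p.1, y) := by
    intro p
    have hi := slice_integrable F hF R h2 p.1
    rw [intervalIntegral.integral_Iic_sub_Iic hi.integrableOn hi.integrableOn, integral_Ici_eq_integral_Ioi,
      ← intervalIntegral.integral_interval_add_Ioi (b := |R| + 1) hi.integrableOn hi.integrableOn]
    have : (∫ y in Ioi (|R| + 1), F (p.1, y)) = 0 := by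
      apply setIntegral_eq_zero_of_forall_eq_zero
      intro y hy
      apply h2
      have hy' : |R| + 1 < y := hy
      rw [abs_of_nonneg (by linarith [abs_nonneg R])]
      linarith [le_abs_self R]
    rw [this, add_zero]
  simp_rw [key]
  have h1 := cont_Iic F hF R h2
  apply Continuous.sub _ h1
  exact h1.comp (f := fun p : ℝ × ℝ => (p.1, |R| + 1)) (by fun_prop)

end YYC

open YYC in
theorem pYYC (hLIN : S_LIN) : S_YYC := by
  intro α A u hu
  obtain ⟨-, -, hcs, -, -⟩ := hLIN A u hu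
  have huc : Continuous u := hu.smooth.continuous
  -- a common radius
  obtain ⟨R, hR⟩ : ∃ R : ℝ, ∀ z : ℝ × ℝ, R < ‖z‖ → u z = 0 ∧ DD A u (0, 1) z = 0 := by
    obtain ⟨R1, h1⟩ := hu.supp.isCompact.isBounded.exists_norm_le
    obtain ⟨R2, h2⟩ := (hcs (0, 1)).isCompact.isBounded.exists_norm_le
    refine ⟨max R1 R2, fun z hz => ⟨?_, ?_⟩⟩
    · by_contra hcon
      have := h1 z (subset_tsupport _ hcon)
      exact absurd (lt_of_le_of_lt (le_max_left R1 R2) hz) (not_lt.mpr this)
    · by_contra hcon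
      have := h2 z (subset_tsupport _ hcon)
      exact absurd (lt_of_le_of_lt (le_max_right R1 R2) hz) (not_lt.mpr this)
  have hx : ∀ x y : ℝ, R < |x| → u (x, y) = 0 ∧ DD A u (0, 1) (x, y) = 0 := fun x y h => by
    apply hR
    rw [Prod.norm_def]
    exact lt_of_lt_of_le h (le_max_left _ _)
  have hy : ∀ x y : ℝ, R < |y| → u (x, y) = 0 ∧ DD A u (0, 1) (x, y) = 0 := fun x y h => by
    apply hR
    rw [Prod.norm_def]
    exact lt_of_lt_of_le h (le_max_right _ _)
  set F1 : ℝ × ℝ → ℝ := fun z => ‖DD A u (0, 1) z - ((α / 2 : ℝ) : ℂ) * u z‖ ^ 2 with hF1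
  set F2 : ℝ × ℝ → ℝ := fun z => ‖DD A u (0, 1) z + ((α / 2 : ℝ) : ℂ) * u z‖ ^ 2 with hF2
  have hF1c : Continuous F1 := (((hu.cont _).sub (continuous_const.mul huc)).norm).pow 2
  have hF2c : Continuous F2 := (((hu.cont _).add (continuous_const.mul huc)).norm).pow 2
  have z1 : ∀ x y : ℝ, R < |y| → F1 (x, y) = 0 := fun x y h => by
    rw [hF1]; simp only; rw [(hy x y h).1, (hy x y h).2]; simp
  have z2 : ∀ x y : ℝ, R < |y| → F2 (x, y) = 0 := fun x y h => by
    rw [hF2]; simp only; rw [(hy x y h).1, (hy x y h).2]; simp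
  have w1 : ∀ x y : ℝ, R < |x| → F1 (x, y) = 0 := fun x y h => by
    rw [hF1]; simp only; rw [(hx x y h).1, (hx x y h).2]; simp
  have w2 : ∀ x y : ℝ, R < |x| → F2 (x, y) = 0 := fun x y h => by
    rw [hF2]; simp only; rw [(hx x y h).1, (hx x y h).2]; simp
  refine ⟨?_, ?_, R, ?_⟩
  · exact (cont_Iic F1 hF1c R z1).add (cont_Ici F2 hF2c R z2)
  · intro x h
    apply add_nonneg
    · exact integral_nonneg fun _ => sq_nonneg _
    · exact integral_nonneg fun _ => sq_nonneg _
  · intro x h hxR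
    have e1 : (∫ y in Iic h, F1 (x, y)) = 0 := by
      apply setIntegral_eq_zero_of_forall_eq_zero
      intro y _
      exact w1 x y hxR
    have e2 : (∫ y in Ici h, F2 (x, y)) = 0 := by
      apply setIntegral_eq_zero_of_forall_eq_zero
      intro y _
      exact w2 x y hxR
    change (∫ y in Iic h, F1 (x, y)) + (∫ y in Ici h, F2 (x, y)) = 0
    rw [e1, e2, add_zero]

end Pool.Agent.T2H04.LC
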