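import Mathlib

/-!
# MP_60200f_mp: leaky curves in a local magnetic field, definitions
-/

open MeasureTheory Set Filter Topology

namespace Pool.Agent.T2H04.LC

noncomputable section

/-- The covariant derivative `∂_e u - i (A · e) u` of `u` in the direction `e` at the point `z`. -/
def DD (A : ℝ × ℝ → ℝ × ℝ) (u : ℝ × ℝ → ℂ) (e z : ℝ × ℝ) : ℂ :=
  fderiv ℝ u z e - Complex.I * (((A z).1 * e.1 + (A z).2 * e.2 : ℝ) : ℂ) * u z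

/-- The angle of the curve of curvature `ε γ` with the first axis. -/
def ang (γ : ℝ → ℝ) (ε s : ℝ) : ℝ := ε * ∫ r in Iic s, γ r

/-- The curve with curvature `ε γ`, parametrised by arc length, equal to `(s, 0)` to the left of the support
of `γ`. -/
def crv (γ : ℝ → ℝ) (ε s : ℝ) : ℝ × ℝ :=
  (s + ∫ r in Iic s, (Real.cos (ang γ ε r) - 1), ∫ r in Iic s, Real.sin (ang γ ε r))

/-- The quadratic form of `(-i ∇ - A)² - α δ(· - Γ)`. -/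
def form (α : ℝ) (A : ℝ × ℝ → ℝ × ℝ) (Γ : ℝ → ℝ × ℝ) (u : ℝ × ℝ → ℂ) : ℝ :=
  (∫ z, (‖DD A u (1, 0) z‖ ^ 2 + ‖DD A u (0, 1) z‖ ^ 2)) - α * ∫ s, ‖u (Γ s)‖ ^ 2

/-- The magnetic field `∂₁ A₂ - ∂₂ A₁`. -/
def curl (A : ℝ × ℝ → ℝ × ℝ) (z : ℝ × ℝ) : ℝ := (fderiv ℝ A z (1, 0)).2 - (fderiv ℝ A z (0, 1)).1

/-- The Aharonov-Bohm potential of flux `2 π Φ` at the point `p`. -/
def AB (Φ : ℝ) (p z : ℝ × ℝ) : ℝ × ℝ :=
  (-(Φ * (z.2 - p.2)) / ((z.1 - p.1) ^ 2 + (z.2 - p.2) ^ 2),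
    Φ * (z.1 - p.1) / ((z.1 - p.1) ^ 2 + (z.2 - p.2) ^ 2))

/-- Admissible functions: `C¹`, compact support, continuous covariant derivatives. -/
structure Adm (A : ℝ × ℝ → ℝ × ℝ) (u : ℝ × ℝ → ℂ) : Prop where
  smooth : ContDiff ℝ 1 u
  supp : HasCompactSupport u
  cont : ∀ e : ℝ × ℝ, Continuous (DD A u e)

/-- One-dimensional situation: `g = f' - i a f` is continuous (`a` is arbitrary). -/
structure Lin (f g : ℝ → ℂ) (a : ℝ → ℝ) : Prop where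
  der : ∀ t, HasDerivAt f (g t + Complex.I * (a t : ℂ) * f t) t
  cont : Continuous g

/-- The abstract geometry of a curve `(X, Y)` with angle `θ`, `|θ| ≤ δ`, straight outside `[a, b]`. -/
structure Geo (a b δ : ℝ) (θ X Y : ℝ → ℝ) : Prop where
  hab : a < b
  pos : 0 < δ
  small : δ ≤ 1 / 2
  bd : ∀ s, |θ s| ≤ δ
  cont : Continuous θ
  left : ∀ s ≤ a, θ s = 0
  right : ∀ s, b ≤ s → θ s = θ b
  dX : ∀ s, HasDerivAt X (Real.cos (θ s)) s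
  dY : ∀ s, HasDerivAt Y (Real.sin (θ s)) s
  X0 : ∀ s ≤ a, X s = s
  Y0 : ∀ s ≤ a, Y s = 0

/-- Holonomy: for all rectangles with lower left corner in `[x1, x2] × [y1, y2]` and sides `l1`, `l2` the phases
along the two paths from the lower left to the upper right corner differ by at least `c`. -/
structure Hol (A : ℝ × ℝ → ℝ × ℝ) (x1 x2 y1 y2 l1 l2 c : ℝ) : Prop where
  hx : x1 < x2
  hy : y1 < y2
  hl1 : 0 < l1
  hl2 : 0 < l2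
  hc : 0 < c
  cont : ContinuousOn A {z | (z.1 ∈ Icc x1 (x2 + l1) ∧ (z.2 ∈ Icc y1 y2 ∨ z.2 ∈ Icc (y1 + l2) (y2 + l2))) ∨
    ((z.1 ∈ Icc x1 x2 ∨ z.1 ∈ Icc (x1 + l1) (x2 + l1)) ∧ z.2 ∈ Icc y1 (y2 + l2))}
  hol : ∀ x ∈ Icc x1 x2, ∀ y ∈ Icc y1 y2,
    c ≤ ‖Complex.exp (Complex.I * (((∫ σ in x..(x + l1), (A (σ, y)).1) +
          ∫ τ in y..(y + l2), (A (x + l1, τ)).2 : ℝ) : ℂ)) -
        Complex.exp (Complex.I * (((∫ τ in y..(y + l2), (A (x, τ)).2) +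
          ∫ σ in x..(x + l1), (A (σ, y + l2)).1 : ℝ) : ℂ))‖

/-- Vertical excess on the vertical line at `x`, with respect to the height `h`. -/
def YY (A : ℝ × ℝ → ℝ × ℝ) (u : ℝ × ℝ → ℂ) (α x h : ℝ) : ℝ :=
  (∫ y in Iic h, ‖DD A u (0, 1) (x, y) - ((α / 2 : ℝ) : ℂ) * u (x, y)‖ ^ 2) +
    ∫ y in Ici h, ‖DD A u (0, 1) (x, y) + ((α / 2 : ℝ) : ℂ) * u (x, y)‖ ^ 2

/-- The density of the form `+ α²/4`, without the curve. -/
def QQ (A : ℝ × ℝ → ℝ × ℝ) (u : ℝ × ℝ → ℂ) (α : ℝ) (z : ℝ × ℝ) : ℝ :=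
  ‖DD A u (1, 0) z‖ ^ 2 + ‖DD A u (0, 1) z‖ ^ 2 + α ^ 2 / 4 * ‖u z‖ ^ 2

/-- The energy kept on the left of the line `z.1 = X S`. -/
def E1 (A : ℝ × ℝ → ℝ × ℝ) (u : ℝ × ℝ → ℂ) (α : ℝ) (θ X Y : ℝ → ℝ) (S : ℝ) : ℝ :=
  (∫ z in {z : ℝ × ℝ | z.1 < X S}, ‖DD A u (1, 0) z‖ ^ 2) +
    ∫ s in Iic S, Real.cos (θ s) * YY A u α (X s) (Y s)

/-- The direction of the right half line. -/
def TT (θ : ℝ) : ℝ × ℝ := (Real.cos θ, Real.sin θ)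

/-- The normal of the right half line. -/
def NN (θ : ℝ) : ℝ × ℝ := (-Real.sin θ, Real.cos θ)

end

end Pool.Agent.T2H04.LC
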