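import Pool.Agent.T2H04.LC.Stm

/-!
# LC: assembly of the form bound from GE, CORE, LIN
-/

open MeasureTheory Set Filter Topology

namespace Pool.Agent.T2H04.LC

theorem pMAIN (hLIN : S_LIN) (hGE : S_GE) (hCORE : S_CORE) (α : ℝ) (hα : 0 < α) (γ : ℝ → ℝ) (hγ : Continuous γ)
    (hγ' : HasCompactSupport γ) (A : ℝ × ℝ → ℝ × ℝ) (x1 x2 y1 y2 l1 l2 c : ℝ) (hH : Hol A x1 x2 y1 y2 l1 l2 c)
    (hy : 0 < y1 ∨ y2 + l2 < 0) :
    ∃ ε₀ : ℝ, 0 < ε₀ ∧ ∀ ε : ℝ, |ε| < ε₀ → ∀ u : ℝ × ℝ → ℂ, Adm A u →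
      -(α ^ 2 / 4) * (∫ z, ‖u z‖ ^ 2) ≤ form α A (crv γ ε) u := by
  obtain ⟨a, b, M, hM, hG⟩ := hGE γ hγ hγ'
  have hab : a < b := (hG 0 (1 / 2) (by simp) (by norm_num) le_rfl).hab
  obtain ⟨δ0, h0, h1, h2⟩ := hCORE α A x1 x2 y1 y2 l1 l2 c hα hH hy a b hab
  refine ⟨δ0 / M, div_pos h0 hM, fun ε hε u hu => ?_⟩
  have hε' : |ε| * M ≤ δ0 := ((lt_div_iff₀ hM).1 hε).le
  have h3 := h2 _ _ _ (hG ε δ0 hε' h0 h1) u hu
  obtain ⟨-, -, hS, -, -⟩ := hLIN A u hu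
  have hc1 := hu.cont (1, 0)
  have hc2 := hu.cont (0, 1)
  have huc := hu.smooth.continuous
  have hI1 : Integrable (fun z => ‖DD A u (1, 0) z‖ ^ 2 + ‖DD A u (0, 1) z‖ ^ 2) := by
    refine Continuous.integrable_of_hasCompactSupport (by fun_prop) ?_
    refine HasCompactSupport.intro ((hS (1, 0)).isCompact.union (hS (0, 1)).isCompact) fun z hz => ?_
    have e1 : DD A u (1, 0) z = 0 := image_eq_zero_of_notMem_tsupport fun h => hz (Or.inl h)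
    have e2 : DD A u (0, 1) z = 0 := image_eq_zero_of_notMem_tsupport fun h => hz (Or.inr h)
    simp [e1, e2]
  have hI2 : Integrable (fun z => α ^ 2 / 4 * ‖u z‖ ^ 2) := by
    refine Continuous.integrable_of_hasCompactSupport (by fun_prop) ?_
    refine HasCompactSupport.intro hu.supp fun z hz => ?_
    have e1 : u z = 0 := image_eq_zero_of_notMem_tsupport hz
    simp [e1]
  have h4 : (∫ z, QQ A u α z) = (∫ z, (‖DD A u (1, 0) z‖ ^ 2 + ‖DD A u (0, 1) z‖ ^ 2)) +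
      α ^ 2 / 4 * ∫ z, ‖u z‖ ^ 2 := by
    have e : QQ A u α = fun z => (‖DD A u (1, 0) z‖ ^ 2 + ‖DD A u (0, 1) z‖ ^ 2) + α ^ 2 / 4 * ‖u z‖ ^ 2 := by
      funext z
      simp only [QQ]
    rw [e, integral_add hI1 hI2, integral_const_mul]
  rw [h4] at h3
  simp only [form]
  linarith

end Pool.Agent.T2H04.LC
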