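import Pool.Agent.T2H04.LC.Stm

/-! # Package R1: vertical slices -/

open MeasureTheory Set Filter Topology

namespace Pool.Agent.T2H04.LC

namespace R1

theorem slice_eq (x t : ℝ) : ((x, 0) : ℝ × ℝ) + t • ((0, 1) : ℝ × ℝ) = (x, t) := by
  ext <;> simp

/-- a continuous function of compact support on the plane, restricted to a vertical line -/
theorem slice_int {E : Type*} [NormedAddCommGroup E] {F : ℝ × ℝ → E} (hc : Continuous F)
    (hs : HasCompactSupport F) (x : ℝ) : Integrable (fun y => F (x, y)) := by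
  obtain ⟨R, hR, hR2⟩ := hs.exists_pos_le_norm
  refine Continuous.integrable_of_hasCompactSupport (by fun_prop) ?_
  refine HasCompactSupport.intro (isCompact_Icc (a := -R) (b := R)) fun y hy => hR2 _ ?_
  have h1 : R ≤ |y| := by
    by_contra hcon
    push Not at hcon
    exact hy ⟨(abs_lt.1 hcon).1.le, (abs_lt.1 hcon).2.le⟩
  exact h1.trans (norm_snd_le ((x, y) : ℝ × ℝ))

/-- a continuous function on the line, zero far to the left, is integrable on `Iic S` -/
theorem left_int {φ : ℝ → ℝ} (hc : Continuous φ) (S : ℝ) (h : ∃ r, ∀ s < r, φ s = 0) :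
    IntegrableOn φ (Iic S) := by
  obtain ⟨r, hr⟩ := h
  have h1 : IntegrableOn φ (Icc (min r S) S) := hc.continuousOn.integrableOn_Icc
  have h2 : IntegrableOn φ (Iio (min r S)) := by
    refine (integrableOn_zero (μ := volume) (s := Iio (min r S))).congr_fun ?_ measurableSet_Iio
    intro s hs
    exact (hr s (lt_of_lt_of_le hs (min_le_left _ _))).symm
  refine (h2.union h1).mono_set fun s hs => ?_
  rcases lt_or_ge s (min r S) with h3 | h3
  · exact Or.inl h3
  · exact Or.inr ⟨h3, hs⟩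

end R1

open R1

theorem pR1 (hLIN : S_LIN) (hOD3 : S_OD3) (hGEO : S_GEO2) (hCV : S_CV) (hYYC : S_YYC) : S_R1 := by
  intro α a b δ θ X Y G A u hu S
  obtain ⟨hl1, hl2, hl3, -, -⟩ := hLIN A u hu
  obtain ⟨-, -, -, -, -, hXc, hYc, -, -, -⟩ := hGEO a b δ θ X Y G
  obtain ⟨hcv, -⟩ := hCV a b δ θ X Y G
  obtain ⟨hyc, -, Ry, hRy⟩ := hYYC α A u hu
  have huc : Continuous u := hu.smooth.continuous
  have hc1 : Continuous (DD A u (1, 0)) := hu.cont (1, 0)
  have hc2 : Continuous (DD A u (0, 1)) := hu.cont (0, 1)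
  -- the two parts
  set F1 : ℝ × ℝ → ℝ := fun z => ‖DD A u (1, 0) z‖ ^ 2 with hF1
  set F2 : ℝ × ℝ → ℝ := fun z => ‖DD A u (0, 1) z‖ ^ 2 + α ^ 2 / 4 * ‖u z‖ ^ 2 with hF2
  have c1 : Continuous F1 := by fun_prop
  have c2 : Continuous F2 := by fun_prop
  have s1 : HasCompactSupport F1 := (hl3 (1, 0)).comp_left (g := fun w : ℂ => ‖w‖ ^ 2) (by simp)
  have s2 : HasCompactSupport F2 := by
    have e1 : HasCompactSupport (fun z => ‖DD A u (0, 1) z‖ ^ 2) :=
      (hl3 (0, 1)).comp_left (g := fun w : ℂ => ‖w‖ ^ 2) (by simp)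
    have e2 : HasCompactSupport (fun z => α ^ 2 / 4 * ‖u z‖ ^ 2) :=
      hu.supp.comp_left (g := fun w : ℂ => α ^ 2 / 4 * ‖w‖ ^ 2) (by simp)
    exact e1.add e2
  have i1 : Integrable F1 := c1.integrable_of_hasCompactSupport s1
  have i2 : Integrable F2 := c2.integrable_of_hasCompactSupport s2
  have hQ : (∫ z in {z : ℝ × ℝ | z.1 < X S}, QQ A u α z) =
      (∫ z in {z : ℝ × ℝ | z.1 < X S}, F1 z) + ∫ z in {z : ℝ × ℝ | z.1 < X S}, F2 z := by
    rw [← integral_add i1.integrableOn i2.integrableOn]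
    congr 1
    funext z
    simp only [QQ, hF1, hF2]
    ring
  -- the slices
  have hsl : ∀ s, ∫ y, F2 (X s, y) = α * ‖u (X s, Y s)‖ ^ 2 + YY A u α (X s) (Y s) := by
    intro s
    have hL := hl1 (X s, 0) (0, 1)
    have hS := hl2 (X s, 0) (0, 1) (by simp)
    obtain ⟨o1, o2⟩ := hOD3 α _ _ _ hL hS (Y s)
    simp only [slice_eq] at o1 o2
    have hi := slice_int c2 s2 (X s)
    have e1 : ∫ y, F2 (X s, y) = (∫ y in Iic (Y s), F2 (X s, y)) + ∫ y in Ioi (Y s), F2 (X s, y) :=
      (intervalIntegral.integral_Iic_add_Ioi hi.integrableOn hi.integrableOn).symm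
    rw [e1, ← integral_Ici_eq_integral_Ioi]
    simp only [hF2]
    rw [o1, o2]
    unfold YY
    ring
  rw [hQ, hcv S F2 c2 s2]
  have e3 : ∀ s, Real.cos (θ s) * ∫ y, F2 (X s, y) =
      Real.cos (θ s) * YY A u α (X s) (Y s) + α * (Real.cos (θ s) * ‖u (X s, Y s)‖ ^ 2) := by
    intro s
    rw [hsl s]
    ring
  simp only [e3]
  -- integrability along the curve
  have hθc := G.cont
  obtain ⟨Ru, hRu, hRu2⟩ := hu.supp.exists_pos_le_norm
  have hXl : ∀ s, s ≤ a → X s = s := G.X0
  have k1 : IntegrableOn (fun s => Real.cos (θ s) * YY A u α (X s) (Y s)) (Iic S) := by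
    refine left_int ?_ S ⟨min a (-(|Ry| + 1)), fun s hs => ?_⟩
    · have h1 : Continuous (fun s => YY A u α (X s) (Y s)) := hyc.comp (hXc.prodMk hYc)
      exact (Real.continuous_cos.comp hθc).mul h1
    · have h2 : X s = s := hXl s (lt_of_lt_of_le hs (min_le_left _ _)).le
      have h3 : s < -(|Ry| + 1) := lt_of_lt_of_le hs (min_le_right _ _)
      have h4 : Ry < |X s| := by
        rw [h2]
        have h5 := neg_abs_le s
        have h6 := le_abs_self Ry
        linarith
      rw [hRy _ _ h4, mul_zero]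
  have k2 : IntegrableOn (fun s => α * (Real.cos (θ s) * ‖u (X s, Y s)‖ ^ 2)) (Iic S) := by
    refine left_int ?_ S ⟨min a (-Ru), fun s hs => ?_⟩
    · have h1 : Continuous (fun s => u (X s, Y s)) := huc.comp (hXc.prodMk hYc)
      fun_prop
    · have h2 : X s = s := hXl s (lt_of_lt_of_le hs (min_le_left _ _)).le
      have h3 : s < -Ru := lt_of_lt_of_le hs (min_le_right _ _)
      have h4 : Ru ≤ ‖((X s, Y s) : ℝ × ℝ)‖ := by
        refine le_trans ?_ (norm_fst_le ((X s, Y s) : ℝ × ℝ))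
        rw [h2, Real.norm_eq_abs]
        have h5 := neg_abs_le s
        linarith
      rw [hRu2 _ h4]
      simp
  rw [integral_add k1 k2, integral_const_mul]
  unfold E1
  ring

end Pool.Agent.T2H04.LC
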