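import Pool.Agent.T2H04.LC.Defs

/-!
# Project LC (MP_60200f_mp, leaky curves in a local magnetic field): statements of the packages with proofs

MAIN THEOREM (assembly, helper4): for every `α > 0`, every curvature `γ` and every local magnetic field (regular or
Aharonov-Bohm) there is `ε₀ > 0` such that `∫ |(∇ - i A) u|² - α ∫_Γ |u|² ≥ - (α²/4) ∫ |u|²` for all `|ε| < ε₀`.

Idea. On the left of the vertical line `x = X S` (`S ≥ b`, the curve is straight from there on) use vertical slices;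
on the right use slices orthogonal to the right half line. In each slice the one-dimensional delta interaction is
compensated up to squares `|D f ∓ (α/2) f|²` (OD3, SLI). The errors are local (size `δ²` and `δ`), and are controlled
by the kept energy `E1 + ∫ |D_T u|²` since the magnetic field has a nontrivial holonomy (HOL) and this information
spreads horizontally and vertically (SPB, V1, SPD, TI).

Every package `X`: file `Pool/Agent/T2H04/LC/X.lean`, `import Pool.Agent.T2H04.LC.Stm`, in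
`namespace Pool.Agent.T2H04.LC`, theorem `pX (h.. : S_..) : S_X` where the hypotheses are those named under `Deps`.
Put your lemmas in a sub-namespace `X`. All integrals are over continuous functions with compact support, or of such
functions over intervals.
-/

open MeasureTheory Set Filter Topology

namespace Pool.Agent.T2H04.LC

noncomputable section

/-- OD1 (30 min). Deps: none. Proof. `F τ = exp (k τ) f τ` satisfies `F' = exp (k τ) (g + k f) + i a F`, so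
`|F|' ≤ exp (k τ) |g + k f|` (in the sense `‖F t‖ ≤ ‖F s‖ + ∫_s^t`, and backwards): e.g. for `η > 0` the function
`r τ = sqrt (‖F τ‖² + η)` is differentiable with `r' = Re (F' conj F) / r = Re (e^{kτ} (g + k f) conj F) / r`, of absolute
value `≤ e^{kτ} ‖g + k f‖`; let `η → 0`. (No regularity of `a` is needed: `Re (i a F conj F) = 0`.) Divide by
`e^{k t}`, respectively `e^{k s}`, and use `e^{k (τ - t)} ≤ e^{|k| (t - s)}`. -/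
def S_OD1 : Prop := ∀ (f g : ℝ → ℂ) (a : ℝ → ℝ), Lin f g a → ∀ k s t : ℝ, s ≤ t →
  ‖f t‖ ≤ Real.exp (|k| * (t - s)) * (‖f s‖ + ∫ τ in s..t, ‖g τ + (k : ℂ) * f τ‖) ∧
  ‖f s‖ ≤ Real.exp (|k| * (t - s)) * (‖f t‖ + ∫ τ in s..t, ‖g τ + (k : ℂ) * f τ‖)

/-- OD2 (20 min). Deps: OD1. Square it: `(x + y)² ≤ 2 x² + 2 y²` and Cauchy-Schwarz
`(∫_s^t h)² ≤ (t - s) ∫_s^t h²`. -/
def S_OD2 : Prop := ∀ (f g : ℝ → ℂ) (a : ℝ → ℝ), Lin f g a → ∀ k s t : ℝ, s ≤ t →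
  ‖f t‖ ^ 2 ≤ 2 * Real.exp (2 * |k| * (t - s)) *
      (‖f s‖ ^ 2 + (t - s) * ∫ τ in s..t, ‖g τ + (k : ℂ) * f τ‖ ^ 2) ∧
  ‖f s‖ ^ 2 ≤ 2 * Real.exp (2 * |k| * (t - s)) *
      (‖f t‖ ^ 2 + (t - s) * ∫ τ in s..t, ‖g τ + (k : ℂ) * f τ‖ ^ 2)

/-- OD3 (35 min). Deps: none. `‖g - (α/2) f‖² = ‖g‖² + (α²/4) ‖f‖² - α Re (g conj f)` and
`2 Re (g conj f) = (‖f‖²)'` (since `Re (i a f conj f) = 0`); integrate over `(-∞, c]`, where `f` and `g` have compact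
support (`g = 0` outside the topological support of `f`, as `f' = 0` there). Same on `[c, ∞)`. -/
def S_OD3 : Prop := ∀ (α : ℝ) (f g : ℝ → ℂ) (a : ℝ → ℝ), Lin f g a → HasCompactSupport f → ∀ c : ℝ,
  (∫ t in Iic c, (‖g t‖ ^ 2 + α ^ 2 / 4 * ‖f t‖ ^ 2)) =
      α / 2 * ‖f c‖ ^ 2 + ∫ t in Iic c, ‖g t - ((α / 2 : ℝ) : ℂ) * f t‖ ^ 2 ∧
  (∫ t in Ici c, (‖g t‖ ^ 2 + α ^ 2 / 4 * ‖f t‖ ^ 2)) =
      α / 2 * ‖f c‖ ^ 2 + ∫ t in Ici c, ‖g t + ((α / 2 : ℝ) : ℂ) * f t‖ ^ 2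

/-- OD4 (35 min). Deps: none. With `k t = (α/2) tanh (α (c + T - t)/2)` one has `k² - k' = α²/4` and `k (c + T) = 0`;
`0 ≤ ∫ ‖g + k f‖² = ∫ (‖g‖² + k² ‖f‖² + k (‖f‖²)') = ∫ (‖g‖² + (k² - k') ‖f‖²) - k c ‖f c‖²`. -/
def S_OD4 : Prop := ∀ (α : ℝ), 0 < α → ∀ (f g : ℝ → ℂ) (a : ℝ → ℝ), Lin f g a → ∀ c T : ℝ, 0 ≤ T →
  α / 2 * Real.tanh (α * T / 2) * ‖f c‖ ^ 2 ≤ ∫ t in c..(c + T), (‖g t‖ ^ 2 + α ^ 2 / 4 * ‖f t‖ ^ 2)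

/-- The slice inequality with constants `ℓ`, `C`. -/
def SLI (α ℓ C : ℝ) : Prop := ∀ (f g : ℝ → ℂ) (a : ℝ → ℝ), Lin f g a → HasCompactSupport f → ∀ T : ℝ, 0 ≤ T →
  α * ‖f 0‖ ^ 2 ≤ (∫ t in Iic T, (‖g t‖ ^ 2 + α ^ 2 / 4 * ‖f t‖ ^ 2)) +
    C * Real.exp (-(α * T)) * ∫ t in (-ℓ)..0, ‖f t‖ ^ 2

/-- SLI (45 min). Deps: OD2 OD3 OD4. Let `X = ∫_{-∞}^0 ‖g - (α/2) f‖²`. By OD3 (`c = 0`) and OD4 (`c = 0`)
`∫_{-∞}^T ≥ (α/2) ‖f 0‖² + X + (α/2) tanh (α T/2) ‖f 0‖² ≥ α ‖f 0‖² + X - α e^{-α T} ‖f 0‖²`, since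
`1 - tanh z ≤ 2 e^{-2 z}`. By OD2 with `k = -α/2`, for `t ∈ [-ℓ, 0]`: `‖f 0‖² ≤ 2 e^{α ℓ} (‖f t‖² + ℓ X)`; the mean over
`t ∈ [-ℓ, 0]` gives `‖f 0‖² ≤ 2 e^{α ℓ} (ℓ⁻¹ ∫_{-ℓ}^0 ‖f‖² + ℓ X)`. Choose `ℓ` with `2 α ℓ e^{α ℓ} ≤ 1` (e.g.
`ℓ = 1/(6 α)`) and `C = 2 α e^{α ℓ}/ℓ`; then `α e^{-αT} ‖f 0‖² ≤ C e^{-αT} ∫_{-ℓ}^0 ‖f‖² + X`. -/
def S_SLI : Prop := ∀ α : ℝ, 0 < α → ∃ ℓ C : ℝ, 0 < ℓ ∧ 0 < C ∧ SLI α ℓ C

/-- V1 (40 min). Deps: OD2. For `y' ∈ [y1, y2]` go from `y'` to `y` inside `[-R, R]`, with a stop at `h` if `h` lies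
between them; on the parts below `h` use OD2 with `k = -α/2`, on the parts above `h` with `k = α/2`. This gives
`‖f y‖² ≤ C' (‖f y'‖² + ∫_{Iic h} .. + ∫_{Ici h} ..)` with `C'` depending on `α`, `R` only (the integrals of
nonnegative functions over subintervals are at most those over the half lines: the integrands have compact
support); take the mean over `y' ∈ [y1, y2]`. -/
def S_V1 : Prop := ∀ (α R y1 y2 : ℝ), 0 < α → -R ≤ y1 → y1 < y2 → y2 ≤ R → ∃ C : ℝ, 0 < C ∧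
  ∀ (f g : ℝ → ℂ) (a : ℝ → ℝ), Lin f g a → HasCompactSupport f → ∀ h ∈ Icc (-R) R, ∀ y ∈ Icc (-R) R,
    ‖f y‖ ^ 2 ≤ C * ((∫ t in y1..y2, ‖f t‖ ^ 2) + ((∫ t in Iic h, ‖g t - ((α / 2 : ℝ) : ℂ) * f t‖ ^ 2) +
      ∫ t in Ici h, ‖g t + ((α / 2 : ℝ) : ℂ) * f t‖ ^ 2))

/-- LIN (30 min). Deps: none. Restrictions of an admissible function to lines: the derivative of
`t ↦ u (p + t e)` is `fderiv ℝ u _ e`, which is `DD A u e _ + i (A · e) u`; compact support for `e ≠ 0`. Moreover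
`DD` is linear in `e` and the sum of the squares over an orthonormal frame does not depend on the frame; all
`DD A u e` have compact support. -/
def S_LIN : Prop := ∀ (A : ℝ × ℝ → ℝ × ℝ) (u : ℝ × ℝ → ℂ), Adm A u →
  (∀ p e : ℝ × ℝ, Lin (fun t => u (p + t • e)) (fun t => DD A u e (p + t • e))
    (fun t => (A (p + t • e)).1 * e.1 + (A (p + t • e)).2 * e.2)) ∧
  (∀ p e : ℝ × ℝ, e ≠ 0 → HasCompactSupport (fun t : ℝ => u (p + t • e))) ∧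
  (∀ e : ℝ × ℝ, HasCompactSupport (DD A u e)) ∧
  (∀ (c : ℝ) (e z : ℝ × ℝ), DD A u (c • e) z = (c : ℂ) * DD A u e z) ∧
  (∀ (θ : ℝ) (z : ℝ × ℝ), ‖DD A u (TT θ) z‖ ^ 2 + ‖DD A u (NN θ) z‖ ^ 2 =
    ‖DD A u (1, 0) z‖ ^ 2 + ‖DD A u (0, 1) z‖ ^ 2)

/-- ADM (40 min). Deps: none. For `C¹` potentials and `C¹` functions of compact support everything is continuous; the
Aharonov-Bohm potential is continuous off `p` and `u` vanishes near `p` if `p` is not in the topological support. -/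
def S_ADM : Prop := ∀ (u : ℝ × ℝ → ℂ), ContDiff ℝ 1 u → HasCompactSupport u →
  (∀ A : ℝ × ℝ → ℝ × ℝ, ContDiff ℝ 1 A → Adm A u) ∧
  (∀ (Φ : ℝ) (p : ℝ × ℝ), p ∉ tsupport u → Adm (AB Φ p) u)

/-- GE (50 min). Deps: none. Take `a < b` with the support of `γ` inside `(a, b)` and `M > ∫ |γ|`. Then
`ang γ ε s = ε ∫_{r ≤ s} γ`, `|ang| ≤ |ε| M`, it is `0` for `s ≤ a`, constant for `s ≥ b`, continuous; the
integrands `cos ang - 1` and `sin ang` vanish on `(-∞, a]` and are continuous, so the integrals over `Iic s` are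
`∫_a^s` (for `s ≥ a`; both are `0` for `s ≤ a`), differentiable with derivatives `cos ang - 1`, `sin ang`. -/
def S_GE : Prop := ∀ γ : ℝ → ℝ, Continuous γ → HasCompactSupport γ → ∃ a b M : ℝ, 0 < M ∧
  ∀ ε δ : ℝ, |ε| * M ≤ δ → 0 < δ → δ ≤ 1 / 2 →
    Geo a b δ (ang γ ε) (fun s => (crv γ ε s).1) (fun s => (crv γ ε s).2)

/-- GEO2 (45 min). Deps: none. `|θ| ≤ δ ≤ 1/2` gives `cos θ ≥ 1 - δ²/2 ≥ 1/2`, `|sin θ| ≤ δ`, and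
`|sin θ| ≤ 2 δ cos θ`; integrate the derivatives (mean value theorem); `X` and `Y` are affine on `[b, ∞)`. -/
def S_GEO2 : Prop := ∀ (a b δ : ℝ) (θ X Y : ℝ → ℝ), Geo a b δ θ X Y →
  (∀ s, 1 / 2 ≤ Real.cos (θ s)) ∧ (∀ s, 1 - Real.cos (θ s) ≤ δ ^ 2 / 2) ∧
  (∀ s, |Real.sin (θ s)| ≤ 2 * δ * Real.cos (θ s)) ∧
  StrictMono X ∧ Function.Surjective X ∧ Continuous X ∧ Continuous Y ∧
  (∀ s t, s ≤ t → (t - s) / 2 ≤ X t - X s ∧ X t - X s ≤ t - s) ∧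
  (∀ s, a ≤ s → |Y s| ≤ δ * (s - a)) ∧
  (∀ s r, b ≤ s → 0 ≤ r → X (s + r) = X s + r * Real.cos (θ b) ∧ Y (s + r) = Y s + r * Real.sin (θ b))

/-- CV (50 min). Deps: GEO2. Fubini and the substitution `x = X s`, `dx = cos (θ s) ds` (`X` is an increasing
`C¹` bijection); second part: the same on a box. -/
def S_CV : Prop := ∀ (a b δ : ℝ) (θ X Y : ℝ → ℝ), Geo a b δ θ X Y →
  (∀ (S : ℝ) (F : ℝ × ℝ → ℝ), Continuous F → HasCompactSupport F →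
    (∫ z in {z : ℝ × ℝ | z.1 < X S}, F z) = ∫ s in Iic S, Real.cos (θ s) * ∫ y, F (X s, y)) ∧
  (∀ (S' S y1 y2 : ℝ) (F : ℝ × ℝ → ℝ), Continuous F → S' ≤ S → y1 ≤ y2 →
    (∫ z in Icc (X S') (X S) ×ˢ Icc y1 y2, F z) = ∫ s in S'..S, Real.cos (θ s) * ∫ y in y1..y2, F (X s, y))

/-- YYC (45 min). Deps: LIN. The vertical excess is continuous in `(x, h)`, nonnegative, and vanishes for large
`|x|` (the integrands are jointly continuous with compact support; write the integrals over `Iic h` as `∫_{-R}^h`). -/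
def S_YYC : Prop := ∀ (α : ℝ) (A : ℝ × ℝ → ℝ × ℝ) (u : ℝ × ℝ → ℂ), Adm A u →
  Continuous (fun p : ℝ × ℝ => YY A u α p.1 p.2) ∧ (∀ x h, 0 ≤ YY A u α x h) ∧
  ∃ R : ℝ, ∀ x h, R < |x| → YY A u α x h = 0

/-- R1 (50 min). Deps: LIN OD3 GEO2 CV YYC. Vertical slices. By CV the left side is
`∫_{s ≤ S} cos (θ s) ∫_y QQ (X s, y)`, and `∫_y QQ = ∫_y ‖D₁ u‖² + ∫_{y ≤ Y s} .. + ∫_{y ≥ Y s} ..`; by OD3 at `c = Y s`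
the last two are `α ‖u (X s, Y s)‖² + YY (X s) (Y s)`. Use CV again for `‖D₁ u‖²`. -/
def S_R1 : Prop := ∀ (α a b δ : ℝ) (θ X Y : ℝ → ℝ), Geo a b δ θ X Y →
  ∀ (A : ℝ × ℝ → ℝ × ℝ) (u : ℝ × ℝ → ℂ), Adm A u → ∀ S : ℝ,
    (∫ z in {z : ℝ × ℝ | z.1 < X S}, QQ A u α z) =
      E1 A u α θ X Y S + α * ∫ s in Iic S, Real.cos (θ s) * ‖u (X s, Y s)‖ ^ 2

/-- R2 (75 min). Deps: LIN GEO2. Slices orthogonal to the right half line. Let `θ = θ b`, `T = TT θ`, `N = NN θ`,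
`p = (X S, Y S)`; `σ = 1` if `θ ≥ 0`, else `σ = -1`. The map `(s, t) ↦ p + s T + σ t N` preserves the measure, and
`{z | X S < z.1}` corresponds to `{s cos θ > t |sin θ|}`, which contains `W = {s > 0, t < s/(2 δ)}` because
`|sin θ| ≤ 2 δ cos θ`. Since `QQ = ‖DD T‖² + ‖DD N‖² + (α²/4) ‖u‖²` and everything is nonnegative,
`∫_{X S < z.1} QQ ≥ ∫_{X S < z.1} ‖DD T‖² + ∫_W (‖DD (σ N)‖² + (α²/4) ‖u‖²)`, and on the slice `s > 0` SLI with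
`T = s/(2 δ)` applies to `f t = u (p + s T + t σ N)`. Finally `(X (S + s), Y (S + s)) = p + s T`. -/
def S_R2 : Prop := ∀ (α ℓ C : ℝ), 0 < α → 0 < ℓ → 0 < C → SLI α ℓ C →
  ∀ (a b δ : ℝ) (θ X Y : ℝ → ℝ), Geo a b δ θ X Y →
  ∀ (A : ℝ × ℝ → ℝ × ℝ) (u : ℝ × ℝ → ℂ), Adm A u → ∀ S : ℝ, b ≤ S →
    ∃ σ : ℝ, (σ = 1 ∨ σ = -1) ∧ 0 ≤ σ * θ b ∧
      (∫ z in {z : ℝ × ℝ | X S < z.1}, ‖DD A u (TT (θ b)) z‖ ^ 2) + α * ∫ s in Ioi S, ‖u (X s, Y s)‖ ^ 2 ≤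
        (∫ z in {z : ℝ × ℝ | X S < z.1}, QQ A u α z) +
          C * ∫ s in Ioi (0 : ℝ), Real.exp (-(α * (s / (2 * δ)))) *
            ∫ t in (-ℓ)..0, ‖u ((X S, Y S) + s • TT (θ b) + t • (σ • NN (θ b)))‖ ^ 2

/-- TI (75 min). Deps: LIN OD2 GEO2. Notation of R2, `t ∈ [-ℓ, 0]`. The point with coordinates `(s, t)` has
`z.1 = X S + s cos θ - t σ sin θ = X S + s cos θ + |t| |sin θ|`. On the line with this `t` the boundary point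
`z.1 = X S` has `s = s₀ = - |t| |tan θ| ∈ [-ℓ, 0]` (as `|tan θ| ≤ 1`), it is `(X S, Y S + t σ / cos θ)`. By OD2 (`k = 0`)
on `[s₀, s]`: `‖u (s, t)‖² ≤ 2 ‖u (s₀, t)‖² + 2 (s + ℓ) ∫_{s₀}^∞ ‖DD T‖² ds`. Integrate over `t ∈ [-ℓ, 0]`
(`dt = cos θ dy` at the boundary; `1/cos θ ≤ 2`; the region `s > s₀` is `z.1 > X S`) and over `s > 0` against
`e^{-λ s}`, `λ = α/(2 δ)`: `∫ e^{-λ s} = 2 δ/α`, `∫ s e^{-λ s} = (2 δ/α)² ≤ 2 δ/α²`. -/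
def S_TI : Prop := ∀ (α ℓ : ℝ), 0 < α → 0 < ℓ → ∃ C : ℝ, 0 < C ∧
  ∀ (a b δ : ℝ) (θ X Y : ℝ → ℝ), Geo a b δ θ X Y →
  ∀ (A : ℝ × ℝ → ℝ × ℝ) (u : ℝ × ℝ → ℂ), Adm A u → ∀ S : ℝ, b ≤ S →
    ∀ σ : ℝ, (σ = 1 ∨ σ = -1) → 0 ≤ σ * θ b →
      (∫ s in Ioi (0 : ℝ), Real.exp (-(α * (s / (2 * δ)))) *
            ∫ t in (-ℓ)..0, ‖u ((X S, Y S) + s • TT (θ b) + t • (σ • NN (θ b)))‖ ^ 2) ≤
        C * δ * ((∫ y in (Y S - 2 * ℓ)..(Y S + 2 * ℓ), ‖u (X S, y)‖ ^ 2) +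
          ∫ z in {z : ℝ × ℝ | X S < z.1}, ‖DD A u (TT (θ b)) z‖ ^ 2)

/-- HOL (75 min; the heart). Deps: LIN OD1. Fix `(x, y)` in the box. Horizontal transport: with
`P = exp (i ∫_x^{x+l1} A₁ (σ, y) dσ)`, `‖u (x + l1, y) - P u (x, y)‖ ≤ ∫_x^{x+l1} ‖D₁ u (σ, y)‖` (multiply by the
integrating factor; `A₁` is continuous on this side). Vertical transport: `exp (k τ) u (x, τ)` has covariant
derivative `exp (k τ) (D₂ u + k u)`, so `‖e^{k l2} u (x, y + l2) - Q u (x, y)‖ ≤ e^{|k| l2} ∫_y^{y+l2} ‖D₂ u + k u‖ (x, ·)`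
with `Q = exp (i ∫ A₂ (x, ·))`, and the same at `x + l1`. Going right-up and up-right to `(x + l1, y + l2)` gives
`‖e^{k l2} u (x + l1, y + l2) - (phase 1) u (x, y)‖` and `‖.. - (phase 2) u (x, y)‖` bounded by
`C ×` the sum of the integrals of `‖D₁ u‖` on the two horizontal sides and of `‖D₂ u + k u‖` on the two vertical
sides, so `c ‖u (x, y)‖ ≤ C × (this sum)`. Square, Cauchy-Schwarz, integrate over `(x, y) ∈ [x1, x2] × [y1, y2]`: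
each of the four terms is `≤ C ∫_box`, e.g. `∫∫ (l1 ∫_x^{x+l1} ‖D₁ u (σ, y)‖² dσ) dx dy ≤ l1 (x2 - x1) ∫∫_box ‖D₁ u‖²`,
and for the upper side use `y ↦ y + l2`. -/
def S_HOL : Prop := ∀ (k : ℝ) (A : ℝ × ℝ → ℝ × ℝ) (x1 x2 y1 y2 l1 l2 c : ℝ), Hol A x1 x2 y1 y2 l1 l2 c →
  ∃ C : ℝ, 0 < C ∧ ∀ u : ℝ × ℝ → ℂ, Adm A u →
    (∫ z in Icc x1 x2 ×ˢ Icc y1 y2, ‖u z‖ ^ 2) ≤
      C * ∫ z in Icc x1 (x2 + l1) ×ˢ Icc y1 (y2 + l2),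
        (‖DD A u (1, 0) z‖ ^ 2 + ‖DD A u (0, 1) z + (k : ℂ) * u z‖ ^ 2)

/-- REG (60 min). Deps: none. `B = curl A` is continuous; choose a point `z₀` with `B z₀ ≠ 0` and `z₀.2 ≠ 0`, and a
small square around it, off the axis, on which `B` has constant sign and `|B₀|/2 ≤ |B| ≤ 2 |B₀|`. Green on a
rectangle of sides `l` with corner `(x, y)`: the difference of the two exponents is `Φ = ∫∫ B`,
`l² |B₀|/2 ≤ |Φ| ≤ 2 l² |B₀| ≤ 1` for `l` small, so `|e^{iΦ} - 1| ≥ |Φ|/2`. (Green: FTC in one variable and Fubini,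
or `MeasureTheory.integral2_divergence_prod_of_hasFDerivWithinAt_off_countable`.) -/
def S_REG : Prop := ∀ A : ℝ × ℝ → ℝ × ℝ, ContDiff ℝ 1 A → (∃ z, curl A z ≠ 0) →
  ∃ x1 x2 y1 y2 l1 l2 c : ℝ, Hol A x1 x2 y1 y2 l1 l2 c ∧ (0 < y1 ∨ y2 + l2 < 0)

/-- SAB (50 min). Deps: none. Take a small rectangle around `p`, off the axis: e.g. with `r = |p.2|/8`,
`x1 = p.1 - 2 r`, `x2 = p.1 - r`, `l1 = 4 r`, `y1 = p.2 - 2 r`, `y2 = p.2 - r`, `l2 = 4 r`. All sides avoid `p`. The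
difference of the two exponents is `2 π Φ`: with `P = x + l1 - p.1`, `Q = p.1 - x`, `d = p.2 - y`, `e = y + l2 - p.2`
positive, the bottom side gives `Φ (arctan (P/d) + arctan (Q/d))`, the right side
`Φ (arctan (e/P) + arctan (d/P))`, the left side `-Φ (arctan (e/Q) + arctan (d/Q))`, the top side
`-Φ (arctan (P/e) + arctan (Q/e))`, and `arctan z + arctan (1/z) = π/2`. So `c = ‖exp (2 π i Φ) - 1‖ > 0`. -/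
def S_SAB : Prop := ∀ Φ : ℝ, (∀ n : ℤ, Φ ≠ n) → ∀ p : ℝ × ℝ, p.2 ≠ 0 →
  ∃ x1 x2 y1 y2 l1 l2 c : ℝ, Hol (AB Φ p) x1 x2 y1 y2 l1 l2 c ∧ (0 < y1 ∨ y2 + l2 < 0)

/-- SPB (45 min). Deps: LIN OD2. On horizontal lines (`k = 0`): for `x ∈ [lo, hi]`, `x' ∈ [x1, x2]`,
`‖u (x, y)‖² ≤ 2 ‖u (x', y)‖² + 2 (hi - lo) ∫_{lo}^{hi} ‖D₁ u (·, y)‖²`. Mean over `x'`, integrate over `x` and `y`. -/
def S_SPB : Prop := ∀ (A : ℝ × ℝ → ℝ × ℝ) (u : ℝ × ℝ → ℂ), Adm A u →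
  ∀ lo x1 x2 hi y1 y2 : ℝ, lo ≤ x1 → x1 < x2 → x2 ≤ hi → y1 ≤ y2 →
    (∫ z in Icc lo hi ×ˢ Icc y1 y2, ‖u z‖ ^ 2) ≤
      2 * (hi - lo) / (x2 - x1) * (∫ z in Icc x1 x2 ×ˢ Icc y1 y2, ‖u z‖ ^ 2) +
        2 * (hi - lo) ^ 2 * ∫ z in Icc lo hi ×ˢ Icc y1 y2, ‖DD A u (1, 0) z‖ ^ 2

/-- SPD (35 min). Deps: LIN OD2. Trace on a vertical line: `‖u (x, y)‖² ≤ 2 ‖u (x', y)‖² + 2 ∫_{x-1}^x ‖D₁ u (·, y)‖²`
for `x' ∈ [x - 1, x]`; integrate over `x'` and `y`. -/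
def S_SPD : Prop := ∀ (A : ℝ × ℝ → ℝ × ℝ) (u : ℝ × ℝ → ℂ), Adm A u → ∀ x c d : ℝ, c ≤ d →
    (∫ y in c..d, ‖u (x, y)‖ ^ 2) ≤
      2 * (∫ z in Icc (x - 1) x ×ˢ Icc c d, ‖u z‖ ^ 2) +
        2 * ∫ z in Icc (x - 1) x ×ˢ Icc c d, ‖DD A u (1, 0) z‖ ^ 2

/-- CO1 (60 min). Deps: HOL GEO2 CV YYC LIN. Since `X S ≥ a + (S - a)/2 ≥ x2 + l1`, the box
`[x1, x2 + l1] × [y1, y2 + l2]` lies on the left of `X S`. Choose `δ₁` with `δ₁ (S - a) < y1` (if `0 < y1`; use HOL with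
`k = α/2`), respectively `< -(y2 + l2)` (use `k = -α/2`). For `s ≤ S` then `Y s < y1` (`Y s = 0` for `s ≤ a`), so
`YY (X s) (Y s) ≥ ∫_{y1}^{y2+l2} ‖D₂ u + (α/2) u‖² (X s, ·)`, and by CV (box part, `X S' = x1`, `X S'' = x2 + l1`)
`∫_box ‖D₂ u + (α/2) u‖² ≤ ∫_{s ≤ S} cos (θ s) YY`. -/
def S_CO1 : Prop := ∀ (α : ℝ) (A : ℝ × ℝ → ℝ × ℝ) (x1 x2 y1 y2 l1 l2 c : ℝ), 0 < α →
  Hol A x1 x2 y1 y2 l1 l2 c → (0 < y1 ∨ y2 + l2 < 0) → ∀ a b S : ℝ, a < b → b ≤ S →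
    x2 + l1 ≤ a + (S - a) / 2 → ∃ δ1 C : ℝ, 0 < δ1 ∧ 0 < C ∧
      ∀ (δ : ℝ) (θ X Y : ℝ → ℝ), Geo a b δ θ X Y → δ ≤ δ1 → ∀ u : ℝ × ℝ → ℂ, Adm A u →
        (∫ z in Icc x1 x2 ×ˢ Icc y1 y2, ‖u z‖ ^ 2) ≤ C * E1 A u α θ X Y S

/-- CO2 (75 min). Deps: SPB V1 GEO2 CV YYC LIN. Put `lo = min a x1`, `hi = X S ≤ S` (if `S ≥ a`;
`X S = a + (X S - X a) ≤ S`). SPB: `∫_{[lo, X S] × [y1, y2]} ‖u‖² ≤ C (K + E1)`, `K = ∫_{[x1,x2] × [y1,y2]} ‖u‖²` (note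
`x2 ≤ a + (S - a)/2 ≤ X S`). V1 on the vertical line at `X s`, `s ∈ [a, S]`, `h = Y s` (`|Y s| ≤ (S - a)/2 ≤ R`):
for `y ∈ [-R, R]`, `‖u (X s, y)‖² ≤ C (∫_{y1}^{y2} ‖u (X s, ·)‖² + YY (X s) (Y s))`. (i) `y = Y s`: integrate over
`s ∈ [a, S]`, with `1 ≤ 2 cos (θ s)` and CV. (ii) integrate over `y ∈ [-R, R]` and over `s` with `X s ∈ [X S - 1, X S]`
(these are `≥ X a = a` since `X S ≥ a + (S - a)/2 ≥ a + 2`) against `cos (θ s) ds`, CV. -/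
def S_CO2 : Prop := ∀ (α a b S x1 x2 y1 y2 R : ℝ), 0 < α → a < b → b ≤ S → a + 4 ≤ S →
  x1 < x2 → x2 ≤ a + (S - a) / 2 → y1 < y2 → -R ≤ y1 → y2 ≤ R → S - a ≤ R → ∃ C : ℝ, 0 < C ∧
    ∀ (δ : ℝ) (θ X Y : ℝ → ℝ), Geo a b δ θ X Y → ∀ (A : ℝ × ℝ → ℝ × ℝ) (u : ℝ × ℝ → ℂ), Adm A u →
      (∫ s in a..S, ‖u (X s, Y s)‖ ^ 2) ≤
          C * ((∫ z in Icc x1 x2 ×ˢ Icc y1 y2, ‖u z‖ ^ 2) + E1 A u α θ X Y S) ∧
      (∫ z in Icc (X S - 1) (X S) ×ˢ Icc (-R) R, ‖u z‖ ^ 2) ≤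
          C * ((∫ z in Icc x1 x2 ×ˢ Icc y1 y2, ‖u z‖ ^ 2) + E1 A u α θ X Y S)

/-- CO (40 min). Deps: CO1 CO2 SPD GEO2 YYC. `S = max b (a + 2 |x2 + l1 - a| + 4)`,
`R = |y1| + |y2| + (S - a) + 2 ℓ`; `[Y S - 2 ℓ, Y S + 2 ℓ] ⊆ [-R, R]` since `|Y S| ≤ (S - a)/2`; `‖D₁ u‖²` over the box
is at most its integral over `z.1 < X S` (up to the null line), which is `≤ E1` as `YY ≥ 0`. -/
def S_CO : Prop := ∀ (α : ℝ) (A : ℝ × ℝ → ℝ × ℝ) (x1 x2 y1 y2 l1 l2 c : ℝ), 0 < α →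
  Hol A x1 x2 y1 y2 l1 l2 c → (0 < y1 ∨ y2 + l2 < 0) → ∀ a b ℓ : ℝ, a < b → 0 < ℓ →
    ∃ S δ1 C : ℝ, b ≤ S ∧ 0 < δ1 ∧ 0 < C ∧
      ∀ (δ : ℝ) (θ X Y : ℝ → ℝ), Geo a b δ θ X Y → δ ≤ δ1 → ∀ u : ℝ × ℝ → ℂ, Adm A u →
        (∫ s in a..S, ‖u (X s, Y s)‖ ^ 2) ≤ C * E1 A u α θ X Y S ∧
        (∫ y in (Y S - 2 * ℓ)..(Y S + 2 * ℓ), ‖u (X S, y)‖ ^ 2) ≤ C * E1 A u α θ X Y S

/-- CORE (50 min). Deps: SLI R1 R2 TI CO GEO2 YYC LIN. With `S, δ₁, C₀` from CO, `ℓ, C` from SLI, `C₁` from TI: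
`∫ QQ = ∫_{z.1 < X S} QQ + ∫_{X S < z.1} QQ` (the line is null). R1: the first is
`E1 + α ∫_{s ≤ S} cos θ ‖u‖² ≥ E1 + α ∫_{s ≤ S} ‖u‖² - α (δ²/2) ∫_a^S ‖u‖² ≥ (1 - α δ² C₀/2) E1 + α ∫_{s ≤ S} ‖u‖²`
(`θ = 0` for `s ≤ a`). R2 and TI: the second is
`≥ E2 + α ∫_{s > S} ‖u‖² - C C₁ δ (C₀ E1 + E2)`, `E2 = ∫_{X S < z.1} ‖DD T‖²`. Choose `δ₀ ≤ δ₁` so small that
`α δ² C₀/2 + C C₁ δ C₀ ≤ 1` and `C C₁ δ ≤ 1` for `δ = δ₀`. -/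
def S_CORE : Prop := ∀ (α : ℝ) (A : ℝ × ℝ → ℝ × ℝ) (x1 x2 y1 y2 l1 l2 c : ℝ), 0 < α →
  Hol A x1 x2 y1 y2 l1 l2 c → (0 < y1 ∨ y2 + l2 < 0) → ∀ a b : ℝ, a < b →
    ∃ δ0 : ℝ, 0 < δ0 ∧ δ0 ≤ 1 / 2 ∧ ∀ (θ X Y : ℝ → ℝ), Geo a b δ0 θ X Y → ∀ u : ℝ × ℝ → ℂ, Adm A u →
      α * (∫ s, ‖u (X s, Y s)‖ ^ 2) ≤ ∫ z, QQ A u α z

end

end Pool.Agent.T2H04.LC
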